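import Pool.Agent.L5helper6.BF.BB
import Pool.Agent.N852.GR.Arc
import Pool.Agent.N852.GR.Ctt
import Pool.Agent.N852.GR.Pig1
import Pool.Agent.N852.GR.Pig2
import Pool.Agent.N852.GR.Red
import Pool.Agent.N852.GR.Hgt

/-!
Minimal integral representatives of lines and planes over a number field.
-/

namespace Pool.Agent.L5helper6.BF

open scoped Classical
open NumberField Module Function
open Pool.Agent Pool.Agent.N852.GR

set_option linter.unusedSectionVars false

variable {F : Type} [Field F] [NumberField F] {N : ℕ}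

/-- A vector of minimal norm on its line. -/
def Ml (x : Fin N → 𝓞 F) : Prop :=
  x ≠ 0 ∧ ∀ z : Fin N → 𝓞 F, z ≠ 0 → co z ∈ Submodule.span F {co x} → ‖io x‖ ≤ ‖io z‖

theorem co_zero' : co (0 : Fin N → 𝓞 F) = 0 := by
  funext i
  simp [co]

theorem exists_ml (x : Fin N → F) (hx : x ≠ 0) : ∃ x' : Fin N → 𝓞 F, Ml x' ∧
    ∃ c : F, c ≠ 0 ∧ co x' = c • x := by
  obtain ⟨c₀, x₀, hc₀, hx₀⟩ := Red_int x
  have hne : x₀ ≠ 0 := by
    intro h
    rw [h, co_zero'] at hx₀
    exact (smul_ne_zero hc₀ hx) hx₀.symm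
  obtain ⟨a, ⟨ha1, ha2⟩, hmin⟩ := Red_min ((latP F N).2.1)
    {z : Fin N → 𝓞 F | z ≠ 0 ∧ co z ∈ Submodule.span F {x}}
    ⟨x₀, hne, by rw [hx₀]; exact Submodule.smul_mem _ _ (Submodule.mem_span_singleton_self _)⟩
  obtain ⟨c, hc⟩ := Submodule.mem_span_singleton.1 ha2
  have hc0 : c ≠ 0 := by
    rintro rfl
    rw [zero_smul] at hc
    exact Ctt.co_ne ha1 hc.symm
  refine ⟨a, ⟨ha1, fun z hz1 hz2 => hmin z ⟨hz1, ?_⟩⟩, c, hc0, hc.symm⟩
  rw [← hc] at hz2
  exact (Submodule.span_singleton_smul_le F c x) hz2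

theorem ml_bal (F : Type) [Field F] [NumberField F] : ∃ κ : ℝ, 0 < κ ∧ κ ≤ 1 ∧
    ∀ (N : ℕ) (a : Fin N → 𝓞 F), Ml a → ∀ w : InfinitePlace F, ∃ i, κ * ‖io a‖ ≤ w (a i : F) := by
  obtain ⟨M0, hM0⟩ := pig1P F (1 / 8) (by norm_num)
  set M := max M0 1 with hM
  have hM1 : 1 ≤ M := le_max_right _ _
  have hMp : 0 < M := by linarith
  refine ⟨1 / M, by positivity, by rw [div_le_one hMp]; exact hM1, fun N a ha w₀ => ?_⟩
  obtain ⟨ha0, hmin⟩ := ha
  obtain ⟨i0, hi0⟩ := Function.ne_iff.1 ha0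
  have hi0' : (a i0 : F) ≠ 0 := by
    intro h
    apply hi0
    exact_mod_cast h
  set A := ‖io a‖ with hA
  have hA0 : 0 < A := lt_of_lt_of_le (InfinitePlace.pos_iff.2 hi0') (Arc.le_io a i0 w₀)
  obtain ⟨α, γ, hα, h1, -, h2⟩ := hM0 w₀ 0
  have hαF : (α : F) ≠ 0 := by
    intro h
    apply hα
    exact_mod_cast h
  set x : Fin N → 𝓞 F := fun i => α * a i with hx
  have hxe : ∀ i, (x i : F) = (α : F) * (a i : F) := fun i => map_mul (algebraMap (𝓞 F) F) _ _
  have hco : co x = (α : F) • co a := by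
    funext i
    rw [Pi.smul_apply, smul_eq_mul]
    exact hxe i
  have hx0 : x ≠ 0 := by
    intro h
    have h3 := congrFun h i0
    exact hi0 (by
      rw [hx] at h3
      exact (mul_eq_zero.1 h3).resolve_left hα)
  have h3 := hmin x hx0 (by
    rw [hco]
    exact Submodule.smul_mem _ _ (Submodule.mem_span_singleton_self _))
  obtain ⟨i, hi⟩ := Arc.ge_at x w₀ (r := A / 8) (R := A) (by linarith) hA0 h3 (by
    intro w hw i
    rw [hxe, map_mul]
    calc w (α : F) * w (a i : F) ≤ 1 / 8 * A :=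
          mul_le_mul (h2 w hw).1 (Arc.le_io a i w) (apply_nonneg _ _) (by norm_num)
      _ = A / 8 := by ring)
  refine ⟨i, ?_⟩
  have h4 : A ≤ M * w₀ (a i : F) := by
    refine hi.trans ?_
    rw [hxe, map_mul]
    exact mul_le_mul_of_nonneg_right (h1.trans (le_max_left _ _)) (apply_nonneg _ _)
  rw [div_mul_eq_mul_div, one_mul, div_le_iff₀ hMp]
  linarith

/-- The ideal of the coordinates of a minimal vector contains a fixed integer. -/
theorem ml_ctt (F : Type) [Field F] [NumberField F] : ∃ m : ℕ, m ≠ 0 ∧ ∀ (N : ℕ)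
    (a : Fin N → 𝓞 F), Ml a → (m : 𝓞 F) ∈ Ideal.span (Set.range a) := by
  obtain ⟨K, hK⟩ := pig2P F (1 / 4) (by norm_num)
  refine ⟨K.factorial, Nat.factorial_ne_zero _, fun N a ha => ?_⟩
  obtain ⟨ha0, hmin⟩ := ha
  obtain ⟨c, hc⟩ : ∃ c : Ideal (𝓞 F), c = Ideal.span (Set.range a) := ⟨_, rfl⟩
  have hmem : ∀ i, a i ∈ c := fun i => by
    rw [hc]
    exact Ideal.subset_span ⟨i, rfl⟩
  rw [← hc]
  have hA0 : 0 < ‖io a‖ := Ctt.io_pos ha0
  have hc0 : c ≠ ⊥ := by
    intro hc0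
    apply ha0
    funext i
    have := hmem i
    rw [hc0] at this
    exact (Ideal.mem_bot).1 this
  have key : ∀ α : F, (∀ i, ∃ z : 𝓞 F, (z : F) = α * (a i : 𝓞 F)) →
      ∃ z : 𝓞 F, (z : F) = ((K.factorial : ℕ) : F) * α := by
    intro α hα
    choose z hz using hα
    obtain ⟨m, hm1, hmK, γ, η, hw⟩ := hK α 0
    set u : F := (m : F) * α - γ with hu
    obtain ⟨y, hy⟩ : ∃ y : Fin N → 𝓞 F, y = fun i => (m : 𝓞 F) * z i - γ * a i := ⟨_, rfl⟩
    have hcoy : co y = u • co a := by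
      funext i
      rw [hy, hu]
      show algebraMap (𝓞 F) F ((m : 𝓞 F) * z i - γ * a i) =
        ((m : F) * α - algebraMap (𝓞 F) F γ) * algebraMap (𝓞 F) F (a i)
      have h1 : algebraMap (𝓞 F) F (z i) = α * algebraMap (𝓞 F) F (a i) := hz i
      rw [map_sub, map_mul, map_mul, map_natCast, h1]
      ring
    have hu0 : u = 0 := by
      by_contra hu0
      have h1 : y ≠ 0 := by
        intro h2
        rw [h2, co_zero'] at hcoy
        exact (smul_ne_zero hu0 (Ctt.co_ne ha0)) hcoy.symm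
      have h2 := hmin y h1 (by
        rw [hcoy]
        exact Submodule.smul_mem _ _ (Submodule.mem_span_singleton_self _))
      have h3 : ‖io y‖ ≤ ‖io a‖ / 4 := by
        refine Ctt.io_le y _ (by positivity) fun i w => ?_
        have h4 : (y i : F) = u * (a i : F) := congrFun hcoy i
        rw [h4, map_mul]
        have h5 : w u * w (a i : F) ≤ 1 / 4 * ‖io a‖ :=
          mul_le_mul (hw w).1 (Ctt.w_le a i w) (apply_nonneg w _) (by norm_num)
        linarith
      linarith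
    obtain ⟨q, hq⟩ : m ∣ K.factorial := Nat.dvd_factorial (by omega) hmK
    refine ⟨(q : 𝓞 F) * γ, ?_⟩
    have h1 : (m : F) * α = algebraMap (𝓞 F) F γ := sub_eq_zero.1 (hu.symm.trans hu0)
    show algebraMap (𝓞 F) F ((q : 𝓞 F) * γ) = _
    rw [map_mul, map_natCast, ← h1, hq, Nat.cast_mul]
    ring
  have hcF : (c : FractionalIdeal (nonZeroDivisors (𝓞 F)) F) ≠ 0 :=
    FractionalIdeal.coeIdeal_ne_zero.2 hc0
  have h1 : FractionalIdeal.spanSingleton (nonZeroDivisors (𝓞 F)) (((K.factorial : ℕ) : F)) *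
      (c : FractionalIdeal (nonZeroDivisors (𝓞 F)) F)⁻¹ ≤ 1 := by
    rw [FractionalIdeal.spanSingleton_mul_le_iff]
    intro α hα
    rw [FractionalIdeal.mem_inv_iff hcF] at hα
    rw [FractionalIdeal.mem_one_iff]
    refine key α fun i => ?_
    have h2 := hα (algebraMap (𝓞 F) F (a i))
      ((FractionalIdeal.mem_coeIdeal _).2 ⟨_, hmem i, rfl⟩)
    rw [FractionalIdeal.mem_one_iff] at h2
    exact h2
  have h2 : FractionalIdeal.spanSingleton (nonZeroDivisors (𝓞 F)) (((K.factorial : ℕ) : F)) ≤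
      (c : FractionalIdeal (nonZeroDivisors (𝓞 F)) F) := by
    calc FractionalIdeal.spanSingleton (nonZeroDivisors (𝓞 F)) (((K.factorial : ℕ) : F))
        = (FractionalIdeal.spanSingleton (nonZeroDivisors (𝓞 F)) (((K.factorial : ℕ) : F)) *
          (c : FractionalIdeal (nonZeroDivisors (𝓞 F)) F)⁻¹) *
          (c : FractionalIdeal (nonZeroDivisors (𝓞 F)) F) := by
          rw [mul_assoc, inv_mul_cancel₀ hcF, mul_one]
      _ ≤ 1 * (c : FractionalIdeal (nonZeroDivisors (𝓞 F)) F) := by gcongr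
      _ = _ := one_mul _
  rw [FractionalIdeal.spanSingleton_le_iff_mem, FractionalIdeal.mem_coeIdeal] at h2
  obtain ⟨x, hx, hx'⟩ := h2
  have h3 : x = ((K.factorial : ℕ) : 𝓞 F) := by
    apply FaithfulSMul.algebraMap_injective (𝓞 F) F
    rw [hx']
    simp
  rw [← h3]
  exact hx

/-- The height of a line and a minimal vector. -/
theorem ml_hgt (F : Type) [Field F] [NumberField F] : ∃ C : ℝ, 1 ≤ C ∧ ∀ (N : ℕ)
    (a : Fin N → 𝓞 F), Ml a → ‖io a‖ ^ finrank ℚ F ≤ C * Height.mulHeight (co a) := by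
  obtain ⟨c, hc, -, hA⟩ := ml_bal F
  obtain ⟨m, hm, hC⟩ := ml_ctt F
  set d := finrank ℚ F with hd
  refine ⟨max 1 ((m : ℝ) ^ d / c ^ d), le_max_left _ _, fun n a h => ?_⟩
  have harc := hA n a h
  have hctt := hC n a h
  have ha0 : a ≠ 0 := h.1
  set A := ‖io a‖ with hAdef
  have hA0 : 0 < A := Ctt.io_pos ha0
  have hAB : 0 < c * A := mul_pos hc hA0
  have hx0 : co a ≠ 0 := Ctt.co_ne ha0
  have h1 := NumberField.absNorm_mul_finprod_finitePlace_eq_one (K := F) ha0
  have h2 := NumberField.mulHeight_eq (K := F) hx0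
  set I := (Ideal.span (Set.range a)).absNorm with hN
  have hxe' : ∀ p, ((a p : 𝓞 F) : F) = co a p := fun p => rfl
  simp only [hxe'] at h1
  set f := ∏ᶠ v : FinitePlace F, ⨆ i, v (co a i) with hf
  have hNm : (I : ℝ) ≤ (m : ℝ) ^ d := by
    have h3 : I ∣ (Ideal.span {(m : 𝓞 F)}).absNorm :=
      Ideal.absNorm_dvd_absNorm_of_le ((Ideal.span_singleton_le_iff_mem _).2 hctt)
    have h4 : (Ideal.span {(m : 𝓞 F)}).absNorm = m ^ d := by
      rw [Ideal.absNorm_span_natCast, NumberField.RingOfIntegers.rank]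
    rw [h4] at h3
    have h6 : I ≤ m ^ d := Nat.le_of_dvd (pow_pos (Nat.pos_of_ne_zero hm) _) h3
    exact_mod_cast h6
  have hinf : (c * A) ^ d ≤ ∏ v : InfinitePlace F, (⨆ i, v (co a i)) ^ v.mult := by
    rw [hd, ← InfinitePlace.sum_mult_eq, ← Finset.prod_pow_eq_pow_sum]
    refine Finset.prod_le_prod (fun w _ => pow_nonneg hAB.le _) fun w _ => ?_
    refine pow_le_pow_left₀ hAB.le ?_ _
    obtain ⟨p, hp⟩ := harc w
    exact hp.trans (le_ciSup (f := fun i => w (co a i)) (Set.finite_range _).bddAbove p)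
  have hH0 : 0 ≤ Height.mulHeight (co a) := by
    have := Height.one_le_mulHeight (co a)
    linarith
  have h7 : (c * A) ^ d ≤ (m : ℝ) ^ d * Height.mulHeight (co a) := by
    refine hinf.trans ?_
    have e : ∏ v : InfinitePlace F, (⨆ i, v (co a i)) ^ v.mult =
        (I : ℝ) * Height.mulHeight (co a) := by
      rw [h2]
      calc _ = (∏ v : InfinitePlace F, (⨆ i, v (co a i)) ^ v.mult) * (I * f) := by
            rw [h1, mul_one]
        _ = _ := by ring
    rw [e]
    exact mul_le_mul_of_nonneg_right hNm hH0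
  have h8 : A ^ d ≤ (m : ℝ) ^ d / c ^ d * Height.mulHeight (co a) := by
    rw [div_mul_eq_mul_div, le_div_iff₀ (pow_pos hc d)]
    refine le_trans (le_of_eq ?_) h7
    rw [mul_pow c]; ring
  exact h8.trans (mul_le_mul_of_nonneg_right (le_max_right _ _) hH0)

/-- A minimal pair of a plane. -/
theorem exists_mp (y z : Fin N → F) (h : LinearIndependent F ![y, z]) :
    ∃ a b : Fin N → 𝓞 F, Mn (Submodule.span F {y, z}) a b ∧ finrank F (Submodule.span F {y, z}) = 2 ∧
      Submodule.span F {co a, co b} = Submodule.span F {y, z} ∧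
      ∃ α β γ δ : F, co a = α • y + β • z ∧ co b = γ • y + δ • z ∧ α * δ - β * γ ≠ 0 := by
  have hfr : finrank F (Submodule.span F {y, z}) = 2 := by
    have h1 := finrank_span_eq_card h
    rw [Fintype.card_fin] at h1
    have h2 : Set.range ![y, z] = {y, z} := by
      simp [Matrix.range_cons, Set.pair_comm]
    rwa [h2] at h1
  obtain ⟨a, b, hab, hsp⟩ := redP F (latP F) N _ hfr
  refine ⟨a, b, hab, hfr, hsp, ?_⟩
  obtain ⟨α, β, h1⟩ := Submodule.mem_span_pair.1 hab.1
  obtain ⟨γ, δ, h2⟩ := Submodule.mem_span_pair.1 hab.2.1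
  refine ⟨α, β, γ, δ, h1.symm, h2.symm, ?_⟩
  intro hdet
  have ha0 : co a ≠ 0 := Ctt.co_ne hab.2.2.1
  apply hab.2.2.2.1
  rw [Submodule.mem_span_singleton]
  by_cases hα : α = 0
  · subst hα
    have hβ : β ≠ 0 := by
      rintro rfl
      apply ha0
      rw [← h1, zero_smul, zero_smul, add_zero]
    have hγ : γ = 0 := by
      have h3 : β * γ = 0 := by linear_combination -hdet
      exact (mul_eq_zero.1 h3).resolve_left hβ
    refine ⟨δ / β, ?_⟩
    rw [← h1, ← h2, hγ]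
    simp only [zero_smul, zero_add]
    rw [smul_smul, div_mul_cancel₀ _ hβ]
  · refine ⟨γ / α, ?_⟩
    rw [← h1, ← h2, smul_add, smul_smul, smul_smul, div_mul_cancel₀ _ hα]
    have h3 : γ / α * β = δ := by
      field_simp
      linear_combination -hdet
    rw [h3]

end Pool.Agent.L5helper6.BF
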