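import Pool.Agent.L5helper6.BF.Eng

/-!
The bound for the bad families from a rank condition on a compact set of parameters.
-/

namespace Pool.Agent.L5helper6.BF

open scoped Classical
open NumberField Module Function
open Pool.Agent Pool.Agent.N852.GR

set_option linter.unusedSectionVars false

variable {F : Type} [Field F] [NumberField F]
variable {V : Type} [Fintype V] [DecidableEq V] {n : V → ℕ} {k : ℕ}

/-- The coefficients in `F ⊗ ℝ`. -/
noncomputable def te (T : Fin k → Ten n (𝓞 F)) : Fin k → Ten n (EE F) :=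
  fun i j => mixedEmbedding F (T i j : F)

theorem co_dv_smul {p N : ℕ} {M M' : Fin k → Fin p → Fin N → 𝓞 F} {c : F}
    (h : ∀ i l l', (M' i l l' : F) = c * (M i l l' : F)) (b : Fin N → 𝓞 F) (i : Fin k) :
    co (dv M' b i) = c • co (dv M b i) := by
  funext l
  rw [Pi.smul_apply, smul_eq_mul]
  have e : ∀ M : Fin k → Fin p → Fin N → 𝓞 F, co (dv M b i) l =
      ∑ l', (M i l l' : F) * (b l' : F) := by
    intro M
    show algebraMap (𝓞 F) F (∑ l', M i l l' * b l') = _
    rw [map_sum]
    exact Finset.sum_congr rfl fun l' _ => map_mul _ _ _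
  rw [e, e, Finset.mul_sum]
  refine Finset.sum_congr rfl fun l' _ => ?_
  rw [h]
  ring

theorem li_smul_iff {ι W : Type} [AddCommGroup W] [Module F W] {f g : ι → W} {c : F} (hc : c ≠ 0)
    (h : ∀ i, g i = c • f i) : LinearIndependent F g ↔ LinearIndependent F f := by
  have e : g = fun i => (Units.mk0 c hc) • f i := by
    funext i
    rw [h i]
    rfl
  rw [e]
  exact LinearIndependent.units_smul_iff (v := f) (w := fun _ => Units.mk0 c hc)

theorem rk_smul {p N : ℕ} {M M' : Fin k → Fin p → Fin N → 𝓞 F} {c : F} (hc : c ≠ 0)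
    (h : ∀ i l l', (M' i l l' : F) = c * (M i l l' : F)) (b : Fin N → 𝓞 F) :
    rk (dv M' b) = rk (dv M b) := by
  unfold rk
  have e : Submodule.span F (Set.range fun i => co (dv M' b i)) =
      Submodule.span F (Set.range fun i => co (dv M b i)) := by
    apply le_antisymm
    · rw [Submodule.span_le]
      rintro _ ⟨i, rfl⟩
      show co (dv M' b i) ∈ Submodule.span F (Set.range fun i => co (dv M b i))
      rw [co_dv_smul h b i]
      exact Submodule.smul_mem _ _ (Submodule.subset_span ⟨i, rfl⟩)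
    · rw [Submodule.span_le]
      rintro _ ⟨i, rfl⟩
      have h1 : co (dv M b i) = c⁻¹ • co (dv M' b i) := by
        rw [co_dv_smul h b i, smul_smul, inv_mul_cancel₀ hc, one_smul]
      show co (dv M b i) ∈ Submodule.span F (Set.range fun i => co (dv M' b i))
      rw [h1]
      exact Submodule.smul_mem _ _ (Submodule.subset_span ⟨i, rfl⟩)
  rw [e]

theorem Gv_smul {p N : ℕ} {M M' : Fin k → Fin p → Fin N → 𝓞 F} {c : F} (hc : c ≠ 0)
    (h : ∀ i l l', (M' i l l' : F) = c * (M i l l' : F)) (b : Fin N → 𝓞 F) :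
    Gv M' b ↔ Gv M b := li_smul_iff hc fun i => co_dv_smul h b i

theorem Se_smul {p N : ℕ} (lam : ℝ) (M : Fin k → Fin p → Fin N → EE F) (s : Fin k → EE F)
    (z : Fin N → EE F) : Se (fun i l l' => lam • M i l l') s z = lam • Se M s z := by
  funext j
  show ∑ i, s i * ∑ l, (lam • M i j l) * z l = lam • ∑ i, s i * ∑ l, M i j l * z l
  rw [Finset.smul_sum]
  refine Finset.sum_congr rfl fun i _ => ?_
  rw [← mul_smul_comm, Finset.smul_sum]
  congr 1
  exact Finset.sum_congr rfl fun l _ => smul_mul_assoc _ _ _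

theorem ev_cont : Continuous fun q : Ten n (EE F) × Tup n (EE F) => ev q.1 q.2 := by
  unfold ev
  refine continuous_finsetSum _ fun j _ => Continuous.mul ?_ ?_
  · exact (continuous_apply j).comp continuous_fst
  · refine continuous_finsetProd _ fun v _ => ?_
    exact (continuous_apply (j v)).comp ((continuous_apply v).comp continuous_snd)

theorem mt_cont (T : Fin k → Ten n (EE F)) (u v : V) : Continuous fun x : Tup n (EE F) =>
    mt T u v x := by
  unfold mt
  refine continuous_pi fun i => continuous_pi fun l => continuous_pi fun l' => ?_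
  exact ev_cont.comp (continuous_const.prodMk
    ((continuous_id.update v continuous_const).update u continuous_const))

/-- **The bound for the bad families from a rank condition on a compact set.** -/
theorem bb_of (T : Fin k → Ten n (𝓞 F)) (R : ℕ) {u v : V} (huv : u ≠ v) (hRn : R ≤ n v)
    {K : Set (Tup n (EE F))} (hK : IsCompact K) (hR : ∀ x ∈ K, RCe (mt (te T) u v x) R)
    (hred : ∀ y : Tup n (𝓞 F), (∃ w, Gd T v (update y u w)) → ∃ (y' : Tup n (𝓞 F)) (c : F)
      (lam : ℝ) (x : Tup n (EE F)), c ≠ 0 ∧ 0 < lam ∧ x ∈ K ∧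
      (∀ i l l', ((mt T u v y' i l l' : 𝓞 F) : F) = c * ((mt T u v y i l l' : 𝓞 F) : F)) ∧
      ∀ i l l', mixedEmbedding F ((mt T u v y' i l l' : 𝓞 F) : F) = lam • mt (te T) u v x i l l') :
    ∃ C : ℝ, 1 ≤ C ∧
    ∀ y : Tup n (𝓞 F), (∃ w, Gd T v (update y u w)) → ∀ μ : ℝ, 1 ≤ μ →
    ∀ Z : Finset (Fin (n v) → 𝓞 F), (∀ b ∈ Z, ‖io b‖ ≤ μ ∧ ¬ Gd T u (update y v b)) →
      ∑ b ∈ Z, μ ^ (finrank ℚ F * (k - rk (der T u (update y v b)))) ≤
        C * μ ^ (finrank ℚ F * (k + n v - R)) := by
  obtain ⟨c₀, hc₀, hrnk⟩ := rnkc hK (mt_cont (te T) u v) hR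
  -- the size of the matrices
  have hA : ∀ (i : Fin k) (l : Fin (n u)) (l' : Fin (n v)), ∃ A : ℝ, ∀ x ∈ K,
      ‖mt (te T) u v x i l l'‖ ≤ A := by
    intro i l l'
    have hc : Continuous fun x : Tup n (EE F) => mt (te T) u v x i l l' :=
      (continuous_apply l').comp ((continuous_apply l).comp
        ((continuous_apply i).comp (mt_cont (te T) u v)))
    exact hK.exists_bound_of_continuousOn hc.continuousOn
  choose A hA using hA
  set A' : ℝ := ∑ i, ∑ l, ∑ l', |A i l l'| with hA'
  have hA'0 : 0 ≤ A' := Finset.sum_nonneg fun i _ => Finset.sum_nonneg fun l _ =>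
    Finset.sum_nonneg fun l' _ => abs_nonneg _
  have hAA : ∀ i l l', A i l l' ≤ A' := by
    intro i l l'
    calc A i l l' ≤ |A i l l'| := le_abs_self _
      _ ≤ ∑ l', |A i l l'| := Finset.single_le_sum (f := fun l' => |A i l l'|)
          (fun _ _ => abs_nonneg _) (Finset.mem_univ l')
      _ ≤ ∑ l, ∑ l', |A i l l'| := Finset.single_le_sum (f := fun l => ∑ l', |A i l l'|)
          (fun _ _ => Finset.sum_nonneg fun _ _ => abs_nonneg _) (Finset.mem_univ l)
      _ ≤ A' := Finset.single_le_sum (f := fun i => ∑ l, ∑ l', |A i l l'|)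
          (fun _ _ => Finset.sum_nonneg fun _ _ => Finset.sum_nonneg fun _ _ => abs_nonneg _)
          (Finset.mem_univ i)
  obtain ⟨C, hC1, hC⟩ := badc F k (n u) (n v) R hRn c₀ (k * n v * A') hc₀ (by positivity)
  refine ⟨C, hC1, fun y hy μ hμ Z hZ => ?_⟩
  obtain ⟨y', c, lam, x, hc, hlam, hx, h1, h2⟩ := hred y hy
  have hder : ∀ (y : Tup n (𝓞 F)) (b : Fin (n v) → 𝓞 F),
      der T u (update y v b) = dv (mt T u v y) b := by
    intro y b
    funext i l
    exact der_mt T huv y b i l
  have hme : me (mt T u v y') = fun i l l' => lam • mt (te T) u v x i l l' := by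
    funext i l l'
    exact h2 i l l'
  have h3 := hC (mt T u v y') lam hlam (by
    intro s z
    rw [hme, Se_smul, norm_smul, Real.norm_eq_abs, abs_of_pos hlam]
    refine mul_le_mul_of_nonneg_left ?_ hlam.le
    exact Se_le _ A' hA'0 (fun i l l' => (hA i l l' x hx).trans (hAA i l l')) s z) (by
    intro s hs1 hs2
    obtain ⟨P, hP1, hP2⟩ := hrnk x hx s hs1 hs2
    refine ⟨P, hP1, fun q hq => ?_⟩
    rw [hme, Se_smul, norm_smul, Real.norm_eq_abs, abs_of_pos hlam]
    exact mul_le_mul_of_nonneg_left (hP2 q hq) hlam.le) μ hμ Z (by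
    intro b hb
    obtain ⟨h4, h5⟩ := hZ b hb
    refine ⟨h4, ?_⟩
    rw [Gv_smul hc h1 b]
    unfold Gv
    rw [← hder]
    exact h5)
  refine le_trans (le_of_eq ?_) h3
  refine Finset.sum_congr rfl fun b _ => ?_
  rw [hder, rk_smul hc h1 b]

/-! ### Places -/

/-- The component at a real place. -/
noncomputable def pr (w : {w : InfinitePlace F // w.IsReal}) : EE F →+* ℂ :=
  (algebraMap ℝ ℂ).comp ((Pi.evalRingHom _ w).comp (RingHom.fst _ _))

/-- The component at a complex place. -/
noncomputable def pc (w : {w : InfinitePlace F // w.IsComplex}) : EE F →+* ℂ :=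
  (Pi.evalRingHom _ w).comp (RingHom.snd _ _)

theorem pr_apply (w : {w : InfinitePlace F // w.IsReal}) (x : EE F) :
    pr w x = ((x.1 w : ℝ) : ℂ) := rfl

theorem pc_apply (w : {w : InfinitePlace F // w.IsComplex}) (x : EE F) : pc w x = x.2 w := rfl

theorem pr_emb (w : {w : InfinitePlace F // w.IsReal}) (x : F) :
    pr w (mixedEmbedding F x) = w.1.embedding x := by
  rw [pr_apply, mixedEmbedding.mixedEmbedding_apply_isReal, InfinitePlace.embedding_of_isReal_apply]

theorem pc_emb (w : {w : InfinitePlace F // w.IsComplex}) (x : F) :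
    pc w (mixedEmbedding F x) = w.1.embedding x := rfl

/-- The rank condition at a family of complex vectors. -/
def RkAt (T : Fin k → Ten n ℂ) (u v : V) (R : ℕ) (x : Tup n ℂ) : Prop :=
  ∀ s : Fin k → ℂ, s ≠ 0 →
    R ≤ (∑ i, s i • Matrix.of fun (l : Fin (n u)) (l' : Fin (n v)) => mt T u v x i l l').rank

/-- The coefficients under an embedding. -/
def ts (T : Fin k → Ten n (𝓞 F)) (σ : F →+* ℂ) : Fin k → Ten n ℂ := fun i j => σ (T i j : F)

theorem RCe_of (T : Fin k → Ten n (𝓞 F)) (u v : V) (R : ℕ) (x : Tup n (EE F))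
    (h1 : ∀ w, RkAt (ts T w.1.embedding) u v R (fun t m => pr w (x t m)))
    (h2 : ∀ w, RkAt (ts T w.1.embedding) u v R (fun t m => pc w (x t m))) :
    RCe (mt (te T) u v x) R := by
  constructor
  · intro w l hl
    have h3 := h1 w l hl
    have e : ∀ i l₁ l₂, mt (ts T w.1.embedding) u v (fun t m => pr w (x t m)) i l₁ l₂ =
        pr w (mt (te T) u v x i l₁ l₂) := by
      intro i l₁ l₂
      rw [← mt_map]
      congr 1
      funext i j
      exact (pr_emb w _).symm
    simp only [e] at h3
    exact h3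
  · intro w l hl
    have h3 := h2 w l hl
    have e : ∀ i l₁ l₂, mt (ts T w.1.embedding) u v (fun t m => pc w (x t m)) i l₁ l₂ =
        pc w (mt (te T) u v x i l₁ l₂) := by
      intro i l₁ l₂
      rw [← mt_map]
      congr 1
    simp only [e] at h3
    exact h3

end Pool.Agent.L5helper6.BF
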