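import Pool.Agent.N852.GR.Cnt
import Pool.Agent.N852.GR.Lat

/-!
Integral vectors over a number field with small image under a real linear map into any normed
space (after `Pool.Agent.N852.GR.cntP`, where the target is the same space).
-/

namespace Pool.Agent.L5helper6.BF

open scoped Classical
open NumberField Module Matrix
open Pool.Agent.N852.GR Pool.Agent.N852.GR.CntAux

/-- Integral vectors with small image under a real linear map. -/
theorem cntv (F : Type) [Field F] [NumberField F] (n r : ℕ) (c K : ℝ) (hc : 0 < c) (hK : 0 ≤ K) :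
    ∃ C : ℝ, 1 ≤ C ∧ ∀ (W : Type) [NormedAddCommGroup W] [NormedSpace ℝ W]
      (B : (Fin n → EE F) →ₗ[ℝ] W) (P : Submodule ℝ (Fin n → EE F)),
      finrank ℝ P = r → (∀ z, ‖B z‖ ≤ K * ‖z‖) → (∀ p ∈ P, c * ‖p‖ ≤ ‖B p‖) →
      ∀ μ : ℝ, 1 ≤ μ → ({x : Fin n → 𝓞 F | ‖io x‖ ≤ μ ∧ ‖B (io x)‖ ≤ K}.ncard : ℝ) ≤
        C * μ ^ (finrank ℚ F * n - r) := by
  obtain ⟨-, hfin, -⟩ := latP F n
  set r0 : ℝ := 3 * K / c + 1 with hr0
  set M : ℕ := {x : Fin n → 𝓞 F | ‖io x‖ ≤ r0}.ncard with hM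
  refine ⟨3 ^ (finrank ℚ F * n) * (M + 1), ?_, ?_⟩
  · have h1 : (1 : ℝ) ≤ 3 ^ (finrank ℚ F * n) := one_le_pow₀ (by norm_num)
    have h2 : (0 : ℝ) ≤ M := Nat.cast_nonneg _
    nlinarith
  intro W _ _ B P hP hB hBP μ hμ
  have hYfin : {x : Fin n → 𝓞 F | ‖io x‖ ≤ μ ∧ ‖B (io x)‖ ≤ K}.Finite :=
    (hfin μ).subset fun x hx => hx.1
  set Z : Finset (Fin n → 𝓞 F) := hYfin.toFinset with hZ
  have hZc : {x : Fin n → 𝓞 F | ‖io x‖ ≤ μ ∧ ‖B (io x)‖ ≤ K}.ncard = Z.card :=
    Set.ncard_eq_toFinset_card _ hYfin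
  rw [hZc]
  have hZm : ∀ x ∈ Z, ‖io x‖ ≤ μ ∧ ‖B (io x)‖ ≤ K := fun x hx => by
    rw [hZ, Set.Finite.mem_toFinset] at hx
    exact hx
  have hcl : IsClosed (P : Set (Fin n → EE F)) := P.closed_of_finiteDimensional
  have hfr : finrank ℝ (Fin n → EE F) = finrank ℚ F * n := by
    rw [Module.finrank_pi_fintype, Finset.sum_const, Finset.card_univ, Fintype.card_fin,
      mixedEmbedding.finrank, smul_eq_mul, mul_comm]
  have hfinq : finrank ℝ ((Fin n → EE F) ⧸ P) = finrank ℚ F * n - r := by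
    have h1 := Submodule.finrank_quotient_add_finrank P
    rw [hfr] at h1
    omega
  -- the maximal separated subset
  have hsym : ∀ a b : Fin n → 𝓞 F,
      ‖(Submodule.Quotient.mk (io a - io b) : (Fin n → EE F) ⧸ P)‖ =
        ‖(Submodule.Quotient.mk (io b - io a) : (Fin n → EE F) ⧸ P)‖ := by
    intro a b
    have : (Submodule.Quotient.mk (io a - io b) : (Fin n → EE F) ⧸ P) =
        - Submodule.Quotient.mk (io b - io a) := by
      rw [← Submodule.Quotient.mk_neg, neg_sub]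
    rw [this, norm_neg]
  obtain ⟨Z1, hZ1, hsep, hcov⟩ := max_sep (fun a b : Fin n → 𝓞 F =>
    ‖(Submodule.Quotient.mk (io a - io b) : (Fin n → EE F) ⧸ P)‖ < 1) (fun a => by
      simp) (fun a b h => by rw [hsym]; exact h) Z
  -- the number of elements of `Z1`
  have hcard1 : (Z1.card : ℝ) ≤ 3 ^ (finrank ℚ F * n) * μ ^ (finrank ℚ F * n - r) := by
    set S' : Finset ((Fin n → EE F) ⧸ P) := Z1.image fun z => Submodule.Quotient.mk (io z) with hS'
    have hinj : S'.card = Z1.card := by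
      apply Finset.card_image_of_injOn
      intro x hx y hy hxy
      by_contra hne
      have h1 := hsep x hx y hy hne
      apply h1
      simp only at hxy
      rw [Submodule.Quotient.mk_sub, hxy, sub_self, norm_zero]
      exact one_pos
    have h1 := sep_card S' μ 1 one_pos (by linarith) (by
      intro x hx
      rw [hS', Finset.mem_image] at hx
      obtain ⟨z, hz, rfl⟩ := hx
      exact (Submodule.Quotient.norm_mk_le P _).trans (hZm z (hZ1 hz)).1) (by
      intro x hx y hy hxy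
      rw [hS', Finset.mem_image] at hx hy
      obtain ⟨z, hz, rfl⟩ := hx
      obtain ⟨z', hz', rfl⟩ := hy
      rw [← Submodule.Quotient.mk_sub]
      refine not_lt.1 (hsep z hz z' hz' ?_)
      rintro rfl
      exact hxy rfl)
    rw [hinj, hfinq] at h1
    have h2 : 2 * μ / 1 + 1 ≤ 3 * μ := by linarith
    calc (Z1.card : ℝ) ≤ (2 * μ / 1 + 1) ^ (finrank ℚ F * n - r) := h1
      _ ≤ (3 * μ) ^ (finrank ℚ F * n - r) := pow_le_pow_left₀ (by positivity) h2 _
      _ = 3 ^ (finrank ℚ F * n - r) * μ ^ (finrank ℚ F * n - r) := mul_pow _ _ _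
      _ ≤ 3 ^ (finrank ℚ F * n) * μ ^ (finrank ℚ F * n - r) := by
          gcongr
          · norm_num
          · omega
  -- the number of elements near an element of `Z1`
  have hcard2 : ∀ z1 ∈ Z1, ((Z.filter fun z =>
      ‖(Submodule.Quotient.mk (io z - io z1) : (Fin n → EE F) ⧸ P)‖ < 1).card : ℝ) ≤ M := by
    intro z1 hz1
    have hM' : M = (hfin r0).toFinset.card := Set.ncard_eq_toFinset_card _ (hfin r0)
    rw [hM']
    norm_cast
    apply Finset.card_le_card_of_injOn (fun z => z - z1)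
    · intro z hz
      rw [Finset.mem_coe, Finset.mem_filter] at hz
      rw [Finset.mem_coe, Set.Finite.mem_toFinset, Set.mem_ofPred_eq, io_sub]
      obtain ⟨m, hm1, hm2⟩ := Submodule.Quotient.norm_mk_lt
        (Submodule.Quotient.mk (io z - io z1) : (Fin n → EE F) ⧸ P)
        (ε := 1 - ‖(Submodule.Quotient.mk (io z - io z1) : (Fin n → EE F) ⧸ P)‖) (by linarith [hz.2])
      have hm3 : ‖m‖ < 1 := by linarith
      rw [Submodule.Quotient.eq] at hm1
      have hp : (io z - io z1) - m ∈ P := by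
        have := P.neg_mem hm1
        rwa [neg_sub] at this
      set v := io z - io z1 with hv
      have h1 : ‖B (v - m)‖ ≤ 3 * K := by
        have e : B (v - m) = (B (io z) - B (io z1)) - B m := by
          rw [hv, map_sub, map_sub]
        rw [e]
        refine (norm_sub_le _ _).trans ?_
        have h3 := hB m
        have h4 : K * ‖m‖ ≤ K * 1 := mul_le_mul_of_nonneg_left hm3.le hK
        have h5 := norm_sub_le (B (io z)) (B (io z1))
        have h6 := (hZm z hz.1).2
        have h7 := (hZm z1 (hZ1 hz1)).2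
        linarith
      have h4 : ‖v - m‖ ≤ 3 * K / c := by
        rw [le_div_iff₀ hc]
        have := hBP _ hp
        linarith
      calc ‖v‖ = ‖(v - m) + m‖ := by rw [sub_add_cancel]
        _ ≤ ‖v - m‖ + ‖m‖ := norm_add_le _ _
        _ ≤ r0 := by rw [hr0]; linarith
    · intro z _ z' _ h
      exact sub_left_injective h
  -- conclusion
  have hsub : Z ⊆ Z1.biUnion fun z1 => Z.filter fun z =>
      ‖(Submodule.Quotient.mk (io z - io z1) : (Fin n → EE F) ⧸ P)‖ < 1 := by
    intro z hz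
    obtain ⟨z1, h1, h2⟩ := hcov z hz
    rw [Finset.mem_biUnion]
    exact ⟨z1, h1, Finset.mem_filter.2 ⟨hz, h2⟩⟩
  have h1 : (Z.card : ℝ) ≤ ∑ z1 ∈ Z1, ((Z.filter fun z =>
      ‖(Submodule.Quotient.mk (io z - io z1) : (Fin n → EE F) ⧸ P)‖ < 1).card : ℝ) := by
    exact_mod_cast (Finset.card_le_card hsub).trans Finset.card_biUnion_le
  calc (Z.card : ℝ) ≤ _ := h1
    _ ≤ ∑ z1 ∈ Z1, (M : ℝ) := Finset.sum_le_sum hcard2
    _ = Z1.card * M := by rw [Finset.sum_const, nsmul_eq_mul]
    _ ≤ 3 ^ (finrank ℚ F * n) * μ ^ (finrank ℚ F * n - r) * M :=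
        mul_le_mul_of_nonneg_right hcard1 (by positivity)
    _ ≤ 3 ^ (finrank ℚ F * n) * μ ^ (finrank ℚ F * n - r) * (M + 1) := by
        gcongr
        linarith
    _ = _ := by ring

end Pool.Agent.L5helper6.BF
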