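import Pool.Agent.L5helper6.BF.Rnk
import Pool.Agent.L5helper6.BF.Cnt
import Pool.Agent.N852.GR.Trk
import Pool.Agent.N852.GR.Dim
import Pool.Agent.N852.GR.Cel
import Pool.Agent.N713.GR.Bad

/-!
The weighted sum over the bad vectors, for rectangular matrices, with uniform constants
(after `Pool.Agent.N713.GR.Bad`).
-/

namespace Pool.Agent.L5helper6.BF

open scoped Classical
open NumberField Module Matrix Finset
open Pool.Agent.N852.GR
open Pool.Agent.N713.GR (nap_le nap_ge fin_io fr_E)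

variable {F : Type} [Field F] [NumberField F] {p n k : ℕ}

/-- The vectors `M_i b`. -/
def dv (M : Fin k → Fin p → Fin n → 𝓞 F) (b : Fin n → 𝓞 F) : Fin k → Fin p → 𝓞 F :=
  fun i j => ∑ l, M i j l * b l

/-- `b` is good: the vectors `M_i b` are linearly independent. -/
def Gv (M : Fin k → Fin p → Fin n → 𝓞 F) (b : Fin n → 𝓞 F) : Prop :=
  LinearIndependent F fun i => co (dv M b i)

/-- The matrices over `F ⊗ ℝ`. -/
noncomputable def me (M : Fin k → Fin p → Fin n → 𝓞 F) : Fin k → Fin p → Fin n → EE F :=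
  fun i j l => mixedEmbedding F (M i j l : F)

/-- The real relations between the vectors `M_i b`. -/
noncomputable def Rv (M : Fin k → Fin p → Fin n → 𝓞 F) (b : Fin n → 𝓞 F) :
    Submodule ℝ (Fin k → EE F) :=
  WW fun (j : Fin p) (i : Fin k) => dv M b i j

omit [NumberField F] in
theorem Se_sub (M : Fin k → Fin p → Fin n → EE F) (s t : Fin k → EE F)
    (z : Fin n → EE F) : Se M (s - t) z = Se M s z - Se M t z := by
  funext j
  have h0 : ∀ s : Fin k → EE F, (Se M s z) j = ∑ i, s i * ∑ l, M i j l * z l := fun _ => rfl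
  rw [Pi.sub_apply, h0, h0, h0, ← sum_sub_distrib]
  refine sum_congr rfl fun i _ => ?_
  rw [Pi.sub_apply, sub_mul]

omit [NumberField F] in
theorem Se_zero (M : Fin k → Fin p → Fin n → 𝓞 F) (b : Fin n → 𝓞 F)
    (s : Fin k → EE F) (hs : s ∈ Rv M b) : Se (me M) s (io b) = 0 := by
  funext j
  have h0 : (Se (me M) s (io b)) j =
    ∑ i, s i * ∑ l, mixedEmbedding F (M i j l : F) * io b l := rfl
  have h1 : ∑ i, s i * mixedEmbedding F (dv M b i j : F) = 0 := hs j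
  rw [h0, Pi.zero_apply, ← h1]
  refine sum_congr rfl fun i _ => ?_
  congr 1
  have h2 : (dv M b i j : F) = ∑ l, (M i j l : F) * (b l : F) := by
    have h4 : ∀ f : Fin n → 𝓞 F, algebraMap (𝓞 F) F (∑ l, f l * b l) =
        ∑ l, algebraMap (𝓞 F) F (f l) * algebraMap (𝓞 F) F (b l) := by
      intro f
      rw [map_sum]
      exact sum_congr rfl fun l _ => map_mul _ _ _
    exact h4 (M i j)
  rw [h2, map_sum]
  exact sum_congr rfl fun l _ => (map_mul _ _ _).symm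

theorem Se_le (M : Fin k → Fin p → Fin n → EE F) (A : ℝ) (hA0 : 0 ≤ A) (hA : ∀ i j l, ‖M i j l‖ ≤ A)
    (s : Fin k → EE F) (z : Fin n → EE F) : ‖Se M s z‖ ≤ k * n * A * ‖s‖ * ‖z‖ := by
  rw [pi_norm_le_iff_of_nonneg (by positivity)]
  intro j
  have h0 : (Se M s z) j = ∑ i, s i * ∑ l, M i j l * z l := rfl
  rw [h0]
  calc ‖∑ i, s i * ∑ l, M i j l * z l‖
      ≤ ∑ i : Fin k, ‖s i * ∑ l, M i j l * z l‖ := norm_sum_le _ _
    _ ≤ ∑ i : Fin k, ‖s‖ * ∑ l : Fin n, A * ‖z‖ := by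
        refine sum_le_sum fun i _ => ?_
        refine (norm_mul_le _ _).trans ?_
        refine mul_le_mul (norm_le_pi_norm s i) ?_ (norm_nonneg _) (norm_nonneg _)
        refine (norm_sum_le _ _).trans (sum_le_sum fun l _ => ?_)
        refine (norm_mul_le _ _).trans ?_
        exact mul_le_mul (hA i j l) (norm_le_pi_norm z l) (norm_nonneg _) hA0
    _ = k * n * A * ‖s‖ * ‖z‖ := by
        simp only [sum_const, card_univ, Fintype.card_fin, nsmul_eq_mul]
        ring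

/-- A relation of norm 3 at every place. -/
theorem pbv (M : Fin k → Fin p → Fin n → 𝓞 F) (b : Fin n → 𝓞 F) (hb : ¬ Gv M b) :
    ∃ q ∈ Rv M b, ‖q‖ ≤ 3 ∧ ∀ w : InfinitePlace F, ∃ i, mixedEmbedding.normAtPlace w (q i) = 3 := by
  unfold Gv at hb
  rw [Fintype.linearIndependent_iff] at hb
  push Not at hb
  obtain ⟨l, hl, i₀, hi₀⟩ := hb
  have hm : ∀ w : InfinitePlace F, ∃ i, (∀ j, w (l j) ≤ w (l i)) ∧ 0 < w (l i) := by
    intro w
    obtain ⟨i, -, hi⟩ := Finset.exists_max_image Finset.univ (fun j => w (l j))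
      ⟨i₀, Finset.mem_univ _⟩
    refine ⟨i, fun j => hi j (Finset.mem_univ _),
      lt_of_lt_of_le ?_ (hi i₀ (Finset.mem_univ _))⟩
    exact InfinitePlace.pos_iff.mpr hi₀
  choose f hf1 hf2 using hm
  obtain ⟨e, he⟩ : ∃ e : EE F, ∀ w : InfinitePlace F,
      mixedEmbedding.normAtPlace w e = 3 / w (l (f w)) := by
    refine ⟨(fun w => 3 / w.1 (l (f w.1)), fun w => ((3 / w.1 (l (f w.1)) : ℝ) : ℂ)), ?_⟩
    intro w
    have hpos : 0 ≤ 3 / w (l (f w)) := by
      have := hf2 w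
      positivity
    rcases w.isReal_or_isComplex with h | h
    · rw [mixedEmbedding.normAtPlace_apply_of_isReal h]
      simp only [Real.norm_eq_abs]
      exact abs_of_nonneg hpos
    · rw [mixedEmbedding.normAtPlace_apply_of_isComplex h]
      simp only [Complex.norm_real, Real.norm_eq_abs]
      exact abs_of_nonneg hpos
  have hnorm : ∀ (w : InfinitePlace F) (i : Fin k),
      mixedEmbedding.normAtPlace w (e * mixedEmbedding F (l i)) = 3 / w (l (f w)) * w (l i) := by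
    intro w i
    rw [map_mul, he, mixedEmbedding.normAtPlace_apply]
  refine ⟨fun i => e * mixedEmbedding F (l i), ?_, ?_, ?_⟩
  · show ∀ j : Fin p, ∑ i, (e * mixedEmbedding F (l i)) * mixedEmbedding F (dv M b i j : F) = 0
    intro j
    have h1 : ∀ i, (e * mixedEmbedding F (l i)) * mixedEmbedding F (dv M b i j : F) =
        e * mixedEmbedding F (l i * (dv M b i j : F)) := by
      intro i
      rw [map_mul, mul_assoc]
    rw [Finset.sum_congr rfl (fun i _ => h1 i), ← Finset.mul_sum, ← map_sum]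
    have h2 : ∑ i, l i * (dv M b i j : F) = 0 := by
      have h3 := congrFun hl j
      simpa [Finset.sum_apply, co] using h3
    rw [h2, map_zero, mul_zero]
  · rw [pi_norm_le_iff_of_nonneg (by norm_num)]
    intro i
    rw [mixedEmbedding.norm_eq_sup'_normAtPlace]
    apply Finset.sup'_le
    intro w _
    rw [hnorm]
    have h1 := hf1 w i
    have h2 := hf2 w
    rw [div_mul_eq_mul_div, div_le_iff₀ h2]
    linarith
  · intro w
    refine ⟨f w, ?_⟩
    rw [hnorm]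
    have h2 := (hf2 w).ne'
    field_simp

/-- The weighted sum over the bad vectors, uniform in the matrices. -/
theorem badc (F : Type) [Field F] [NumberField F] (k p n R : ℕ) (hRn : R ≤ n) (c K : ℝ)
    (hc : 0 < c) (hK : 0 ≤ K) : ∃ C : ℝ, 1 ≤ C ∧
    ∀ (M : Fin k → Fin p → Fin n → 𝓞 F) (lam : ℝ), 0 < lam →
      (∀ s z, ‖Se (me M) s z‖ ≤ lam * (K * ‖s‖ * ‖z‖)) →
      (∀ s : Fin k → EE F, ‖s‖ ≤ 5 →
        (∀ w : InfinitePlace F, ∃ i, 1 ≤ mixedEmbedding.normAtPlace w (s i)) →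
        ∃ P : Submodule ℝ (Fin n → EE F), finrank ℝ P = finrank ℚ F * R ∧
          ∀ q ∈ P, lam * (c * ‖q‖) ≤ ‖Se (me M) s q‖) →
      ∀ μ : ℝ, 1 ≤ μ → ∀ Z : Finset (Fin n → 𝓞 F), (∀ b ∈ Z, ‖io b‖ ≤ μ ∧ ¬ Gv M b) →
        ∑ b ∈ Z, μ ^ (finrank ℚ F * (k - rk (dv M b))) ≤ C * μ ^ (finrank ℚ F * (k + n - R)) := by
  obtain ⟨C₁, hC₁, hcel⟩ := celP (Fin k → EE F) 3
  obtain ⟨C₂, hC₂, hcnt⟩ := cntv F n (finrank ℚ F * R) c (5 * K) hc (by positivity)
  refine ⟨C₁ * C₂, one_le_mul_of_one_le_of_one_le hC₁ hC₂,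
    fun M lam hlam hAS hrnk μ hμ Z hZ => ?_⟩
  have hμ0 : (0 : ℝ) < μ := by linarith
  have hμ1 : 1 / μ ≤ 1 := by rw [div_le_one hμ0]; exact hμ
  have hp0 : ∀ b : Fin n → 𝓞 F, ¬ Gv M b → ∃ q ∈ Rv M b, ‖q‖ ≤ 3 ∧
      ∀ w : InfinitePlace F, ∃ i, mixedEmbedding.normAtPlace w (q i) = 3 :=
    fun b hb => pbv M b hb
  choose! q hpR hp3 hpw using hp0
  have hdim : ∀ b : Fin n → 𝓞 F, finrank ℝ (Rv M b) = finrank ℚ F * (k - rk (dv M b)) := by
    intro b
    rw [trkP F p k (dv M b)]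
    exact dimP F k (Fin p) _
  have hW : finrank ℝ (Fin k → EE F) = finrank ℚ F * k := by
    rw [finrank_pi_fintype, sum_const, card_univ, Fintype.card_fin, smul_eq_mul, fr_E, mul_comm]
  have hmain := hcel (Fin n → 𝓞 F) Z (fun b => Rv M b) q μ
    (C₂ * μ ^ (finrank ℚ F * n - finrank ℚ F * R)) hμ (by positivity)
    (fun b hb => ⟨hpR b (hZ b hb).2, hp3 b (hZ b hb).2⟩) ?_
  · calc ∑ b ∈ Z, μ ^ (finrank ℚ F * (k - rk (dv M b)))
        = ∑ b ∈ Z, μ ^ finrank ℝ (Rv M b) := sum_congr rfl fun b _ => by rw [hdim]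
      _ ≤ C₁ * μ ^ finrank ℝ (Fin k → EE F) *
          (C₂ * μ ^ (finrank ℚ F * n - finrank ℚ F * R)) := hmain
      _ = C₁ * C₂ * (μ ^ (finrank ℚ F * k) * μ ^ (finrank ℚ F * n - finrank ℚ F * R)) := by
          rw [hW]; ring
      _ = C₁ * C₂ * μ ^ (finrank ℚ F * (k + n - R)) := by
          rw [← pow_add]
          congr 2
          have h1 : finrank ℚ F * R ≤ finrank ℚ F * n := Nat.mul_le_mul_left _ hRn
          have h2 : k + n - R = k + (n - R) := by omega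
          rw [h2, mul_add, Nat.mul_sub]
  · intro s₀ Y hY
    rcases Y.eq_empty_or_nonempty with rfl | ⟨b₀, hb₀⟩
    · rw [card_empty, Nat.cast_zero]
      positivity
    obtain ⟨hb₀Z, s, hs, hs1, hs2⟩ := hY b₀ hb₀
    have hs2' : ‖s - s₀‖ ≤ 1 := hs2.trans hμ1
    have hb₀g := (hZ b₀ hb₀Z).2
    have h5 : ‖q b₀ - s₀‖ ≤ 2 := by
      have h6 : q b₀ - s₀ = (s - s₀) - (s - q b₀) := by abel
      rw [h6]
      have := norm_sub_le (s - s₀) (s - q b₀)
      linarith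
    have hs₀5 : ‖s₀‖ ≤ 5 := by
      have h6 : s₀ = q b₀ - (q b₀ - s₀) := by abel
      rw [h6]
      have := norm_sub_le (q b₀) (q b₀ - s₀)
      have := hp3 b₀ hb₀g
      linarith
    have hs₀w : ∀ w : InfinitePlace F, ∃ i, 1 ≤ mixedEmbedding.normAtPlace w (s₀ i) := by
      intro w
      obtain ⟨i, hi⟩ := hpw b₀ hb₀g w
      refine ⟨i, ?_⟩
      have h7 := nap_ge w (q b₀ i) (s₀ i)
      have h8 : ‖q b₀ i - s₀ i‖ ≤ 2 := (norm_le_pi_norm (q b₀ - s₀) i).trans h5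
      linarith
    obtain ⟨P, hPd, hPc⟩ := hrnk s₀ hs₀5 hs₀w
    have hnsm : ∀ z, ‖(lam⁻¹ • Se (me M) s₀) z‖ = lam⁻¹ * ‖Se (me M) s₀ z‖ := by
      intro z
      rw [LinearMap.smul_apply, norm_smul, norm_inv, Real.norm_eq_abs, abs_of_pos hlam]
    have hB : ∀ z, ‖(lam⁻¹ • Se (me M) s₀) z‖ ≤ 5 * K * ‖z‖ := by
      intro z
      rw [hnsm, inv_mul_le_iff₀ hlam]
      refine (hAS s₀ z).trans (mul_le_mul_of_nonneg_left ?_ hlam.le)
      refine mul_le_mul_of_nonneg_right ?_ (norm_nonneg _)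
      nlinarith
    have hPc' : ∀ x ∈ P, c * ‖x‖ ≤ ‖(lam⁻¹ • Se (me M) s₀) x‖ := by
      intro x hx
      rw [hnsm, ← div_eq_inv_mul, le_div_iff₀ hlam, mul_comm]
      exact hPc x hx
    refine le_trans ?_ (hcnt (Fin p → EE F) (lam⁻¹ • Se (me M) s₀) P hPd hB hPc' μ hμ)
    rw [Nat.cast_le, ← Set.ncard_coe_finset]
    refine Set.ncard_le_ncard ?_ ((fin_io n μ).subset fun x hx => hx.1)
    intro b hb
    obtain ⟨hbZ, t, ht, -, ht2⟩ := hY b (mem_coe.1 hb)
    have hbμ := (hZ b hbZ).1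
    refine ⟨hbμ, ?_⟩
    rw [hnsm, inv_mul_le_iff₀ hlam]
    have h9 : Se (me M) s₀ (io b) = Se (me M) (s₀ - t) (io b) := by
      rw [Se_sub, Se_zero M b t ht, sub_zero]
    rw [h9]
    refine (hAS (s₀ - t) (io b)).trans (mul_le_mul_of_nonneg_left ?_ hlam.le)
    have h10 : ‖s₀ - t‖ ≤ 1 / μ := by rw [norm_sub_rev]; exact ht2
    calc K * ‖s₀ - t‖ * ‖io b‖ ≤ K * (1 / μ) * μ := by gcongr
      _ = K := by field_simp
      _ ≤ 5 * K := by linarith

end Pool.Agent.L5helper6.BF
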