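import Mathlib
import Pool.Agent.L5helper6.BF.Bad

/-!
Systems of forms which are linear in each of several vectors: definitions and formal properties.
-/

namespace Pool.Agent.L5helper6.BF

open scoped Classical
open NumberField Module Function

variable {V : Type} [Fintype V] [DecidableEq V] {n : V → ℕ} {k : ℕ}

/-- Families of vectors. -/
abbrev Tup (n : V → ℕ) (R : Type*) : Type _ := ∀ v, Fin (n v) → R

/-- Arrays of coefficients. -/
abbrev Ten (n : V → ℕ) (R : Type*) : Type _ := (∀ v, Fin (n v)) → R

/-- The value of the form with the coefficients `t`, linear in each of the vectors `x v`. -/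
noncomputable def ev {R : Type*} [CommRing R] (t : Ten n R) (x : Tup n R) : R :=
  ∑ j, t j * ∏ v, x v (j v)

/-- The coefficients of the forms as linear forms in `x v`. -/
noncomputable def der {R : Type*} [CommRing R] (T : Fin k → Ten n R) (v : V) (x : Tup n R) :
    Fin k → Fin (n v) → R := fun i l => ev (T i) (update x v (Pi.single l 1))

/-- The coefficients of the forms as bilinear forms in `x u`, `x v`. -/
noncomputable def mt {R : Type*} [CommRing R] (T : Fin k → Ten n R) (u v : V) (x : Tup n R) :
    Fin k → Fin (n u) → Fin (n v) → R :=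
  fun i l l' => ev (T i) (update (update x v (Pi.single l' 1)) u (Pi.single l 1))

variable {R : Type*} [CommRing R]

theorem ev_update (t : Ten n R) (v : V) (x : Tup n R) (z : Fin (n v) → R) :
    ev t (update x v z) = ∑ l, ev t (update x v (Pi.single l 1)) * z l := by
  have key : ∀ w : Fin (n v) → R, ev t (update x v w) = ∑ j : (∀ u, Fin (n u)),
      t j * (w (j v) * ∏ u ∈ (Finset.univ : Finset V).erase v, x u (j u)) := by
    intro w
    unfold ev
    refine Finset.sum_congr rfl fun j _ => ?_
    rw [← Finset.mul_prod_erase Finset.univ _ (Finset.mem_univ v), update_self]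
    congr 2
    refine Finset.prod_congr rfl fun u hu => ?_
    rw [update_of_ne (Finset.ne_of_mem_erase hu)]
  rw [key z]
  simp only [key, Finset.sum_mul]
  rw [Finset.sum_comm]
  refine Finset.sum_congr rfl fun j _ => ?_
  rw [Finset.sum_eq_single (j v)]
  · rw [Pi.single_eq_same]
    ring
  · intro l _ hl
    rw [Pi.single_eq_of_ne (Ne.symm hl)]
    ring
  · intro h
    exact absurd (Finset.mem_univ _) h

theorem ev_eq (t : Ten n R) (v : V) (x : Tup n R) :
    ev t x = ∑ l, ev t (update x v (Pi.single l 1)) * x v l := by
  conv_lhs => rw [← update_eq_self v x]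
  exact ev_update t v x (x v)

theorem der_update (T : Fin k → Ten n R) (v : V) (x : Tup n R) (z : Fin (n v) → R) :
    der T v (update x v z) = der T v x := by
  funext i l
  unfold der
  rw [update_idem]

theorem mt_update_left (T : Fin k → Ten n R) (u v : V) (x : Tup n R) (z : Fin (n u) → R)
    (huv : u ≠ v) : mt T u v (update x u z) = mt T u v x := by
  funext i l l'
  unfold mt
  rw [update_comm huv, update_idem]

theorem mt_update_right (T : Fin k → Ten n R) (u v : V) (x : Tup n R) (z : Fin (n v) → R) :
    mt T u v (update x v z) = mt T u v x := by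
  funext i l l'
  unfold mt
  rw [update_idem]

theorem der_mt (T : Fin k → Ten n R) {u v : V} (huv : u ≠ v) (x : Tup n R) (z : Fin (n v) → R)
    (i : Fin k) (l : Fin (n u)) : der T u (update x v z) i l = ∑ l', mt T u v x i l l' * z l' := by
  unfold der mt
  rw [update_comm huv.symm, ev_update]
  refine Finset.sum_congr rfl fun l' _ => ?_
  rw [update_comm huv]

theorem ev_smul (t : Ten n R) (c : V → R) (x : Tup n R) :
    ev t (fun v => c v • x v) = (∏ v, c v) * ev t x := by
  unfold ev
  rw [Finset.mul_sum]
  refine Finset.sum_congr rfl fun j _ => ?_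
  have h1 : ∏ v, (c v • x v) (j v) = (∏ v, c v) * ∏ v, x v (j v) := by
    rw [← Finset.prod_mul_distrib]
    rfl
  rw [h1]
  ring

theorem update_smul' (v : V) (c : V → R) (x : Tup n R) (z : Fin (n v) → R) :
    update (fun u => c u • x u) v z = fun u => (update c v 1 u) • (update x v z u) := by
  funext u
  by_cases hu : u = v
  · subst hu
    simp
  · rw [update_of_ne hu, update_of_ne hu, update_of_ne hu]

theorem der_smul (T : Fin k → Ten n R) (v : V) (c : V → R) (x : Tup n R) (i : Fin k)
    (l : Fin (n v)) :
    der T v (fun u => c u • x u) i l = (∏ u, update c v 1 u) * der T v x i l := by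
  unfold der
  rw [update_smul', ev_smul]

theorem mt_smul (T : Fin k → Ten n R) (u v : V) (c : V → R) (x : Tup n R) (i : Fin k)
    (l : Fin (n u)) (l' : Fin (n v)) : mt T u v (fun t => c t • x t) i l l' =
      (∏ t, update (update c v 1) u 1 t) * mt T u v x i l l' := by
  unfold mt
  rw [update_smul', update_smul', ev_smul]

/-! ### Change of rings -/

theorem map_update {S : Type*} [CommRing S] (f : R →+* S) (v : V) (x : Tup n R)
    (z : Fin (n v) → R) : (fun u l => f (update x v z u l)) =
      update (fun u l => f (x u l)) v (fun l => f (z l)) := by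
  funext u
  by_cases hu : u = v
  · subst hu
    rw [update_self, update_self]
  · rw [update_of_ne hu, update_of_ne hu]

theorem map_single {S : Type*} [CommRing S] (f : R →+* S) {N : ℕ} (l : Fin N) :
    (fun m => f ((Pi.single l 1 : Fin N → R) m)) = Pi.single l 1 := by
  funext m
  by_cases hm : m = l
  · subst hm
    simp
  · simp [hm]

theorem ev_map {S : Type*} [CommRing S] (f : R →+* S) (t : Ten n R) (x : Tup n R) :
    ev (fun j => f (t j)) (fun v l => f (x v l)) = f (ev t x) := by
  unfold ev
  rw [map_sum]
  refine Finset.sum_congr rfl fun j _ => ?_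
  rw [map_mul, map_prod]

theorem der_map {S : Type*} [CommRing S] (f : R →+* S) (T : Fin k → Ten n R) (v : V)
    (x : Tup n R) (i : Fin k) (l : Fin (n v)) :
    der (fun i j => f (T i j)) v (fun v l => f (x v l)) i l = f (der T v x i l) := by
  unfold der
  rw [← ev_map, map_update, map_single]

theorem mt_map {S : Type*} [CommRing S] (f : R →+* S) (T : Fin k → Ten n R) (u v : V)
    (x : Tup n R) (i : Fin k) (l : Fin (n u)) (l' : Fin (n v)) :
    mt (fun i j => f (T i j)) u v (fun v l => f (x v l)) i l l' = f (mt T u v x i l l') := by
  unfold mt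
  rw [← ev_map, map_update, map_update, map_single, map_single]

end Pool.Agent.L5helper6.BF
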