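import Mathlib

/-!
The iteration for counting functions of several scales (after `Pool.Agent.N852.MM.Up`).
-/

namespace Pool.Agent.L5helper6.BF

open scoped Classical
open Filter Topology Function

variable {V : Type} [Fintype V] [DecidableEq V]

/-- The norming factor. -/
noncomputable def Nm (a : V → ℕ) (X : V → ℝ) : ℝ := ∏ v, X v ^ a v

theorem Nm_pos {a : V → ℕ} {X : V → ℝ} (hX : ∀ v, 0 < X v) : 0 < Nm a X :=
  Finset.prod_pos fun v _ => pow_pos (hX v) _

theorem Nm_update (a : V → ℕ) (X : V → ℝ) (v : V) (ρ : ℝ) :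
    Nm a (update X v ρ) * X v ^ a v = Nm a X * ρ ^ a v := by
  unfold Nm
  rw [← Finset.mul_prod_erase Finset.univ _ (Finset.mem_univ v),
    ← Finset.mul_prod_erase Finset.univ (fun u => X u ^ a u) (Finset.mem_univ v), update_self]
  have h : ∏ u ∈ Finset.univ.erase v, update X v ρ u ^ a u = ∏ u ∈ Finset.univ.erase v, X u ^ a u :=
    Finset.prod_congr rfl fun u hu => by rw [update_of_ne (Finset.ne_of_mem_erase hu)]
  rw [h]
  ring

theorem pos_of_one {X : V → ℝ} (hX : ∀ v, 1 ≤ X v) (v : V) : 0 < X v := by linarith [hX v]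

theorem one_update {X : V → ℝ} (hX : ∀ v, 1 ≤ X v) (v : V) {ρ : ℝ} (hρ : 1 ≤ ρ) (u : V) :
    1 ≤ update X v ρ u := by
  by_cases h : u = v
  · subst h
    rwa [update_self]
  · rw [update_of_ne h]
    exact hX u

theorem one_le_Nm {a : V → ℕ} {X : V → ℝ} (hX : ∀ v, 1 ≤ X v) : 1 ≤ Nm a X := by
  unfold Nm
  apply Finset.prod_induction _ (fun x : ℝ => 1 ≤ x) (fun x y hx hy => by nlinarith) le_rfl
  intro v _
  exact one_le_pow₀ (hX v)

/-- The hypotheses of the iteration. -/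
structure It (U : (V → ℝ) → ℝ) (T : V → (V → ℝ) → ℝ) (a : V → ℕ) (D e : ℕ) (C : ℝ) : Prop where
  C1 : 1 ≤ C
  nn : ∀ X, 0 ≤ U X
  le : ∀ v X, U X ≤ T v X
  pack : ∀ v X ρ, (∀ u, 1 ≤ X u) → 1 ≤ ρ → ρ ≤ X v →
    T v X ≤ C * (X v / ρ) ^ a v * T v (update X v ρ)
  bad : ∀ v X g, (∀ u, 1 ≤ X u) → 1 ≤ g → (∀ u, X u ≤ g * X v) →
    T v X ≤ U X + C * Nm a X * (g ^ D / X v)
  triv : ∀ M X, 1 ≤ M → (∀ u, 1 ≤ X u) → (∀ u, X u ≤ M) → U X ≤ C * M ^ e

variable {U : (V → ℝ) → ℝ} {T : V → (V → ℝ) → ℝ} {a : V → ℕ} {D e : ℕ} {C : ℝ}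

/-- The normalised number. -/
noncomputable def pp (U : (V → ℝ) → ℝ) (a : V → ℕ) (X : V → ℝ) : ℝ := U X / Nm a X

theorem pp_nonneg (h : It U T a D e C) {X : V → ℝ} (hX : ∀ v, 0 < X v) : 0 ≤ pp U a X :=
  div_nonneg (h.nn X) (Nm_pos hX).le

theorem pp_triv (h : It U T a D e C) {X : V → ℝ} (hX : ∀ v, 1 ≤ X v) {M : ℝ}
    (hM : ∀ v, X v ≤ M) (hM1 : 1 ≤ M) : pp U a X ≤ C * M ^ e := by
  unfold pp
  have h0 := Nm_pos (a := a) (pos_of_one hX)
  have h3 := one_le_Nm (a := a) hX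
  rw [div_le_iff₀ h0]
  have h1 := h.triv M X hM1 hX hM
  have hC := h.C1
  have h2 : 0 ≤ C * M ^ e := by positivity
  nlinarith

theorem up1 (h : It U T a D e C) (v : V) (X : V → ℝ) (ρ g : ℝ) (hX : ∀ u, 1 ≤ X u) (hρ : 1 ≤ ρ)
    (hρX : ρ ≤ X v) (hg : 1 ≤ g) (hgX : ∀ u, u ≠ v → X u ≤ g * ρ) :
    pp U a X ≤ C * (C + 1) * (g ^ D / ρ + pp U a (update X v ρ)) := by
  have hC := h.C1
  have hρ0 : 0 < ρ := by linarith
  have hXv : 0 < X v := by linarith
  set Y := update X v ρ with hY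
  have hY1 : ∀ u, 1 ≤ Y u := one_update hX v hρ
  have hYv : Y v = ρ := update_self _ _ _
  have hN := Nm_pos (a := a) (pos_of_one hX)
  have hNY := Nm_pos (a := a) (pos_of_one hY1)
  have h1 := h.le v X
  have h2 := h.pack v X ρ hX hρ hρX
  have h3 : T v Y ≤ U Y + C * Nm a Y * (g ^ D / ρ) := by
    have h5 := h.bad v Y g hY1 hg (by
      intro u
      rw [hYv]
      by_cases hu : u = v
      · rw [hu, hYv]
        nlinarith
      · rw [hY, update_of_ne hu]
        exact hgX u hu)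
    rwa [hYv] at h5
  have h6 : Nm a Y * X v ^ a v = Nm a X * ρ ^ a v := Nm_update a X v ρ
  unfold pp
  rw [div_le_iff₀ hN]
  have hg0 : 0 ≤ g ^ D / ρ := by positivity
  have hU : 0 ≤ U Y := h.nn Y
  have h8 : (X v / ρ) ^ a v = Nm a X / Nm a Y := by
    rw [div_pow]
    field_simp
    linarith
  calc U X ≤ C * (X v / ρ) ^ a v * T v Y := h1.trans h2
    _ ≤ C * (X v / ρ) ^ a v * (U Y + C * Nm a Y * (g ^ D / ρ)) := by gcongr
    _ = C * (U Y / Nm a Y + C * (g ^ D / ρ)) * Nm a X := by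
        rw [h8]
        field_simp
    _ ≤ C * ((C + 1) * (U Y / Nm a Y) + (C + 1) * (g ^ D / ρ)) * Nm a X := by
        have e1 : 0 ≤ U Y / Nm a Y := div_nonneg hU hNY.le
        have e2 : U Y / Nm a Y ≤ (C + 1) * (U Y / Nm a Y) := by nlinarith
        have e3 : C * (g ^ D / ρ) ≤ (C + 1) * (g ^ D / ρ) := by nlinarith
        gcongr
    _ = _ := by ring

theorem up_desc (hI : It U T a D e C) : ∃ C' : ℝ, 1 ≤ C' ∧
    ∀ (M ρ : ℝ), 1 ≤ ρ → ρ ≤ M → M ^ D ≤ ρ ^ (D + 1) → ∀ X : V → ℝ, (∀ u, 1 ≤ X u) →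
      (∀ u, X u ≤ M) → ∃ Y : V → ℝ, (∀ u, 1 ≤ Y u) ∧ (∀ u, Y u ≤ ρ) ∧
        pp U a X ≤ C' * (1 + pp U a Y) := by
  obtain ⟨C, hC, hup⟩ : ∃ C : ℝ, 1 ≤ C ∧ ∀ (v : V) (X : V → ℝ) (ρ g : ℝ), (∀ u, 1 ≤ X u) →
      1 ≤ ρ → ρ ≤ X v → 1 ≤ g → (∀ u, u ≠ v → X u ≤ g * ρ) →
      pp U a X ≤ C * (g ^ D / ρ + pp U a (update X v ρ)) :=
    ⟨C * (C + 1), by nlinarith [hI.C1], fun v X ρ g h1 h2 h3 h4 h5 => up1 hI v X ρ g h1 h2 h3 h4 h5⟩
  have key : ∀ A : Finset V, ∃ C' : ℝ, 1 ≤ C' ∧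
    ∀ (M ρ : ℝ), 1 ≤ ρ → ρ ≤ M → M ^ D ≤ ρ ^ (D + 1) → ∀ X : V → ℝ, (∀ u, 1 ≤ X u) →
      (∀ u, X u ≤ M) → ∃ Y : V → ℝ, (∀ u, 1 ≤ Y u) ∧ (∀ u, Y u ≤ M) ∧ (∀ u ∈ A, Y u ≤ ρ) ∧
        pp U a X ≤ C' * (1 + pp U a Y) := by
    intro A
    induction A using Finset.induction_on with
    | empty =>
      refine ⟨1, le_rfl, fun M ρ _ _ _ X h1 h2 => ⟨X, h1, h2, ?_, ?_⟩⟩
      · intro u hu
        simp at hu
      · linarith
    | insert v A hv ih =>
      obtain ⟨C', hC', h⟩ := ih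
      refine ⟨C' * (3 * C), by nlinarith, ?_⟩
      intro M ρ hρ hρM hMD X h1 h2
      obtain ⟨Y, hY1, hY2, hY3, hY4⟩ := h M ρ hρ hρM hMD X h1 h2
      have hpY := pp_nonneg hI (pos_of_one hY1)
      rcases le_total (Y v) ρ with hle | hle
      · refine ⟨Y, hY1, hY2, ?_, ?_⟩
        · intro u hu
          rw [Finset.mem_insert] at hu
          rcases hu with rfl | hu
          · exact hle
          · exact hY3 u hu
        · refine hY4.trans ?_
          rw [mul_assoc]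
          gcongr
          nlinarith
      · have hρ0 : 0 < ρ := by linarith
        refine ⟨update Y v ρ, one_update hY1 v hρ, ?_, ?_, ?_⟩
        · intro u
          by_cases hu : u = v
          · rw [hu, update_self]
            exact hρM
          · rw [update_of_ne hu]
            exact hY2 u
        · intro u hu
          by_cases hu' : u = v
          · rw [hu', update_self]
          · rw [update_of_ne hu']
            rw [Finset.mem_insert] at hu
            exact hY3 u (hu.resolve_left hu')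
        · have h5 := hup v Y ρ (M / ρ) hY1 hρ hle ((one_le_div hρ0).2 hρM) (by
            intro u _
            rw [div_mul_cancel₀ _ hρ0.ne']
            exact hY2 u)
          have h6 : (M / ρ) ^ D / ρ ≤ 1 := by
            rw [div_pow, div_div, div_le_one (by positivity), ← pow_succ]
            exact hMD
          have hp' := pp_nonneg hI (pos_of_one (one_update hY1 v hρ))
          calc pp U a X ≤ C' * (1 + pp U a Y) := hY4
            _ ≤ C' * (1 + C * (1 + pp U a (update Y v ρ))) := by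
                gcongr
                exact h5.trans (by gcongr)
            _ ≤ C' * (3 * C * (1 + pp U a (update Y v ρ))) := by
                gcongr
                nlinarith
            _ = _ := by ring
  obtain ⟨C', hC', h⟩ := key Finset.univ
  refine ⟨C', hC', ?_⟩
  intro M ρ hρ hρM hMD X h1 h2
  obtain ⟨Y, hY1, _, hY3, hY4⟩ := h M ρ hρ hρM hMD X h1 h2
  exact ⟨Y, hY1, fun u => hY3 u (Finset.mem_univ u), hY4⟩

/-- **The upper bound with a small loss.** -/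
theorem up_eps (hE : It U T a D e C) {ε : ℝ} (hε : 0 < ε) : ∃ C' : ℝ, 1 ≤ C' ∧
    ∀ (M : ℝ) (X : V → ℝ), 1 ≤ M → (∀ u, 1 ≤ X u) → (∀ u, X u ≤ M) →
      U X ≤ C' * Nm a X * M ^ ε := by
  have hC1 := hE.C1
  obtain ⟨E, hE1, hdesc⟩ := up_desc hE
  have hk0 : (0 : ℝ) < (D : ℝ) + 1 := by positivity
  -- the threshold
  have hlim : Tendsto (fun x : ℝ => x ^ (ε / (D + 1))) atTop atTop :=
    tendsto_rpow_atTop (by positivity)
  obtain ⟨K₀, hK₀⟩ := eventually_atTop.1 (hlim.eventually_ge_atTop (2 * E))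
  obtain ⟨K₁, hK₁⟩ : ∃ K₁ : ℝ, K₁ = max (max K₀ 2) (2 ^ (D + 1)) := ⟨_, rfl⟩
  have e1 : K₀ ≤ K₁ := by rw [hK₁]; exact (le_max_left _ _).trans (le_max_left _ _)
  have e2 : 2 ≤ K₁ := by rw [hK₁]; exact (le_max_right _ _).trans (le_max_left _ _)
  have e3 : (2 : ℝ) ^ (D + 1) ≤ K₁ := by rw [hK₁]; exact le_max_right _ _
  obtain ⟨A, hA⟩ : ∃ A : ℝ, A = max (2 * E) (C * K₁ ^ e) := ⟨_, rfl⟩
  have hA1 : 2 * E ≤ A := by rw [hA]; exact le_max_left _ _
  have hA2 : C * K₁ ^ e ≤ A := by rw [hA]; exact le_max_right _ _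
  have hA0 : 1 ≤ A := by linarith
  have hdiag : ∀ (N : ℕ) (M : ℝ), 1 ≤ M → M < 2 ^ N → ∀ X : V → ℝ, (∀ u, 1 ≤ X u) →
      (∀ u, X u ≤ M) → pp U a X ≤ A * M ^ ε := by
    intro N
    induction N with
    | zero =>
      intro K hK h
      rw [pow_zero] at h
      linarith
    | succ N ih =>
      intro K hK hKN X hX1 hX2
      have hKε : 1 ≤ K ^ ε := Real.one_le_rpow hK hε.le
      rcases lt_or_ge K K₁ with h | h
      · calc pp U a X ≤ C * K ^ e := pp_triv hE hX1 hX2 hK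
          _ ≤ C * K₁ ^ e := by gcongr
          _ ≤ A := hA2
          _ ≤ A * K ^ ε := le_mul_of_one_le_right (by linarith) hKε
      · have hK0 : 0 < K := by linarith
        set ρ : ℝ := K ^ ((D : ℝ) / (D + 1)) with hρ
        have hρ1 : 1 ≤ ρ := Real.one_le_rpow hK (by positivity)
        have hρ0 : 0 < ρ := by linarith
        have hprod : ρ * K ^ (1 / ((D : ℝ) + 1)) = K := by
          rw [hρ, ← Real.rpow_add hK0, ← add_div, div_self hk0.ne', Real.rpow_one]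
        have h2K : 2 ≤ K ^ (1 / ((D : ℝ) + 1)) := by
          have h5 : ((2 : ℝ) ^ (D + 1)) ^ (1 / ((D : ℝ) + 1)) = 2 := by
            rw [← Real.rpow_natCast, ← Real.rpow_mul (by norm_num)]
            push_cast
            rw [mul_one_div_cancel hk0.ne', Real.rpow_one]
          rw [← h5]
          exact Real.rpow_le_rpow (by positivity) (e3.trans h) (by positivity)
        have hρK : ρ ≤ K / 2 := by
          rw [le_div_iff₀ (by norm_num)]
          calc ρ * 2 ≤ ρ * K ^ (1 / ((D : ℝ) + 1)) := by gcongr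
            _ = K := hprod
        have hpow : K ^ D ≤ ρ ^ (D + 1) := by
          rw [hρ, ← Real.rpow_natCast (K ^ ((D : ℝ) / (D + 1))), ← Real.rpow_mul hK0.le]
          push_cast
          rw [div_mul_cancel₀ _ hk0.ne', Real.rpow_natCast]
        obtain ⟨Y, hY1, hY2, h1⟩ := hdesc K ρ hρ1 (by linarith) hpow X hX1 hX2
        have h2 := ih ρ hρ1 (by
          rw [pow_succ] at hKN
          linarith) Y hY1 hY2
        have h3 : K ^ ε = ρ ^ ε * K ^ (ε / (D + 1)) := by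
          rw [hρ, ← Real.rpow_mul hK0.le, ← Real.rpow_add hK0]
          congr 1
          field_simp
        have h4 : 2 * E ≤ K ^ (ε / (D + 1)) := hK₀ K (e1.trans h)
        have h5 : 0 < ρ ^ ε := Real.rpow_pos_of_pos hρ0 _
        have h6 : E * (A * ρ ^ ε) ≤ A * K ^ ε / 2 := by
          rw [h3]
          have : A * ρ ^ ε * (2 * E) ≤ A * ρ ^ ε * K ^ (ε / (D + 1)) := by gcongr
          linarith
        have h7 : E ≤ A * K ^ ε / 2 := by nlinarith
        calc pp U a X ≤ E * (1 + pp U a Y) := h1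
          _ ≤ E * (1 + A * ρ ^ ε) := by gcongr
          _ = E + E * (A * ρ ^ ε) := by ring
          _ ≤ A * K ^ ε := by linarith
  refine ⟨A, hA0, ?_⟩
  intro M X hM hX1 hX2
  obtain ⟨N, hN⟩ := pow_unbounded_of_one_lt M (by norm_num : (1 : ℝ) < 2)
  have h1 := hdiag N M hM hN X hX1 hX2
  have h0 := Nm_pos (a := a) (pos_of_one hX1)
  unfold pp at h1
  rw [div_le_iff₀ h0] at h1
  calc U X ≤ A * M ^ ε * Nm a X := h1
    _ = A * Nm a X * M ^ ε := by ring

end Pool.Agent.L5helper6.BF
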