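import Pool.Agent.L5helper6.BF.Def
import Pool.Agent.L5helper6.BF.Eps
import Pool.Agent.N852.GR.EngT

/-!
The count of the good solutions of a system of forms of type `(1, …, 1)` in boxes, over a number
field, from a bound for the bad families.
-/

namespace Pool.Agent.L5helper6.BF

open scoped Classical
open NumberField Module Function
open Pool.Agent Pool.Agent.N852.GR

set_option linter.unusedSectionVars false

variable {F : Type} [Field F] [NumberField F]
variable {V : Type} [Fintype V] [DecidableEq V] {n : V → ℕ} {k : ℕ}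

/-- The family is good for the vector `x v`: the coefficient vectors are independent. -/
def Gd (T : Fin k → Ten n (𝓞 F)) (v : V) (x : Tup n (𝓞 F)) : Prop :=
  LinearIndependent F fun i => co (der T v x i)

/-- The equations. -/
def Inc {R : Type*} [CommRing R] (T : Fin k → Ten n R) (x : Tup n R) : Prop := ∀ i, ev (T i) x = 0

/-- The solutions in a box which are good for one vector. -/
def TS (T : Fin k → Ten n (𝓞 F)) (v : V) (X : V → ℝ) : Set (Tup n (𝓞 F)) :=
  {x | (∀ u, ‖io (x u)‖ ≤ X u) ∧ Inc T x ∧ Gd T v x}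

/-- The good solutions in a box. -/
def US (T : Fin k → Ten n (𝓞 F)) (X : V → ℝ) : Set (Tup n (𝓞 F)) :=
  {x | (∀ u, ‖io (x u)‖ ≤ X u) ∧ Inc T x ∧ ∀ v, Gd T v x}

/-- The bound for the bad families. -/
def BB (T : Fin k → Ten n (𝓞 F)) (R : ℕ) : Prop := ∀ u v : V, u ≠ v → ∃ C : ℝ, 1 ≤ C ∧
  ∀ y : Tup n (𝓞 F), (∃ w, Gd T v (update y u w)) → ∀ μ : ℝ, 1 ≤ μ →
    ∀ Z : Finset (Fin (n v) → 𝓞 F), (∀ b ∈ Z, ‖io b‖ ≤ μ ∧ ¬ Gd T u (update y v b)) →
      ∑ b ∈ Z, μ ^ (finrank ℚ F * (k - rk (der T u (update y v b)))) ≤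
        C * μ ^ (finrank ℚ F * (k + n v - R))

/-! ### Fibres -/

theorem sum_le_of_inj {α β : Type*} [DecidableEq β] (A : Finset α) (B : Finset β) (φ : α → β)
    (f : α → ℝ) (g : β → ℝ) (h1 : ∀ a ∈ A, φ a ∈ B) (h2 : Set.InjOn φ A)
    (h3 : ∀ a ∈ A, f a = g (φ a)) (h4 : ∀ b ∈ B, 0 ≤ g b) : ∑ a ∈ A, f a ≤ ∑ b ∈ B, g b := by
  rw [Finset.sum_congr rfl h3, ← Finset.sum_image (f := g) h2]
  refine Finset.sum_le_sum_of_subset_of_nonneg ?_ fun b hb _ => h4 b hb
  intro b hb
  obtain ⟨a, ha, rfl⟩ := Finset.mem_image.1 hb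
  exact h1 a ha

theorem box_finite (X : V → ℝ) : {x : Tup n (𝓞 F) | ∀ u, ‖io (x u)‖ ≤ X u}.Finite := by
  have h := Set.Finite.pi' fun v : V => (latP F (n v)).2.1 (X v)
  exact h

theorem TS_finite (T : Fin k → Ten n (𝓞 F)) (v : V) (X : V → ℝ) : (TS T v X).Finite :=
  (box_finite X).subset fun _ h => h.1

theorem US_finite (T : Fin k → Ten n (𝓞 F)) (X : V → ℝ) : (US T X).Finite :=
  (box_finite X).subset fun _ h => h.1

theorem US_sub_TS (T : Fin k → Ten n (𝓞 F)) (v : V) (X : V → ℝ) : US T X ⊆ TS T v X :=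
  fun _ h => ⟨h.1, h.2.1, h.2.2 v⟩

/-- The sum over the fibres. -/
theorem ncard_fibre (v : V) (S : Set (Tup n (𝓞 F))) (hS : S.Finite) (B : Finset (Tup n (𝓞 F)))
    (h1 : ∀ x ∈ S, update x v 0 ∈ B) (h2 : ∀ y ∈ B, y v = 0) :
    S.ncard = ∑ y ∈ B, {z | update y v z ∈ S}.ncard := by
  rw [Set.ncard_eq_toFinset_card S hS,
    Finset.card_eq_sum_card_fiberwise (f := fun x => update x v 0) (t := B)
      (fun x hx => h1 x ((Set.Finite.mem_toFinset hS).1 hx))]
  refine Finset.sum_congr rfl fun y hy => ?_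
  have hy0 := h2 y hy
  have hinj : Function.Injective (fun z : Fin (n v) → 𝓞 F => update y v z) := by
    intro z z' h
    have := congrFun h v
    simpa using this
  rw [← Set.ncard_image_of_injective _ hinj, ← Set.ncard_coe_finset]
  congr 1
  ext x
  simp only [Finset.coe_filter, Set.Finite.mem_toFinset, Set.mem_ofPred_eq, Set.mem_image]
  constructor
  · rintro ⟨h3, h4⟩
    refine ⟨x v, ?_, ?_⟩
    · rw [← h4, update_idem, update_eq_self]
      exact h3
    · rw [← h4, update_idem, update_eq_self]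
  · rintro ⟨z, h3, rfl⟩
    refine ⟨h3, ?_⟩
    rw [update_idem, ← hy0, update_eq_self]

theorem Gd_update (T : Fin k → Ten n (𝓞 F)) (v : V) (x : Tup n (𝓞 F)) (z : Fin (n v) → 𝓞 F) :
    Gd T v (update x v z) ↔ Gd T v x := by
  unfold Gd
  rw [der_update]

theorem Inc_update (T : Fin k → Ten n (𝓞 F)) (v : V) (x : Tup n (𝓞 F)) (z : Fin (n v) → 𝓞 F) :
    Inc T (update x v z) ↔ ∀ i, ∑ l, der T v x i l * z l = 0 := by
  unfold Inc
  refine forall_congr' fun i => ?_
  rw [ev_update]
  rfl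

/-- The lattice of solutions of linear equations. -/
def La {N : ℕ} (w : Fin k → Fin N → 𝓞 F) : AddSubgroup (Fin N → 𝓞 F) where
  carrier := {b | ∀ i, ∑ l, w i l * b l = 0}
  zero_mem' := by
    intro i
    simp
  add_mem' := by
    intro x y hx hy i
    simp only [Pi.add_apply, mul_add, Finset.sum_add_distrib]
    rw [hx i, hy i, add_zero]
  neg_mem' := by
    intro x hx i
    simp only [Pi.neg_apply, mul_neg, Finset.sum_neg_distrib]
    rw [hx i, neg_zero]

theorem mem_La {N : ℕ} (w : Fin k → Fin N → 𝓞 F) (b : Fin N → 𝓞 F) :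
    b ∈ La w ↔ ∀ i, ∑ l, w i l * b l = 0 := Iff.rfl

theorem io_mem_WW {N : ℕ} (w : Fin k → Fin N → 𝓞 F) (b : Fin N → 𝓞 F) (h : b ∈ La w) :
    io b ∈ WW w := by
  intro i
  have h1 : algebraMap (𝓞 F) F (∑ l, w i l * b l) = 0 := by
    rw [(mem_La w b).1 h i, map_zero]
  have h2 : mixedEmbedding F (algebraMap (𝓞 F) F (∑ l, w i l * b l)) = 0 := by rw [h1, map_zero]
  rw [← h2]
  unfold io N852.GR.em co
  rw [map_sum (algebraMap (𝓞 F) F), map_sum]
  refine Finset.sum_congr rfl fun j _ => ?_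
  rw [map_mul, map_mul, mul_comm]

theorem rk_le' {N : ℕ} (w : Fin k → Fin N → 𝓞 F) : rk w ≤ k := by
  unfold rk
  have := finrank_range_le_card (R := F) (fun i => co (w i))
  rw [Fintype.card_fin] at this
  exact this

theorem rk_good' {N : ℕ} (w : Fin k → Fin N → 𝓞 F) (h : LinearIndependent F fun i => co (w i)) :
    rk w = k := by
  unfold rk
  rw [finrank_span_eq_card h, Fintype.card_fin]

theorem La_le {N : ℕ} (w : Fin k → Fin N → 𝓞 F) (X : ℝ) (hX : 1 ≤ X) :
    ({x : Fin N → 𝓞 F | x ∈ La w ∧ ‖io x‖ ≤ X}.ncard : ℝ) ≤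
      (6 * X) ^ (finrank ℚ F * (N - rk w)) := by
  have h := EngT.cnt_le (latP F) (La w) (WW w) (fun x hx => io_mem_WW w x hx) X hX
  rwa [dimP F N (Fin k) w] at h

/-- The comparison of the numbers of points of the fibres. -/
theorem TS_pack (T : Fin k → Ten n (𝓞 F)) (v : V) (X : V → ℝ) (ρ : ℝ) (hρ : 1 ≤ ρ)
    (hX : ρ ≤ X v) : ((TS T v X).ncard : ℝ) ≤
      (3 * X v / ρ) ^ (finrank ℚ F * (n v - k)) * ((TS T v (update X v ρ)).ncard : ℝ) := by
  have hf : {y : Tup n (𝓞 F) | y v = 0 ∧ (∀ u, u ≠ v → ‖io (y u)‖ ≤ X u) ∧ Gd T v y}.Finite := by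
    refine (box_finite (update X v 0)).subset ?_
    rintro y ⟨h1, h2, -⟩ u
    by_cases hu : u = v
    · subst hu
      rw [update_self, h1]
      have : io (0 : Fin (n u) → 𝓞 F) = 0 := by
        funext i
        simp [io, N852.GR.em, co]
      rw [this, norm_zero]
    · rw [update_of_ne hu]
      exact h2 u hu
  have hG : ∀ Y : V → ℝ, (∀ u, u ≠ v → Y u = X u) → ∀ x ∈ TS T v Y,
      update x v 0 ∈ hf.toFinset := by
    rintro Y hY x ⟨h1, -, h2⟩
    rw [Set.Finite.mem_toFinset]
    refine ⟨update_self _ _ _, fun u hu => ?_, (Gd_update T v x 0).2 h2⟩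
    rw [update_of_ne hu, ← hY u hu]
    exact h1 u
  have h0 : ∀ y ∈ hf.toFinset, y v = 0 := fun y hy => ((Set.Finite.mem_toFinset hf).1 hy).1
  rw [ncard_fibre v (TS T v X) (TS_finite T v X) hf.toFinset (hG X fun _ _ => rfl) h0,
    ncard_fibre v (TS T v (update X v ρ)) (TS_finite T v _) hf.toFinset
      (hG _ fun u hu => update_of_ne hu _ _) h0]
  push_cast
  rw [Finset.mul_sum]
  refine Finset.sum_le_sum fun y hy => ?_
  obtain ⟨hy1, hy2, hy3⟩ := (Set.Finite.mem_toFinset hf).1 hy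
  have hS : ∀ Y : V → ℝ, (∀ u, u ≠ v → Y u = X u) → {z | update y v z ∈ TS T v Y} =
      {z | z ∈ La (der T v y) ∧ ‖io z‖ ≤ Y v} := by
    intro Y hY
    ext z
    constructor
    · rintro ⟨h1, h2, -⟩
      have h3 := h1 v
      rw [update_self] at h3
      exact ⟨(Inc_update T v y z).1 h2, h3⟩
    · rintro ⟨h1, h2⟩
      refine ⟨fun u => ?_, (Inc_update T v y z).2 h1, (Gd_update T v y z).2 hy3⟩
      by_cases hu : u = v
      · subst hu
        rw [update_self]
        exact h2
      · rw [update_of_ne hu, hY u hu]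
        exact hy2 u hu
  rw [hS X fun _ _ => rfl, hS (update X v ρ) fun u hu => update_of_ne hu _ _, update_self]
  have h1 := (latP F (n v)).2.2 (La (der T v y)) (WW (der T v y)) (fun x hx => io_mem_WW _ x hx)
    (X v) ρ (by linarith) hX
  rw [dimP F (n v) (Fin k) (der T v y), rk_good' _ hy3] at h1
  exact h1

/-! ### The bad families -/

/-- The solutions good for `v` and bad for `u`. -/
def Bd (T : Fin k → Ten n (𝓞 F)) (u v : V) (X : V → ℝ) : Set (Tup n (𝓞 F)) :=
  {x | x ∈ TS T v X ∧ ¬ Gd T u x}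

theorem io_zero {N : ℕ} : io (0 : Fin N → 𝓞 F) = 0 := by
  funext i
  simp [io, N852.GR.em, co]

theorem box_card (n : V → ℕ) (S : Finset V) (X : V → ℝ) (hX : ∀ u, 1 ≤ X u) :
    ({y : Tup n (𝓞 F) | (∀ u ∈ S, y u = 0) ∧ ∀ u, ‖io (y u)‖ ≤ X u}.ncard : ℝ) ≤
      ∏ u, if u ∈ S then 1 else (6 * X u) ^ (finrank ℚ F * n u) := by
  have hf : ∀ u : V, {z : Fin (n u) → 𝓞 F | (u ∈ S → z = 0) ∧ ‖io z‖ ≤ X u}.Finite := fun u =>
    ((latP F (n u)).2.1 (X u)).subset fun z hz => hz.2
  have h1 : {y : Tup n (𝓞 F) | (∀ u ∈ S, y u = 0) ∧ ∀ u, ‖io (y u)‖ ≤ X u} =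
      (Fintype.piFinset fun u => (hf u).toFinset : Set (Tup n (𝓞 F))) := by
    ext y
    simp only [Set.mem_ofPred_eq, Finset.mem_coe, Fintype.mem_piFinset, Set.Finite.mem_toFinset]
    constructor
    · rintro ⟨h1, h2⟩ u
      exact ⟨h1 u, h2 u⟩
    · intro h
      exact ⟨fun u => (h u).1, fun u => (h u).2⟩
  rw [h1, Set.ncard_coe_finset, Fintype.card_piFinset]
  push_cast
  refine Finset.prod_le_prod (fun _ _ => Nat.cast_nonneg _) fun u _ => ?_
  rw [← Set.ncard_eq_toFinset_card _ (hf u)]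
  split_ifs with hu
  · have h2 : {z : Fin (n u) → 𝓞 F | (u ∈ S → z = 0) ∧ ‖io z‖ ≤ X u} ⊆ {0} := by
      rintro z ⟨h3, -⟩
      exact h3 hu
    have := Set.ncard_le_ncard h2 (Set.finite_singleton _)
    rw [Set.ncard_singleton] at this
    exact_mod_cast this
  · have h2 : {z : Fin (n u) → 𝓞 F | (u ∈ S → z = 0) ∧ ‖io z‖ ≤ X u} ⊆
        {z : Fin (n u) → 𝓞 F | ‖io z‖ ≤ X u} := fun z hz => hz.2
    have h3 := Set.ncard_le_ncard h2 ((latP F (n u)).2.1 (X u))
    have h4 := EngT.ball_le (latP F) (n u) (X u) (hX u)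
    exact le_trans (by exact_mod_cast h3) h4

/-- The number of the bad families as a sum. -/
theorem Bd_le (T : Fin k → Ten n (𝓞 F)) {u v : V} (huv : u ≠ v) (X : V → ℝ) (hX : ∀ u, 1 ≤ X u)
    (hku : k ≤ n u) {g C : ℝ} {R : ℕ} (hg : 1 ≤ g) (hgX : ∀ u, X u ≤ g * X v) (hC : 1 ≤ C)
    (hBB : ∀ y : Tup n (𝓞 F), (∃ w, Gd T v (update y u w)) → ∀ μ : ℝ, 1 ≤ μ →
      ∀ Z : Finset (Fin (n v) → 𝓞 F), (∀ b ∈ Z, ‖io b‖ ≤ μ ∧ ¬ Gd T u (update y v b)) →
      ∑ b ∈ Z, μ ^ (finrank ℚ F * (k - rk (der T u (update y v b)))) ≤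
        C * μ ^ (finrank ℚ F * (k + n v - R))) :
    ((Bd T u v X).ncard : ℝ) ≤ (∏ t, if t ∈ ({u, v} : Finset V) then 1 else
      (6 * X t) ^ (finrank ℚ F * n t)) * (6 ^ (finrank ℚ F * n u) *
        X u ^ (finrank ℚ F * (n u - k)) * (g ^ (finrank ℚ F * k) *
        (C * X v ^ (finrank ℚ F * (k + n v - R))))) := by
  set d := finrank ℚ F with hd
  set μ := X v with hμ
  have hμ1 : 1 ≤ μ := hX v
  have hμ0 : 0 < μ := by linarith
  have hXu0 : 0 < X u := by linarith [hX u]
  have hg0 : 0 < g := by linarith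
  have hBf : (Bd T u v X).Finite := (TS_finite T v X).subset fun _ h => h.1
  -- the bases
  have hf2 : {y : Tup n (𝓞 F) | ((∀ t ∈ ({u, v} : Finset V), y t = 0) ∧ ∀ t, ‖io (y t)‖ ≤ X t) ∧
      ∃ w, Gd T v (update y u w)}.Finite := (box_finite X).subset fun y hy => hy.1.2
  have hf1 : {y : Tup n (𝓞 F) | y u = 0 ∧ (∀ t, ‖io (y t)‖ ≤ X t) ∧ ¬ Gd T u y ∧
      ∃ w, Gd T v (update y u w)}.Finite := (box_finite X).subset fun y hy => hy.2.1
  have h1 : (Bd T u v X).ncard = ∑ y ∈ hf1.toFinset, {z | update y u z ∈ Bd T u v X}.ncard := by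
    refine ncard_fibre u _ hBf _ ?_ ?_
    · rintro x ⟨⟨h2, h3, h4⟩, h5⟩
      rw [Set.Finite.mem_toFinset]
      refine ⟨update_self _ _ _, fun t => ?_, ?_, ⟨x u, ?_⟩⟩
      · by_cases ht : t = u
        · subst ht
          rw [update_self, io_zero, norm_zero]
          linarith [hX t]
        · rw [update_of_ne ht]
          exact h2 t
      · rw [Gd_update]
        exact h5
      · rw [update_idem, update_eq_self]
        exact h4
    · intro y hy
      rw [Set.Finite.mem_toFinset] at hy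
      exact hy.1
  have h2 : ∀ y ∈ hf1.toFinset, ({z | update y u z ∈ Bd T u v X}.ncard : ℝ) ≤
      6 ^ (d * n u) * X u ^ (d * (n u - k)) * (g ^ (d * k) * μ ^ (d * (k - rk (der T u y)))) := by
    intro y hy
    have h3 : {z | update y u z ∈ Bd T u v X} ⊆ {z | z ∈ La (der T u y) ∧ ‖io z‖ ≤ X u} := by
      rintro z ⟨⟨h4, h5, -⟩, -⟩
      have h6 := h4 u
      rw [update_self] at h6
      exact ⟨(Inc_update T u y z).1 h5, h6⟩
    have h4 : ({z | update y u z ∈ Bd T u v X}.ncard : ℝ) ≤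
        ({z | z ∈ La (der T u y) ∧ ‖io z‖ ≤ X u}.ncard : ℝ) := by
      exact_mod_cast Set.ncard_le_ncard h3 (((latP F (n u)).2.1 (X u)).subset fun z hz => hz.2)
    have h5 := La_le (der T u y) (X u) (hX u)
    have h6 : n u - rk (der T u y) = (n u - k) + (k - rk (der T u y)) := by
      have := rk_le' (der T u y)
      omega
    calc ({z | update y u z ∈ Bd T u v X}.ncard : ℝ) ≤ (6 * X u) ^ (d * (n u - rk (der T u y))) :=
          h4.trans h5
      _ = 6 ^ (d * (n u - rk (der T u y))) * (X u ^ (d * (n u - k)) *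
          X u ^ (d * (k - rk (der T u y)))) := by
          rw [mul_pow, ← pow_add, ← mul_add, ← h6]
      _ ≤ 6 ^ (d * n u) * (X u ^ (d * (n u - k)) * (g ^ (d * k) *
          μ ^ (d * (k - rk (der T u y))))) := by
          have e1 : (6 : ℝ) ^ (d * (n u - rk (der T u y))) ≤ 6 ^ (d * n u) :=
            pow_le_pow_right₀ (by norm_num) (Nat.mul_le_mul_left _ (Nat.sub_le _ _))
          have e2 : X u ^ (d * (k - rk (der T u y))) ≤
              g ^ (d * k) * μ ^ (d * (k - rk (der T u y))) := by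
            calc X u ^ (d * (k - rk (der T u y))) ≤ (g * μ) ^ (d * (k - rk (der T u y))) :=
                  pow_le_pow_left₀ hXu0.le (hgX u) _
              _ = g ^ (d * (k - rk (der T u y))) * μ ^ (d * (k - rk (der T u y))) :=
                  mul_pow _ _ _
              _ ≤ _ := by
                  refine mul_le_mul_of_nonneg_right ?_ (by positivity)
                  exact pow_le_pow_right₀ hg (Nat.mul_le_mul_left _ (Nat.sub_le _ _))
          gcongr
      _ = _ := by ring
  -- the second sum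
  have h3 : ∑ y ∈ hf1.toFinset, μ ^ (d * (k - rk (der T u y))) ≤
      ∑ y ∈ hf2.toFinset, C * μ ^ (d * (k + n v - R)) := by
    set Z : Tup n (𝓞 F) → Finset (Fin (n v) → 𝓞 F) := fun y =>
      (((latP F (n v)).2.1 μ).subset (fun z hz => hz.1) :
        {z : Fin (n v) → 𝓞 F | ‖io z‖ ≤ μ ∧ ¬ Gd T u (update y v z)}.Finite).toFinset with hZ
    have hmem : ∀ y z, z ∈ Z y ↔ ‖io z‖ ≤ μ ∧ ¬ Gd T u (update y v z) := by
      intro y z
      rw [hZ]
      exact Set.Finite.mem_toFinset _
    have h4 : ∑ y ∈ hf1.toFinset, μ ^ (d * (k - rk (der T u y))) ≤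
        ∑ y ∈ hf2.toFinset, ∑ z ∈ Z y, μ ^ (d * (k - rk (der T u (update y v z)))) := by
      rw [Finset.sum_sigma']
      refine sum_le_of_inj (β := (_ : Tup n (𝓞 F)) × (Fin (n v) → 𝓞 F)) _ _
        (fun x : Tup n (𝓞 F) => ⟨update x v 0, x v⟩) _ _ ?_ ?_ ?_ ?_
      · intro x hx
        rw [Set.Finite.mem_toFinset] at hx
        obtain ⟨h5, h6, h7, w, h8⟩ := hx
        rw [Finset.mem_sigma, Set.Finite.mem_toFinset, hmem]
        refine ⟨⟨⟨?_, fun t => ?_⟩, w, ?_⟩, h6 v, ?_⟩
        · intro t ht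
          rw [Finset.mem_insert, Finset.mem_singleton] at ht
          rcases ht with rfl | rfl
          · show update x v 0 t = 0
            rw [update_of_ne huv, h5]
          · show update x t 0 t = 0
            rw [update_self]
        · show ‖io (update x v 0 t)‖ ≤ X t
          by_cases ht : t = v
          · subst ht
            rw [update_self, io_zero, norm_zero]
            linarith [hX t]
          · rw [update_of_ne ht]
            exact h6 t
        · show Gd T v (update (update x v 0) u w)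
          rw [update_comm huv.symm, Gd_update]
          exact h8
        · show ¬ Gd T u (update (update x v 0) v (x v))
          rw [update_idem, update_eq_self]
          exact h7
      · intro x _ x' _ h
        simp only [Sigma.mk.injEq, heq_eq_eq] at h
        have h5 : update (update x v 0) v (x v) = update (update x' v 0) v (x' v) := by
          rw [h.1, h.2]
        rwa [update_idem, update_idem, update_eq_self, update_eq_self] at h5
      · intro x _
        show _ = μ ^ (d * (k - rk (der T u (update (update x v 0) v (x v)))))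
        rw [update_idem, update_eq_self]
      · intro b _
        positivity
    refine h4.trans (Finset.sum_le_sum fun y hy => ?_)
    rw [Set.Finite.mem_toFinset] at hy
    exact hBB y hy.2 μ hμ1 (Z y) fun b hb => (hmem y b).1 hb
  have h4 : (hf2.toFinset.card : ℝ) ≤ ∏ t, if t ∈ ({u, v} : Finset V) then 1 else
      (6 * X t) ^ (d * n t) := by
    rw [← Set.ncard_eq_toFinset_card _ hf2]
    refine le_trans ?_ (box_card n {u, v} X hX)
    have : {y : Tup n (𝓞 F) | ((∀ t ∈ ({u, v} : Finset V), y t = 0) ∧ ∀ t, ‖io (y t)‖ ≤ X t) ∧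
        ∃ w, Gd T v (update y u w)} ⊆
        {y : Tup n (𝓞 F) | (∀ t ∈ ({u, v} : Finset V), y t = 0) ∧ ∀ t, ‖io (y t)‖ ≤ X t} :=
      fun y hy => hy.1
    exact_mod_cast Set.ncard_le_ncard this ((box_finite X).subset fun y hy => hy.2)
  rw [h1]
  push_cast
  calc ∑ y ∈ hf1.toFinset, ({z | update y u z ∈ Bd T u v X}.ncard : ℝ)
      ≤ ∑ y ∈ hf1.toFinset, 6 ^ (d * n u) * X u ^ (d * (n u - k)) *
          (g ^ (d * k) * μ ^ (d * (k - rk (der T u y)))) := Finset.sum_le_sum h2
    _ = 6 ^ (d * n u) * X u ^ (d * (n u - k)) * (g ^ (d * k) *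
          ∑ y ∈ hf1.toFinset, μ ^ (d * (k - rk (der T u y)))) := by
        rw [Finset.mul_sum, Finset.mul_sum]
    _ ≤ 6 ^ (d * n u) * X u ^ (d * (n u - k)) * (g ^ (d * k) *
          ∑ y ∈ hf2.toFinset, C * μ ^ (d * (k + n v - R))) := by gcongr
    _ = hf2.toFinset.card * (6 ^ (d * n u) * X u ^ (d * (n u - k)) * (g ^ (d * k) *
          (C * μ ^ (d * (k + n v - R))))) := by
        rw [Finset.sum_const, nsmul_eq_mul]
        ring
    _ ≤ _ := by gcongr

/-- the products -/
theorem prod_two {u v : V} (huv : u ≠ v) (S : V → ℝ) :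
    S u * S v * ∏ t, (if t ∈ ({u, v} : Finset V) then 1 else S t) = ∏ t, S t := by
  rw [← Finset.mul_prod_erase Finset.univ S (Finset.mem_univ u),
    ← Finset.mul_prod_erase (Finset.univ.erase u) S
      (Finset.mem_erase.2 ⟨huv.symm, Finset.mem_univ v⟩),
    ← Finset.mul_prod_erase Finset.univ (fun t => if t ∈ ({u, v} : Finset V) then (1 : ℝ) else S t)
      (Finset.mem_univ u),
    ← Finset.mul_prod_erase (Finset.univ.erase u)
      (fun t => if t ∈ ({u, v} : Finset V) then (1 : ℝ) else S t)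
      (Finset.mem_erase.2 ⟨huv.symm, Finset.mem_univ v⟩)]
  rw [if_pos (by simp), if_pos (by simp), one_mul, one_mul, mul_assoc]
  congr 2
  refine Finset.prod_congr rfl fun t ht => ?_
  rw [Finset.mem_erase, Finset.mem_erase] at ht
  rw [if_neg]
  rw [Finset.mem_insert, Finset.mem_singleton]
  tauto

theorem bad_fin {u v : V} (huv : u ≠ v) (X : V → ℝ) (hX : ∀ t, 1 ≤ X t) {g C : ℝ} {d R : ℕ}
    (hd : 1 ≤ d) (hg : 1 ≤ g) (hgX : ∀ t, X t ≤ g * X v) (hC : 1 ≤ C)
    (hR : R = k * Fintype.card V + 1) (hn : ∀ t, R ≤ n t) (hm : 2 ≤ Fintype.card V) :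
    (∏ t, if t ∈ ({u, v} : Finset V) then 1 else (6 * X t) ^ (d * n t)) * (6 ^ (d * n u) *
        X u ^ (d * (n u - k)) * (g ^ (d * k) * (C * X v ^ (d * (k + n v - R))))) ≤
      6 ^ (∑ t, d * n t) * C * Nm (fun t => d * (n t - k)) X *
        (g ^ (d * k * Fintype.card V) / X v) := by
  have hX0 : ∀ t, 0 < X t := fun t => by linarith [hX t]
  have hkn : ∀ t, 2 * k + 1 ≤ n t := by
    intro t
    have h1 := hn t
    have h2 : k * 2 ≤ k * Fintype.card V := Nat.mul_le_mul_left k hm
    omega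
  set μ := X v with hμ
  have hμ1 : 1 ≤ μ := hX v
  have hμ0 : 0 < μ := by linarith
  have hg0 : 0 < g := by linarith
  have hgμ : 0 < g * μ := by positivity
  set S : V → ℝ := fun t => 6 ^ (d * n t) * (X t ^ (d * (n t - k)) * (g * μ) ^ (d * k)) with hS
  have hSpos : ∀ t, 0 < S t := fun t => by
    have := hX0 t
    rw [hS]
    positivity
  have h1 : (∏ t, if t ∈ ({u, v} : Finset V) then 1 else (6 * X t) ^ (d * n t)) ≤
      ∏ t, (if t ∈ ({u, v} : Finset V) then 1 else S t) := by
    refine Finset.prod_le_prod (fun t _ => ?_) fun t _ => ?_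
    · have := hX0 t
      split_ifs <;> positivity
    · split_ifs with ht
      · exact le_rfl
      · rw [mul_pow, hS]
        refine mul_le_mul_of_nonneg_left ?_ (by positivity)
        have h2 : d * n t = d * (n t - k) + d * k := by
          rw [← mul_add]
          congr 1
          have := hkn t
          omega
        rw [h2, pow_add]
        have := hX0 t
        refine mul_le_mul_of_nonneg_left ?_ (by positivity)
        exact pow_le_pow_left₀ (hX0 t).le (hgX t) _
  have h2 : (6 ^ (d * n u) * X u ^ (d * (n u - k)) * (g ^ (d * k) *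
      (C * μ ^ (d * (k + n v - R))))) * μ ^ (d * R) ≤ C * (S u * S v) := by
    have e1 : d * (k + n v - R) + d * R = d * (n v - k) + (d * k + d * k) := by
      rw [← mul_add, ← mul_add, ← mul_add]
      congr 1
      have := hkn v
      have := hn v
      omega
    have e2 : μ ^ (d * (k + n v - R)) * μ ^ (d * R) = μ ^ (d * (n v - k)) * (μ ^ (d * k) *
        μ ^ (d * k)) := by
      rw [← pow_add, e1, pow_add, pow_add]
    calc (6 ^ (d * n u) * X u ^ (d * (n u - k)) * (g ^ (d * k) *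
          (C * μ ^ (d * (k + n v - R))))) * μ ^ (d * R)
        = C * (6 ^ (d * n u) * X u ^ (d * (n u - k))) * g ^ (d * k) *
          (μ ^ (d * (k + n v - R)) * μ ^ (d * R)) := by ring
      _ = C * (6 ^ (d * n u) * (X u ^ (d * (n u - k)) * (g ^ (d * k) * μ ^ (d * k)))) *
          (1 * (μ ^ (d * (n v - k)) * (1 * μ ^ (d * k)))) := by rw [e2]; ring
      _ ≤ C * (6 ^ (d * n u) * (X u ^ (d * (n u - k)) * (g ^ (d * k) * μ ^ (d * k)))) *
          (6 ^ (d * n v) * (μ ^ (d * (n v - k)) * (g ^ (d * k) * μ ^ (d * k)))) := by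
          have := hX0 u
          have e3 : (1 : ℝ) ≤ 6 ^ (d * n v) := one_le_pow₀ (by norm_num)
          have e4 : (1 : ℝ) ≤ g ^ (d * k) := one_le_pow₀ hg
          gcongr
      _ = C * (S u * S v) := by
          rw [hS]
          simp only [mul_pow, ← hμ]
          ring
  have h3 : S u * S v * ∏ t, (if t ∈ ({u, v} : Finset V) then 1 else S t) =
      6 ^ (∑ t, d * n t) * (Nm (fun t => d * (n t - k)) X * (g * μ) ^ (d * k * Fintype.card V)) := by
    rw [prod_two huv, hS, Finset.prod_mul_distrib, Finset.prod_mul_distrib,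
      Finset.prod_pow_eq_pow_sum, Finset.prod_const, Finset.card_univ, ← pow_mul]
    rfl
  have hQ : 0 ≤ ∏ t, (if t ∈ ({u, v} : Finset V) then 1 else S t) := by
    refine Finset.prod_nonneg fun t _ => ?_
    split_ifs
    · norm_num
    · exact (hSpos t).le
  set P := (∏ t, if t ∈ ({u, v} : Finset V) then 1 else (6 * X t) ^ (d * n t)) with hP
  set Q := ∏ t, (if t ∈ ({u, v} : Finset V) then 1 else S t) with hQd
  set B := 6 ^ (d * n u) * X u ^ (d * (n u - k)) * (g ^ (d * k) *
      (C * μ ^ (d * (k + n v - R)))) with hB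
  have hB0 : 0 ≤ B := by
    have := hX0 u
    rw [hB]
    positivity
  have hN := Nm_pos (a := fun t => d * (n t - k)) hX0
  have h4 : P * B * μ ^ (d * R) ≤ 6 ^ (∑ t, d * n t) * C * Nm (fun t => d * (n t - k)) X *
      (g * μ) ^ (d * k * Fintype.card V) := by
    calc P * B * μ ^ (d * R) = P * (B * μ ^ (d * R)) := by ring
      _ ≤ Q * (C * (S u * S v)) := by
          refine mul_le_mul h1 h2 (by positivity) hQ
      _ = C * (S u * S v * Q) := by ring
      _ = _ := by rw [h3]; ring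
  have h5 : μ ^ (d * R) = μ ^ (d * k * Fintype.card V) * μ ^ d := by
    rw [← pow_add, hR]
    congr 1
    ring
  rw [h5, mul_pow] at h4
  have h6 : μ ≤ μ ^ d := le_self_pow₀ hμ1 (by omega)
  have h7 : 0 < μ ^ (d * k * Fintype.card V) := by positivity
  have h8 : P * B * μ ≤ 6 ^ (∑ t, d * n t) * C * Nm (fun t => d * (n t - k)) X *
      g ^ (d * k * Fintype.card V) := by
    have hPB : 0 ≤ P * B := by
      refine mul_nonneg ?_ hB0
      refine Finset.prod_nonneg fun t _ => ?_
      have := hX0 t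
      split_ifs <;> positivity
    refine le_of_mul_le_mul_right ?_ h7
    calc P * B * μ * μ ^ (d * k * Fintype.card V) ≤ P * B * μ ^ d *
          μ ^ (d * k * Fintype.card V) := by gcongr
      _ = P * B * (μ ^ (d * k * Fintype.card V) * μ ^ d) := by ring
      _ ≤ _ := h4
      _ = _ := by ring
  rw [mul_div_assoc', le_div_iff₀ hμ0]
  exact h8

/-- **The engine.** -/
theorem eng (T : Fin k → Ten n (𝓞 F)) (hm : 2 ≤ Fintype.card V)
    (hn : ∀ v, k * Fintype.card V + 1 ≤ n v) (hBB : BB T (k * Fintype.card V + 1)) :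
    ∃ (D e : ℕ) (C : ℝ), It (fun X => ((US T X).ncard : ℝ)) (fun v X => ((TS T v X).ncard : ℝ))
      (fun v => finrank ℚ F * (n v - k)) D e C := by
  set d := finrank ℚ F with hd
  have hd1 : 1 ≤ d := Module.finrank_pos
  set R := k * Fintype.card V + 1 with hR
  have hkn : ∀ t, k ≤ n t := by
    intro t
    have h1 := hn t
    have h2 : k * 2 ≤ k * Fintype.card V := Nat.mul_le_mul_left k hm
    omega
  have hBB' : ∀ u v : V, ∃ C : ℝ, 1 ≤ C ∧ (u ≠ v → ∀ y : Tup n (𝓞 F),
      (∃ w, Gd T v (update y u w)) → ∀ μ : ℝ, 1 ≤ μ →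
      ∀ Z : Finset (Fin (n v) → 𝓞 F), (∀ b ∈ Z, ‖io b‖ ≤ μ ∧ ¬ Gd T u (update y v b)) →
        ∑ b ∈ Z, μ ^ (d * (k - rk (der T u (update y v b)))) ≤ C * μ ^ (d * (k + n v - R))) := by
    intro u v
    by_cases huv : u = v
    · exact ⟨1, le_rfl, fun h => absurd huv h⟩
    · obtain ⟨C, h1, h2⟩ := hBB u v huv
      exact ⟨C, h1, fun _ => h2⟩
  choose C₀ hC₀ hCB using hBB'
  set Cb : ℝ := 6 ^ (∑ t, d * n t) * ∑ v, ∑ u, C₀ u v with hCb
  have hCb0 : 0 ≤ Cb := by
    rw [hCb]
    exact mul_nonneg (by positivity) (Finset.sum_nonneg fun v _ => Finset.sum_nonneg fun u _ => by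
      linarith [hC₀ u v])
  set C : ℝ := 6 ^ (∑ t, d * n t) + Cb with hC
  have h61 : (1 : ℝ) ≤ 6 ^ (∑ t, d * n t) := one_le_pow₀ (by norm_num)
  refine ⟨d * k * Fintype.card V, ∑ t, d * n t, C, ?_, ?_, ?_, ?_, ?_, ?_⟩
  · linarith
  · exact fun X => Nat.cast_nonneg _
  · intro v X
    exact_mod_cast Set.ncard_le_ncard (US_sub_TS T v X) (TS_finite T v X)
  · intro v X ρ hX hρ hρX
    refine (TS_pack T v X ρ hρ hρX).trans ?_
    refine mul_le_mul_of_nonneg_right ?_ (Nat.cast_nonneg _)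
    rw [mul_div_assoc, mul_pow]
    have h0 : 0 ≤ X v / ρ := by
      have := hX v
      positivity
    refine mul_le_mul_of_nonneg_right ?_ (by positivity)
    calc (3 : ℝ) ^ (d * (n v - k)) ≤ 6 ^ (d * (n v - k)) :=
          pow_le_pow_left₀ (by norm_num) (by norm_num) _
      _ ≤ 6 ^ (∑ t, d * n t) := by
          refine pow_le_pow_right₀ (by norm_num) ?_
          refine (Nat.mul_le_mul_left d (Nat.sub_le _ _)).trans ?_
          exact Finset.single_le_sum (f := fun t => d * n t) (fun _ _ => Nat.zero_le _)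
            (Finset.mem_univ v)
      _ ≤ C := by rw [hC]; linarith
  · intro v X g hX hg hgX
    have hX0 : ∀ u, 0 < X u := fun u => by linarith [hX u]
    have hN := Nm_pos (a := fun v => d * (n v - k)) hX0
    have hsub : TS T v X ⊆ US T X ∪ ⋃ u ∈ (Finset.univ.erase v), Bd T u v X := by
      intro x hx
      by_cases h : ∀ u, Gd T u x
      · exact Or.inl ⟨hx.1, hx.2.1, h⟩
      · push Not at h
        obtain ⟨u, hu⟩ := h
        refine Or.inr ?_
        simp only [Set.mem_iUnion]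
        refine ⟨u, Finset.mem_erase.2 ⟨?_, Finset.mem_univ _⟩, hx, hu⟩
        rintro rfl
        exact hu hx.2.2
    have hBf : ∀ u, (Bd T u v X).Finite := fun u => (TS_finite T v X).subset fun _ h => h.1
    have hbf : (⋃ u ∈ (Finset.univ.erase v), Bd T u v X).Finite :=
      Set.Finite.biUnion (Finset.finite_toSet _) fun u _ => hBf u
    have h1 : (TS T v X).ncard ≤ (US T X).ncard + ∑ u ∈ Finset.univ.erase v,
        (Bd T u v X).ncard := by
      refine (Set.ncard_le_ncard hsub ((US_finite T X).union hbf)).trans ?_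
      refine (Set.ncard_union_le _ _).trans ?_
      refine Nat.add_le_add_left ?_ _
      exact Finset.set_ncard_biUnion_le _ _
    have h2 : ∀ u ∈ Finset.univ.erase v, ((Bd T u v X).ncard : ℝ) ≤
        6 ^ (∑ t, d * n t) * C₀ u v * Nm (fun t => d * (n t - k)) X *
          (g ^ (d * k * Fintype.card V) / X v) := by
      intro u hu
      have huv : u ≠ v := Finset.ne_of_mem_erase hu
      exact (Bd_le T huv X hX (hkn u) hg hgX (hC₀ u v) (hCB u v huv)).trans
        (bad_fin huv X hX hd1 hg hgX (hC₀ u v) hR hn hm)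
    have hpos : 0 ≤ Nm (fun t => d * (n t - k)) X * (g ^ (d * k * Fintype.card V) / X v) := by
      have := hX0 v
      positivity
    have h3 : ∑ u ∈ Finset.univ.erase v, ((Bd T u v X).ncard : ℝ) ≤
        Cb * (Nm (fun t => d * (n t - k)) X * (g ^ (d * k * Fintype.card V) / X v)) := by
      calc ∑ u ∈ Finset.univ.erase v, ((Bd T u v X).ncard : ℝ)
          ≤ ∑ u ∈ Finset.univ.erase v, 6 ^ (∑ t, d * n t) * C₀ u v *
            Nm (fun t => d * (n t - k)) X * (g ^ (d * k * Fintype.card V) / X v) :=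
            Finset.sum_le_sum h2
        _ = (6 ^ (∑ t, d * n t) * ∑ u ∈ Finset.univ.erase v, C₀ u v) *
            (Nm (fun t => d * (n t - k)) X * (g ^ (d * k * Fintype.card V) / X v)) := by
            rw [Finset.mul_sum, Finset.sum_mul]
            exact Finset.sum_congr rfl fun u _ => by ring
        _ ≤ _ := by
            refine mul_le_mul_of_nonneg_right ?_ hpos
            rw [hCb]
            refine mul_le_mul_of_nonneg_left ?_ (by positivity)
            refine (Finset.sum_le_sum_of_subset_of_nonneg (Finset.erase_subset _ _)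
              fun u _ _ => (by linarith [hC₀ u v])).trans ?_
            exact Finset.single_le_sum (f := fun v => ∑ u, C₀ u v)
              (fun v _ => Finset.sum_nonneg fun u _ => (by linarith [hC₀ u v])) (Finset.mem_univ v)
    have h4 : ((TS T v X).ncard : ℝ) ≤ (US T X).ncard + ∑ u ∈ Finset.univ.erase v,
        ((Bd T u v X).ncard : ℝ) := by exact_mod_cast h1
    have h5 : Cb * (Nm (fun t => d * (n t - k)) X * (g ^ (d * k * Fintype.card V) / X v)) ≤
        C * (Nm (fun t => d * (n t - k)) X * (g ^ (d * k * Fintype.card V) / X v)) := by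
      refine mul_le_mul_of_nonneg_right ?_ hpos
      rw [hC]
      linarith
    rw [mul_assoc]
    linarith
  · intro M X hM hX hXM
    have h1 := box_card (F := F) n ∅ X hX
    have h2 : ((US T X).ncard : ℝ) ≤
        ({y : Tup n (𝓞 F) | (∀ u ∈ (∅ : Finset V), y u = 0) ∧ ∀ u, ‖io (y u)‖ ≤ X u}.ncard : ℝ) := by
      have : US T X ⊆ {y : Tup n (𝓞 F) | (∀ u ∈ (∅ : Finset V), y u = 0) ∧
          ∀ u, ‖io (y u)‖ ≤ X u} := fun x hx => ⟨by simp, hx.1⟩
      exact_mod_cast Set.ncard_le_ncard this ((box_finite X).subset fun y hy => hy.2)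
    refine h2.trans (h1.trans ?_)
    calc ∏ u, (if u ∈ (∅ : Finset V) then 1 else (6 * X u) ^ (d * n u))
        = ∏ u, (6 * X u) ^ (d * n u) := by
          refine Finset.prod_congr rfl fun u _ => ?_
          rw [if_neg (Finset.notMem_empty u)]
      _ ≤ ∏ u, (6 * M) ^ (d * n u) := by
          refine Finset.prod_le_prod (fun u _ => ?_) fun u _ => ?_
          · have := hX u
            positivity
          · have := hX u
            have := hXM u
            gcongr
      _ = 6 ^ (∑ t, d * n t) * M ^ (∑ t, d * n t) := by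
          rw [Finset.prod_pow_eq_pow_sum, mul_pow]
      _ ≤ C * M ^ (∑ t, d * n t) := by
          refine mul_le_mul_of_nonneg_right ?_ (by positivity)
          rw [hC]
          linarith

end Pool.Agent.L5helper6.BF
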