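import Pool.Agent.L5helper6.BF.Gen

/-!
The existence of a rational point in the open set.
-/

namespace Pool.Agent.L5helper6.BF

open scoped Classical
open NumberField Module Function
open Pool.Agent Pool.Agent.N852.GR

set_option linter.unusedSectionVars false

variable {A B : Type} [Fintype A] [Fintype B] [DecidableEq A] [DecidableEq B] {N : A → ℕ}
  {M : B → ℕ} {k : ℕ} {K : Type} [Field K] [CharZero K]

theorem ad_of_li {T : Fin k → Ten (dm N M) K} (hT : ∀ i, As (T i)) (hk : 1 ≤ k)
    {v : A ⊕ (B ⊕ B)} {x : Tup (dm N M) K} (h : LinearIndependent K (der T v x)) :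
    (∀ t, t ≠ v → x t ≠ 0) ∧ ∀ b : B, yi b ≠ v → zi b ≠ v →
      LinearIndependent K ![(x (yi b) : Fin (M b) → K), x (zi b)] := by
  obtain ⟨l, hl⟩ : ∃ l, ev (T ⟨0, hk⟩) (update x v (Pi.single l 1)) ≠ 0 := by
    by_contra hcon
    push Not at hcon
    apply h.ne_zero ⟨0, hk⟩
    funext l
    exact hcon l
  constructor
  · intro t h1 h2
    exact hl (ev_zero _ t _ (by rw [update_of_ne h1]; exact h2))
  · intro b h1 h2
    by_contra hcon
    apply hl
    refine ev_dep (hT _) b _ ?_
    rw [update_of_ne h1, update_of_ne h2]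
    exact hcon

/-- A vector of a factor. -/
def slot : A ⊕ B → A ⊕ (B ⊕ B)
  | Sum.inl a => Sum.inl a
  | Sum.inr b => yi b

theorem gr_slot (j : A ⊕ B) : gr (slot j) = j := by
  rcases j with a | b <;> rfl

theorem exists_other [Nontrivial (A ⊕ B)] (t : A ⊕ (B ⊕ B)) : ∃ u, gr u ≠ gr t := by
  obtain ⟨j, hj⟩ := exists_ne (gr t)
  exact ⟨slot j, by rw [gr_slot]; exact hj⟩

theorem Op_pair (T : Fin k → Ten (dm N M) K) (b : B) (v : A ⊕ (B ⊕ B)) (x : Tup (dm N M) K) :
    Op (K := K) fun z => LinearIndependent K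
      (Sum.elim (fun i => (der T (yi b) (update x v z) i : Fin (M b) → K))
        fun i => (der T (zi b) (update x v z) i : Fin (M b) → K)) := by
  refine Op_li (fun z => Sum.elim (fun i => (der T (yi b) (update x v z) i : Fin (M b) → K))
        fun i => (der T (zi b) (update x v z) i : Fin (M b) → K)) ?_
  rintro z z' t (i | i)
  · exact der_affine T (yi b) v x z z' t i
  · exact der_affine T (zi b) v x z z' t i

theorem li_swap {W ι : Type} [AddCommGroup W] [Module K W] {f g : ι → W}
    (h : LinearIndependent K (Sum.elim f g)) : LinearIndependent K (Sum.elim g f) := by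
  have h1 := h.comp Sum.swap (Sum.swap_leftInverse.injective)
  have e : Sum.elim f g ∘ Sum.swap = Sum.elim g f := by
    funext i
    rcases i with i | i <;> rfl
  rwa [e] at h1

/-- **A rational point of the open set.** -/
theorem exists_x [Infinite K] [Nontrivial (A ⊕ B)] {T : Fin k → Ten (dm N M) K}
    (hT : ∀ i, As (T i)) (hk : 1 ≤ k) (hN : ∀ a, 1 ≤ N a) (hM : ∀ b, 2 ≤ M b) {R : ℕ}
    (hR : 2 * k ≤ R) (hRB : ∀ _ : B, 3 * k ≤ R)
    (h : ∀ u v : A ⊕ (B ⊕ B), u ≠ v → ∀ x : Tup (dm N M) K, Ad u v x → RkF T u v R x) :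
    ∃ x : Tup (dm N M) K, Inc T x ∧ GG T x ∧ (∀ t, x t ≠ 0) ∧
      ∀ b : B, LinearIndependent K ![(x (yi b) : Fin (M b) → K), x (zi b)] := by
  -- the first family
  let x₀ : Tup (dm N M) K := fun t => match t with
    | Sum.inl a => Pi.single (⟨0, hN a⟩ : Fin (N a)) 1
    | Sum.inr (Sum.inl b) => Pi.single (⟨0, by have := hM b; omega⟩ : Fin (M b)) 1
    | Sum.inr (Sum.inr b) => Pi.single (⟨1, by have := hM b; omega⟩ : Fin (M b)) 1
  have hx₀ : ∀ t, x₀ t ≠ 0 := by
    rintro (a | b | b) h0
    · have := congrFun h0 (⟨0, hN a⟩ : Fin (N a))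
      simp [x₀] at this
    · have := congrFun h0 (⟨0, by have := hM b; omega⟩ : Fin (M b))
      simp [x₀] at this
    · have := congrFun h0 (⟨1, by have := hM b; omega⟩ : Fin (M b))
      simp [x₀] at this
  have hx₀' : ∀ b, LinearIndependent K ![(x₀ (yi b) : Fin (M b) → K), x₀ (zi b)] := by
    intro b
    rw [LinearIndependent.pair_iff]
    intro s t hst
    have h1 := congrFun hst (⟨0, by have := hM b; omega⟩ : Fin (M b))
    have h2 := congrFun hst (⟨1, by have := hM b; omega⟩ : Fin (M b))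
    simp [x₀, Pi.single_apply] at h1 h2
    exact ⟨h1, h2⟩
  obtain ⟨j₀⟩ : Nonempty (A ⊕ B) := inferInstance
  obtain ⟨v₁, hv₁⟩ := exists_other (slot j₀ : A ⊕ (B ⊕ B))
  set v₀ : A ⊕ (B ⊕ B) := slot j₀ with hv₀
  have hne : v₀ ≠ v₁ := fun h0 => hv₁ (by rw [h0])
  obtain ⟨z₁, hz₁⟩ := ex_one T hne (h v₀ v₁ hne x₀ ⟨fun t _ _ => hx₀ t, fun b _ _ _ _ => hx₀' b⟩)
    hk hR ⊤ (by rw [finrank_top, finrank_fin_fun]; omega)
  set x₁ := update x₀ v₁ (z₁ : Fin (dm N M v₁) → K) with hx₁
  obtain ⟨ha1, ha2⟩ := ad_of_li hT hk hz₁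
  -- the equations
  obtain ⟨z₂, hz₂⟩ := Op_ex_all (K := K) (W := kr T v₀ x₁) (J := {u : A ⊕ (B ⊕ B) // u ≠ v₀})
    (P := fun u z => LinearIndependent K (der T u.1 (update x₁ v₀ (z : Fin (dm N M v₀) → K))))
    (fun u => Op_sub (Op_der T u.1 v₀ x₁) _) (fun u => by
      obtain ⟨z, hz⟩ := ex_one T u.2 (h u.1 v₀ u.2 x₁ ⟨fun t _ ht => ha1 t ht,
        fun b _ h2 _ h4 => ha2 b h2 h4⟩) hk hR (kr T v₀ x₁) (kr_dim T v₀ x₁)
      exact ⟨z, hz⟩)
  have key : ∀ s : Finset B, ∃ x : Tup (dm N M) K, Inc T x ∧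
      (∀ u, LinearIndependent K (der T u x)) ∧ ∀ b ∈ s, LinearIndependent K
        (Sum.elim (fun i => (der T (yi b) x i : Fin (M b) → K))
          fun i => (der T (zi b) x i : Fin (M b) → K)) := by
    intro s
    induction s using Finset.induction_on with
    | empty =>
      refine ⟨update x₁ v₀ (z₂ : Fin (dm N M v₀) → K), (mem_kr T v₀ x₁ _).1 z₂.2, fun u => ?_,
        fun b hb => absurd hb (Finset.notMem_empty b)⟩
      by_cases hu : u = v₀
      · rw [hu, der_update]
        exact hz₁
      · exact hz₂ ⟨u, hu⟩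
    | insert b s _ ih =>
      obtain ⟨x, h1, h2, h3⟩ := ih
      have had : Ad (yi b) (zi b) x := by
        obtain ⟨u, hu⟩ := exists_other (yi b : A ⊕ (B ⊕ B))
        constructor
        · intro t _ _
          obtain ⟨u', hu'⟩ := exists_other t
          exact (ad_of_li hT hk (h2 u')).1 t fun h0 => hu' (by rw [h0])
        · intro b' h4 h5 h6 h7
          obtain ⟨u', hu'⟩ := exists_other (yi b' : A ⊕ (B ⊕ B))
          exact (ad_of_li hT hk (h2 u')).2 b' (fun h0 => hu' (by rw [← h0]))
            (fun h0 => hu' (by rw [← h0]; rfl))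
      obtain ⟨z, ⟨hz1, hz2⟩, hz3⟩ := Op_ex (K := K) (W := kr T (zi b) x)
        (P := fun z => (∀ u, LinearIndependent K
          (der T u (update x (zi b) (z : Fin (M b) → K)))) ∧ ∀ b' : s, LinearIndependent K
          (Sum.elim (fun i => (der T (yi b'.1) (update x (zi b) (z : Fin (M b) → K)) i :
            Fin (M b'.1) → K))
          fun i => (der T (zi b'.1) (update x (zi b) (z : Fin (M b) → K)) i :
            Fin (M b'.1) → K)))
        (Q := fun z => LinearIndependent K
          (Sum.elim (fun i => (der T (yi b) (update x (zi b) (z : Fin (M b) → K)) i :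
            Fin (M b) → K))
          fun i => (der T (zi b) (update x (zi b) (z : Fin (M b) → K)) i :
            Fin (M b) → K)))
        (Op_and (Op_forall fun u => Op_sub (Op_der T u (zi b) x) _)
          (Op_forall fun b' => Op_sub (Op_pair T b'.1 (zi b) x) _))
        (Op_sub (Op_pair T b (zi b) x) _)
        ⟨⟨x (zi b), (mem_kr T (zi b) x _).2 (by rw [update_eq_self]; exact h1)⟩, by
          constructor
          · intro u
            show LinearIndependent K (der T u (update x (zi b) (x (zi b))))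
            rw [update_eq_self]
            exact h2 u
          · intro b'
            show LinearIndependent K (Sum.elim
              (fun i => (der T (yi b'.1) (update x (zi b) (x (zi b))) i : Fin (M b'.1) → K))
              fun i => (der T (zi b'.1) (update x (zi b) (x (zi b))) i : Fin (M b'.1) → K))
            rw [update_eq_self]
            exact h3 b'.1 b'.2⟩
        (by
          obtain ⟨z, hz⟩ := ex_two T (yz b) (h (yi b) (zi b) (yz b) x had) hk (hRB b)
            (kr T (zi b) x) (kr_dim T (zi b) x) (der T (zi b) x) (h2 (zi b))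
          refine ⟨z, ?_⟩
          have h4 := li_swap hz
          have e : der T (zi b) (update x (zi b) (z : Fin (M b) → K)) = der T (zi b) x :=
            der_update T (zi b) x _
          show LinearIndependent K (Sum.elim (der T (yi b) (update x (zi b) (z : Fin (M b) → K)))
            (der T (zi b) (update x (zi b) (z : Fin (M b) → K))))
          rw [e]
          exact h4)
      refine ⟨update x (zi b) (z : Fin (M b) → K), (mem_kr T (zi b) x _).1 z.2, hz1,
        fun b' hb' => ?_⟩
      rw [Finset.mem_insert] at hb'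
      rcases hb' with rfl | hb'
      · exact hz3
      · exact hz2 ⟨b', hb'⟩
  obtain ⟨x, h1, h2, h3⟩ := key Finset.univ
  refine ⟨x, h1, ⟨fun a => h2 (Sum.inl a), fun b => h3 b (Finset.mem_univ b)⟩, ?_, ?_⟩
  · intro t
    obtain ⟨u, hu⟩ := exists_other t
    exact (ad_of_li hT hk (h2 u)).1 t fun h0 => hu (by rw [h0])
  · intro b
    obtain ⟨u', hu'⟩ := exists_other (yi b : A ⊕ (B ⊕ B))
    exact (ad_of_li hT hk (h2 u')).2 b (fun h0 => hu' (by rw [← h0]))
      (fun h0 => hu' (by rw [← h0]; rfl))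

end Pool.Agent.L5helper6.BF
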