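import Pool.Agent.L5helper6.BF.Red2
import Pool.Agent.L5helper6.BF.BB

/-!
The bound for the bad families from the rank condition.
-/

namespace Pool.Agent.L5helper6.BF

open scoped Classical
open NumberField Module Function
open Pool.Agent Pool.Agent.N852.GR

set_option linter.unusedSectionVars false

variable {F : Type} [Field F] [NumberField F]
variable {A B : Type} [Fintype A] [Fintype B] [DecidableEq A] [DecidableEq B] {N : A → ℕ}
  {M : B → ℕ} {k : ℕ}

/-- The set of parameters. -/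
def KK (F : Type) [Field F] [NumberField F] (N : A → ℕ) (M : B → ℕ) (u v : A ⊕ (B ⊕ B)) (κ : ℝ) :
    Set (Tup (dm N M) (EE F)) :=
  {x | (∀ t, ‖(x t : Fin (dm N M t) → EE F)‖ ≤ 1) ∧
    (∀ t, t ≠ u → t ≠ v → (∀ w, ∃ m, κ ≤ ‖pr w (x t m)‖) ∧ ∀ w, ∃ m, κ ≤ ‖pc w (x t m)‖) ∧
    ∀ b : B, yi b ≠ u → yi b ≠ v → zi b ≠ u → zi b ≠ v →
      (∀ w, ∃ p : Fin (M b) × Fin (M b), κ ≤ ‖pr w (x (yi b) p.1 * x (zi b) p.2 -
        x (yi b) p.2 * x (zi b) p.1)‖) ∧
      ∀ w, ∃ p : Fin (M b) × Fin (M b), κ ≤ ‖pc w (x (yi b) p.1 * x (zi b) p.2 -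
        x (yi b) p.2 * x (zi b) p.1)‖}

theorem pr_cont (w : {w : InfinitePlace F // w.IsReal}) : Continuous (pr w) := by
  show Continuous fun x : EE F => ((x.1 w : ℝ) : ℂ)
  exact Complex.continuous_ofReal.comp ((continuous_apply w).comp continuous_fst)

theorem pc_cont (w : {w : InfinitePlace F // w.IsComplex}) : Continuous (pc w) := by
  show Continuous fun x : EE F => x.2 w
  exact (continuous_apply w).comp continuous_snd

theorem closed_ex {X ι : Type*} [TopologicalSpace X] [Finite ι] (f : ι → X → ℝ)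
    (hf : ∀ i, Continuous (f i)) (κ : ℝ) : IsClosed {x | ∃ i, κ ≤ f i x} := by
  have e : {x | ∃ i, κ ≤ f i x} = ⋃ i, {x | κ ≤ f i x} := by
    ext x
    simp
  rw [e]
  exact isClosed_iUnion_of_finite fun i => isClosed_le continuous_const (hf i)

theorem KK_compact (u v : A ⊕ (B ⊕ B)) (κ : ℝ) : IsCompact (KK F N M u v κ) := by
  have h1 : IsCompact (Set.pi Set.univ fun t : A ⊕ (B ⊕ B) =>
      Metric.closedBall (0 : Fin (dm N M t) → EE F) 1) :=
    isCompact_univ_pi fun t => isCompact_closedBall _ _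
  refine h1.of_isClosed_subset ?_ ?_
  · have e : KK F N M u v κ =
        (⋂ t, {x : Tup (dm N M) (EE F) | ‖(x t : Fin (dm N M t) → EE F)‖ ≤ 1}) ∩
        ((⋂ t, ⋂ (_ : t ≠ u), ⋂ (_ : t ≠ v),
          ((⋂ w, {x : Tup (dm N M) (EE F) | ∃ m, κ ≤ ‖pr w (x t m)‖}) ∩
            ⋂ w, {x : Tup (dm N M) (EE F) | ∃ m, κ ≤ ‖pc w (x t m)‖})) ∩
        ⋂ b : B, ⋂ (_ : yi b ≠ u), ⋂ (_ : yi b ≠ v), ⋂ (_ : zi b ≠ u), ⋂ (_ : zi b ≠ v),
          ((⋂ w, {x : Tup (dm N M) (EE F) | ∃ p : Fin (M b) × Fin (M b),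
            κ ≤ ‖pr w (x (yi b) p.1 * x (zi b) p.2 - x (yi b) p.2 * x (zi b) p.1)‖}) ∩
          ⋂ w, {x : Tup (dm N M) (EE F) | ∃ p : Fin (M b) × Fin (M b),
            κ ≤ ‖pc w (x (yi b) p.1 * x (zi b) p.2 - x (yi b) p.2 * x (zi b) p.1)‖})) := by
      ext x
      simp only [KK, Set.mem_ofPred_eq, Set.mem_inter_iff, Set.mem_iInter]
    rw [e]
    have hc : ∀ (t : A ⊕ (B ⊕ B)) (m : Fin (dm N M t)),
        Continuous fun x : Tup (dm N M) (EE F) => x t m := fun t m =>
      (continuous_apply m).comp (continuous_apply t)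
    refine IsClosed.inter ?_ (IsClosed.inter ?_ ?_)
    · exact isClosed_iInter fun t => isClosed_le (continuous_norm.comp (continuous_apply t))
        continuous_const
    · refine isClosed_iInter fun t => isClosed_iInter fun _ => isClosed_iInter fun _ =>
        IsClosed.inter ?_ ?_
      · refine isClosed_iInter fun w => closed_ex _ (fun m => ?_) κ
        exact continuous_norm.comp ((pr_cont w).comp (hc t m))
      · refine isClosed_iInter fun w => closed_ex _ (fun m => ?_) κ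
        exact continuous_norm.comp ((pc_cont w).comp (hc t m))
    · refine isClosed_iInter fun b => isClosed_iInter fun _ => isClosed_iInter fun _ =>
        isClosed_iInter fun _ => isClosed_iInter fun _ => IsClosed.inter ?_ ?_
      · refine isClosed_iInter fun w => closed_ex _ (fun p => ?_) κ
        exact continuous_norm.comp ((pr_cont w).comp
          (((hc (yi b) p.1).mul (hc (zi b) p.2)).sub ((hc (yi b) p.2).mul (hc (zi b) p.1))))
      · refine isClosed_iInter fun w => closed_ex _ (fun p => ?_) κ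
        exact continuous_norm.comp ((pc_cont w).comp
          (((hc (yi b) p.1).mul (hc (zi b) p.2)).sub ((hc (yi b) p.2).mul (hc (zi b) p.1))))
  · intro x hx t _
    rw [Metric.mem_closedBall, dist_zero_right]
    exact hx.1 t

/-- The rank condition. -/
def RC (T : Fin k → Ten (dm N M) (𝓞 F)) (R : ℕ) : Prop :=
  ∀ σ : F →+* ℂ, ∀ u v : A ⊕ (B ⊕ B), u ≠ v → ∀ x : Tup (dm N M) ℂ, Ad u v x →
    RkAt (ts T σ) u v R x

theorem li_of_minor {m : ℕ} {a b : Fin m → ℂ} {i j : Fin m} (h : a i * b j - a j * b i ≠ 0) :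
    LinearIndependent ℂ ![a, b] := by
  rw [LinearIndependent.pair_iff]
  intro s t hst
  have h1 : s * a i + t * b i = 0 := congrFun hst i
  have h2 : s * a j + t * b j = 0 := congrFun hst j
  constructor
  · have : s * (a i * b j - a j * b i) = 0 := by linear_combination b j * h1 - b i * h2
    exact (mul_eq_zero.1 this).resolve_right h
  · have : t * (a i * b j - a j * b i) = 0 := by linear_combination a i * h2 - a j * h1
    exact (mul_eq_zero.1 this).resolve_right h

theorem RCe_KK {T : Fin k → Ten (dm N M) (𝓞 F)} {R : ℕ} (h : RC T R) {u v : A ⊕ (B ⊕ B)}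
    (huv : u ≠ v) {κ : ℝ} (hκ : 0 < κ) {x : Tup (dm N M) (EE F)} (hx : x ∈ KK F N M u v κ) :
    RCe (mt (te T) u v x) R := by
  obtain ⟨-, hx1, hx2⟩ := hx
  refine RCe_of T u v R x (fun w => h _ u v huv _ ⟨?_, ?_⟩) (fun w => h _ u v huv _ ⟨?_, ?_⟩)
  · intro t h1 h2 h3
    obtain ⟨m, hm⟩ := (hx1 t h1 h2).1 w
    have h4 : pr w (x t m) = 0 := congrFun h3 m
    rw [h4, norm_zero] at hm
    linarith
  · intro b h1 h2 h3 h4
    obtain ⟨p, hp⟩ := (hx2 b h1 h2 h3 h4).1 w
    refine li_of_minor (i := p.1) (j := p.2) ?_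
    intro h0
    rw [map_sub, map_mul, map_mul, h0, norm_zero] at hp
    linarith
  · intro t h1 h2 h3
    obtain ⟨m, hm⟩ := (hx1 t h1 h2).2 w
    have h4 : pc w (x t m) = 0 := congrFun h3 m
    rw [h4, norm_zero] at hm
    linarith
  · intro b h1 h2 h3 h4
    obtain ⟨p, hp⟩ := (hx2 b h1 h2 h3 h4).2 w
    refine li_of_minor (i := p.1) (j := p.2) ?_
    intro h0
    rw [map_sub, map_mul, map_mul, h0, norm_zero] at hp
    linarith

/-! ### The reduced families are balanced -/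

theorem pair_bal {m : ℕ} {c : ℝ} (hc : 0 < c) {a b : Fin m → 𝓞 F} (ha : a ≠ 0) (hb : b ≠ 0)
    {w : InfinitePlace F} {p : Fin m × Fin m}
    (h : c * (‖io a‖ * ‖io b‖) ≤ w (pl (co a) (co b) p)) :
    (∃ i, c / 2 * ‖io a‖ ≤ w (a i : F)) ∧ ∃ i, c / 2 * ‖io b‖ ≤ w (b i : F) := by
  have hA : 0 < ‖io a‖ := Ctt.io_pos ha
  have hB : 0 < ‖io b‖ := Ctt.io_pos hb
  have h1 : w (pl (co a) (co b) p) ≤
      w (a p.1 : F) * w (b p.2 : F) + w (a p.2 : F) * w (b p.1 : F) := by
    show w ((a p.1 : F) * (b p.2 : F) - (a p.2 : F) * (b p.1 : F)) ≤ _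
    have h2 := w.1.add_le ((a p.1 : F) * (b p.2 : F)) (-((a p.2 : F) * (b p.1 : F)))
    rw [← sub_eq_add_neg] at h2
    have h3 : w.1 (-((a p.2 : F) * (b p.1 : F))) = w (a p.2 : F) * w (b p.1 : F) := by
      rw [w.1.map_neg]
      exact w.1.map_mul _ _
    have h4 : w.1 ((a p.1 : F) * (b p.2 : F)) = w (a p.1 : F) * w (b p.2 : F) := w.1.map_mul _ _
    rw [h3, h4] at h2
    exact h2
  have hw : ∀ i, 0 ≤ w (a i : F) := fun i => w.1.nonneg _
  have hw' : ∀ i, 0 ≤ w (b i : F) := fun i => w.1.nonneg _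
  constructor
  · by_contra hcon
    push Not at hcon
    have h2 := hcon p.1
    have h3 := hcon p.2
    have h4 : w (a p.1 : F) * w (b p.2 : F) ≤ w (a p.1 : F) * ‖io b‖ :=
      mul_le_mul_of_nonneg_left (Ctt.w_le b p.2 w) (hw _)
    have h5 : w (a p.2 : F) * w (b p.1 : F) ≤ w (a p.2 : F) * ‖io b‖ :=
      mul_le_mul_of_nonneg_left (Ctt.w_le b p.1 w) (hw _)
    have h6 : w (a p.1 : F) * ‖io b‖ < c / 2 * ‖io a‖ * ‖io b‖ := by
      exact mul_lt_mul_of_pos_right h2 hB
    have h7 : w (a p.2 : F) * ‖io b‖ < c / 2 * ‖io a‖ * ‖io b‖ := by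
      exact mul_lt_mul_of_pos_right h3 hB
    nlinarith
  · by_contra hcon
    push Not at hcon
    have h2 := hcon p.1
    have h3 := hcon p.2
    have h4 : w (a p.1 : F) * w (b p.2 : F) ≤ ‖io a‖ * w (b p.2 : F) :=
      mul_le_mul_of_nonneg_right (Ctt.w_le a p.1 w) (hw' _)
    have h5 : w (a p.2 : F) * w (b p.1 : F) ≤ ‖io a‖ * w (b p.1 : F) :=
      mul_le_mul_of_nonneg_right (Ctt.w_le a p.2 w) (hw' _)
    have h6 : ‖io a‖ * w (b p.2 : F) < ‖io a‖ * (c / 2 * ‖io b‖) := by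
      exact mul_lt_mul_of_pos_left h3 hA
    have h7 : ‖io a‖ * w (b p.1 : F) < ‖io a‖ * (c / 2 * ‖io b‖) := by
      exact mul_lt_mul_of_pos_left h2 hA
    nlinarith

theorem norm_pr_emb (w : {w : InfinitePlace F // w.IsReal}) (x : F) :
    ‖pr w (mixedEmbedding F x)‖ = w.1 x := by
  rw [pr_emb, InfinitePlace.norm_embedding_eq]

theorem norm_pc_emb (w : {w : InfinitePlace F // w.IsComplex}) (x : F) :
    ‖pc w (mixedEmbedding F x)‖ = w.1 x := by
  rw [pc_emb, InfinitePlace.norm_embedding_eq]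

theorem pr_smul (w : {w : InfinitePlace F // w.IsReal}) (c : ℝ) (x : EE F) :
    pr w (c • x) = (c : ℂ) * pr w x := by
  rw [pr_apply, pr_apply]
  show (((c * x.1 w : ℝ)) : ℂ) = _
  push_cast
  rfl

theorem pc_smul (w : {w : InfinitePlace F // w.IsComplex}) (c : ℝ) (x : EE F) :
    pc w (c • x) = (c : ℂ) * pc w x := by
  rw [pc_apply, pc_apply]
  show c • x.2 w = _
  rw [Complex.real_smul]

theorem smul_mul_pl (s t : ℝ) (a b c d : EE F) :
    (s • a) * (t • b) - (s • c) * (t • d) = (s * t) • (a * b - c * d) := by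
  rw [smul_mul_smul_comm, smul_mul_smul_comm, smul_sub]

/-- **The bound for the bad families from the rank condition.** -/
theorem bb (T : Fin k → Ten (dm N M) (𝓞 F)) (hT : ∀ i, As (T i)) (hk : 1 ≤ k) (R : ℕ)
    (hR : RC T R) (hRn : ∀ v, R ≤ dm N M v) : BB T R := by
  intro u v huv
  obtain ⟨κ₁, hκ₁, hκ₁', hml⟩ := ml_bal F
  obtain ⟨c, hc, harc⟩ := arcP F (pig1P F)
  set κ : ℝ := min κ₁ (c / 2) with hκd
  have hκ : 0 < κ := lt_min hκ₁ (by positivity)
  have hk1 : κ ≤ κ₁ := min_le_left _ _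
  have hk2 : κ ≤ c / 2 := min_le_right _ _
  refine bb_of T R huv (hRn v) (KK_compact u v κ) (fun x hx => RCe_KK hR huv hκ hx) ?_
  rintro y ⟨w, hw⟩
  obtain ⟨y', c', hc', h1, h2⟩ := reduce hT (ad_of_gd hT hk hw)
  -- the vectors are balanced
  have hbal : ∀ t, t ≠ u → t ≠ v → y' t ≠ 0 ∧ ∀ w : InfinitePlace F,
      ∃ i, κ * ‖io (y' t)‖ ≤ w (y' t i : F) := by
    intro t ht1 ht2
    have hml' : Ml (y' t : Fin (dm N M t) → 𝓞 F) → y' t ≠ 0 ∧ ∀ w : InfinitePlace F,
        ∃ i, κ * ‖io (y' t)‖ ≤ w (y' t i : F) := by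
      intro h
      refine ⟨h.1, fun w => ?_⟩
      obtain ⟨i, hi⟩ := hml _ _ h w
      exact ⟨i, (mul_le_mul_of_nonneg_right hk1 (norm_nonneg _)).trans hi⟩
    rcases t with a | b | b
    · exact hml' (h2 (Sum.inl a) ht1 ht2)
    · by_cases hz : zi b = u ∨ zi b = v
      · exact hml' ((h2 (Sum.inr b)).2.1 ht1 ht2 hz)
      · push Not at hz
        obtain ⟨P, hP⟩ := (h2 (Sum.inr b)).1 ht1 ht2 hz.1 hz.2
        have hane := hP.2.2.1
        have hbne : y' (zi b) ≠ 0 := by
          intro h0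
          apply hP.2.2.2.1
          have : co (y' (zi b) : Fin (M b) → 𝓞 F) = 0 := by
            have e : (y' (zi b) : Fin (M b) → 𝓞 F) = 0 := h0
            rw [e, co_zero']
          rw [this]
          exact Submodule.zero_mem _
        refine ⟨hane, fun w => ?_⟩
        obtain ⟨p, hp⟩ := harc _ _ _ _ hP w
        obtain ⟨i, hi⟩ := (pair_bal hc hane hbne hp).1
        exact ⟨i, (mul_le_mul_of_nonneg_right hk2 (norm_nonneg _)).trans hi⟩
    · by_cases hz : yi b = u ∨ yi b = v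
      · exact hml' ((h2 (Sum.inr b)).2.2 ht1 ht2 hz)
      · push Not at hz
        obtain ⟨P, hP⟩ := (h2 (Sum.inr b)).1 hz.1 hz.2 ht1 ht2
        have hane := hP.2.2.1
        have hbne : y' (zi b) ≠ 0 := by
          intro h0
          apply hP.2.2.2.1
          have : co (y' (zi b) : Fin (M b) → 𝓞 F) = 0 := by
            have e : (y' (zi b) : Fin (M b) → 𝓞 F) = 0 := h0
            rw [e, co_zero']
          rw [this]
          exact Submodule.zero_mem _
        refine ⟨hbne, fun w => ?_⟩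
        obtain ⟨p, hp⟩ := harc _ _ _ _ hP w
        obtain ⟨i, hi⟩ := (pair_bal hc hane hbne hp).2
        exact ⟨i, (mul_le_mul_of_nonneg_right hk2 (norm_nonneg _)).trans hi⟩
  set x : Tup (dm N M) (EE F) := fun t =>
    if t = u ∨ t = v then 0 else ‖io (y' t)‖⁻¹ • io (y' t) with hx
  have hxt : ∀ t, t ≠ u → t ≠ v → x t = ‖io (y' t)‖⁻¹ • io (y' t) := by
    intro t h3 h4
    have h5 : ¬ (t = u ∨ t = v) := by
      push Not
      exact ⟨h3, h4⟩
    simp only [hx]
    rw [if_neg h5]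
  have hpos : ∀ t, t ≠ u → t ≠ v → 0 < ‖io (y' t)‖ := fun t h3 h4 =>
    Ctt.io_pos (hbal t h3 h4).1
  set r : A ⊕ (B ⊕ B) → ℝ := fun t => if t = u ∨ t = v then 1 else ‖io (y' t)‖ with hr
  have hrpos : ∀ t, 0 < r t := by
    intro t
    simp only [hr]
    split_ifs with h3
    · norm_num
    · push Not at h3
      exact hpos t h3.1 h3.2
  refine ⟨y', c', ∏ t, r t, x, hc', Finset.prod_pos fun t _ => hrpos t, ⟨?_, ?_, ?_⟩, ?_, ?_⟩
  · -- the norm
    intro t
    by_cases h3 : t = u ∨ t = v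
    · have : x t = 0 := by
        simp only [hx]
        rw [if_pos h3]
      rw [this]
      show ‖(0 : Fin (dm N M t) → EE F)‖ ≤ 1
      rw [norm_zero]
      norm_num
    · push Not at h3
      rw [hxt t h3.1 h3.2, norm_smul, norm_inv, norm_norm,
        inv_mul_cancel₀ (hpos t h3.1 h3.2).ne']
  · intro t h3 h4
    have hp := hpos t h3 h4
    constructor
    · intro w
      obtain ⟨i, hi⟩ := (hbal t h3 h4).2 w.1
      refine ⟨i, ?_⟩
      rw [hxt t h3 h4]
      show κ ≤ ‖pr w (‖io (y' t)‖⁻¹ • mixedEmbedding F (y' t i : F))‖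
      rw [pr_smul, norm_mul, norm_pr_emb, Complex.norm_real, norm_inv, norm_norm,
        ← div_eq_inv_mul, le_div_iff₀ hp]
      exact hi
    · intro w
      obtain ⟨i, hi⟩ := (hbal t h3 h4).2 w.1
      refine ⟨i, ?_⟩
      rw [hxt t h3 h4]
      show κ ≤ ‖pc w (‖io (y' t)‖⁻¹ • mixedEmbedding F (y' t i : F))‖
      rw [pc_smul, norm_mul, norm_pc_emb, Complex.norm_real, norm_inv, norm_norm,
        ← div_eq_inv_mul, le_div_iff₀ hp]
      exact hi
  · intro b h3 h4 h5 h6
    obtain ⟨P, hP⟩ := (h2 (Sum.inr b)).1 h3 h4 h5 h6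
    have hp1 := hpos _ h3 h4
    have hp2 := hpos _ h5 h6
    have e : ∀ p : Fin (M b) × Fin (M b), x (yi b) p.1 * x (zi b) p.2 -
        x (yi b) p.2 * x (zi b) p.1 = (‖io (y' (yi b))‖⁻¹ * ‖io (y' (zi b))‖⁻¹) •
          mixedEmbedding F (pl (co (y' (yi b))) (co (y' (zi b))) p) := by
      intro p
      rw [hxt _ h3 h4, hxt _ h5 h6]
      show (‖io (y' (yi b))‖⁻¹ • mixedEmbedding F (y' (yi b) p.1 : F)) *
        (‖io (y' (zi b))‖⁻¹ • mixedEmbedding F (y' (zi b) p.2 : F)) -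
        (‖io (y' (yi b))‖⁻¹ • mixedEmbedding F (y' (yi b) p.2 : F)) *
        (‖io (y' (zi b))‖⁻¹ • mixedEmbedding F (y' (zi b) p.1 : F)) = _
      rw [smul_mul_pl, ← map_mul (mixedEmbedding F), ← map_mul (mixedEmbedding F),
        ← map_sub (mixedEmbedding F)]
      rfl
    have hc2 : κ ≤ c := by linarith
    constructor
    · intro w
      obtain ⟨p, hp⟩ := harc _ _ _ _ hP w.1
      refine ⟨p, ?_⟩
      rw [e, pr_smul, norm_mul, norm_pr_emb, Complex.norm_real, norm_mul, norm_inv, norm_norm,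
        norm_inv, norm_norm, ← mul_inv, ← div_eq_inv_mul, le_div_iff₀ (mul_pos hp1 hp2)]
      exact (mul_le_mul_of_nonneg_right hc2 (mul_pos hp1 hp2).le).trans hp
    · intro w
      obtain ⟨p, hp⟩ := harc _ _ _ _ hP w.1
      refine ⟨p, ?_⟩
      rw [e, pc_smul, norm_mul, norm_pc_emb, Complex.norm_real, norm_mul, norm_inv, norm_norm,
        norm_inv, norm_norm, ← mul_inv, ← div_eq_inv_mul, le_div_iff₀ (mul_pos hp1 hp2)]
      exact (mul_le_mul_of_nonneg_right hc2 (mul_pos hp1 hp2).le).trans hp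
  · intro i l l'
    rw [← mt_cF, ← mt_cF]
    exact h1 i l l'
  · intro i l l'
    have q1 : mixedEmbedding F ((mt T u v y' i l l' : 𝓞 F) : F) =
        mt (te T) u v (fun t => io (y' t)) i l l' := by
      have := mt_map ((mixedEmbedding F).comp (algebraMap (𝓞 F) F)) T u v y' i l l'
      exact this.symm
    have q2 : mt (te T) u v (fun t => io (y' t)) =
        mt (te T) u v (fun t => (algebraMap ℝ (EE F) (r t)) • x t) := by
      refine mt_congr _ fun t h3 h4 => ?_
      have h5 : r t = ‖io (y' t)‖ := by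
        simp only [hr]
        rw [if_neg]
        push Not
        exact ⟨h3, h4⟩
      rw [hxt t h3 h4, h5]
      funext m
      show io (y' t) m = algebraMap ℝ (EE F) ‖io (y' t)‖ * (‖io (y' t)‖⁻¹ • io (y' t) m)
      rw [← Algebra.smul_def, smul_smul, mul_inv_cancel₀ (hpos t h3 h4).ne', one_smul]
    rw [q1, q2, mt_smul]
    have q3 : update (update (fun t => algebraMap ℝ (EE F) (r t)) v 1) u 1 =
        fun t => algebraMap ℝ (EE F) (r t) := by
      funext t
      by_cases h3 : t = u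
      · subst h3
        have : r t = 1 := by simp [hr]
        rw [update_self, this, map_one]
      · rw [update_of_ne h3]
        by_cases h4 : t = v
        · subst h4
          have : r t = 1 := by simp [hr]
          rw [update_self, this, map_one]
        · rw [update_of_ne h4]
    rw [q3, ← map_prod, ← Algebra.smul_def]

end Pool.Agent.L5helper6.BF
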