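import Pool.Agent.L5helper6.BF.Fam

/-!
Change of frames.
-/

namespace Pool.Agent.L5helper6.BF

open scoped Classical
open NumberField Module Function
open Pool.Agent Pool.Agent.N852.GR

set_option linter.unusedSectionVars false

variable {A B : Type} [Fintype A] [Fintype B] [DecidableEq A] [DecidableEq B] {N : A → ℕ}
  {M : B → ℕ} {k : ℕ}

section gen

variable {K : Type} [Field K]

/-- The two families are frames of the same point. -/
def Eqf (x x' : Tup (dm N M) K) : Prop :=
  (∀ a, ∃ c : K, c ≠ 0 ∧ (x' (Sum.inl a) : Fin (N a) → K) = c • (x (Sum.inl a) : Fin (N a) → K)) ∧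
  ∀ b, ∃ α β γ δ : K, α * δ - β * γ ≠ 0 ∧
    (x' (yi b) : Fin (M b) → K) = α • (x (yi b) : Fin (M b) → K) + β • (x (zi b) : Fin (M b) → K) ∧
    (x' (zi b) : Fin (M b) → K) = γ • (x (yi b) : Fin (M b) → K) + δ • (x (zi b) : Fin (M b) → K)

/-- The factor of a vector. -/
def gr : A ⊕ (B ⊕ B) → A ⊕ B
  | Sum.inl a => Sum.inl a
  | Sum.inr (Sum.inl b) => Sum.inr b
  | Sum.inr (Sum.inr b) => Sum.inr b

theorem frame_ind {Q : Tup (dm N M) K → Prop}
    (h1 : ∀ (a : A) (x : Tup (dm N M) K) (c : K), c ≠ 0 → Q x →
      Q (update x (Sum.inl a) (c • (x (Sum.inl a) : Fin (N a) → K))))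
    (h2 : ∀ (b : B) (x : Tup (dm N M) K) (α β γ δ : K), α * δ - β * γ ≠ 0 → Q x →
      Q (st b x (α • (x (yi b) : Fin (M b) → K) + β • (x (zi b) : Fin (M b) → K))
        (γ • (x (yi b) : Fin (M b) → K) + δ • (x (zi b) : Fin (M b) → K))))
    {x x' : Tup (dm N M) K} (h : Eqf x x') (hx : Q x) : Q x' := by
  have key : ∀ s : Finset (A ⊕ B), Q (fun t => if gr t ∈ s then x' t else x t) := by
    intro s
    induction s using Finset.induction_on with
    | empty => simpa using hx
    | insert j s hj ih =>
      set z : Tup (dm N M) K := fun t => if gr t ∈ s then x' t else x t with hz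
      rcases j with a | b
      · obtain ⟨c, hc, hcx⟩ := h.1 a
        have hza : z (Sum.inl a) = x (Sum.inl a) := by
          simp only [hz]
          exact if_neg hj
        have h3 := h1 a z c hc ih
        have e : (fun t => if gr t ∈ insert (Sum.inl a) s then x' t else x t) =
            update z (Sum.inl a) (c • (z (Sum.inl a) : Fin (N a) → K)) := by
          funext t
          by_cases ht : t = Sum.inl a
          · subst ht
            have h4 : gr (Sum.inl a : A ⊕ (B ⊕ B)) ∈ insert (Sum.inl a) s :=
              Finset.mem_insert_self (Sum.inl a) s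
            rw [update_self, if_pos h4, hza]
            exact hcx
          · rw [update_of_ne ht]
            have h4 : gr t ≠ Sum.inl a := by
              intro h5
              rcases t with a' | b | b
              · have : a' = a := Sum.inl_injective h5
                exact ht (by rw [this])
              · exact absurd h5 (by simp [gr])
              · exact absurd h5 (by simp [gr])
            simp only [hz, Finset.mem_insert]
            simp only [h4, false_or]
        rw [e]
        exact h3
      · obtain ⟨α, β, γ, δ, hD, hy', hz'⟩ := h.2 b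
        have hzy : z (yi b) = x (yi b) := by
          simp only [hz]
          exact if_neg hj
        have hzz : z (zi b) = x (zi b) := by
          simp only [hz]
          exact if_neg hj
        have h3 := h2 b z α β γ δ hD ih
        have e : (fun t => if gr t ∈ insert (Sum.inr b) s then x' t else x t) =
            st b z (α • (z (yi b) : Fin (M b) → K) + β • (z (zi b) : Fin (M b) → K))
              (γ • (z (yi b) : Fin (M b) → K) + δ • (z (zi b) : Fin (M b) → K)) := by
          funext t
          by_cases ht : t = zi b
          · subst ht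
            have h4 : gr (zi b : A ⊕ (B ⊕ B)) ∈ insert (Sum.inr b) s :=
              Finset.mem_insert_self (Sum.inr b) s
            rw [st_zi, if_pos h4, hzy, hzz]
            exact hz'
          · by_cases ht' : t = yi b
            · subst ht'
              have h4 : gr (yi b : A ⊕ (B ⊕ B)) ∈ insert (Sum.inr b) s :=
                Finset.mem_insert_self (Sum.inr b) s
              rw [st_yi, if_pos h4, hzy, hzz]
              exact hy'
            · rw [st_ne b _ _ _ ht' ht]
              have h4 : gr t ≠ Sum.inr b := by
                intro h5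
                rcases t with a' | b' | b'
                · exact absurd h5 (by simp [gr])
                · have : b' = b := Sum.inr_injective h5
                  exact ht' (by rw [this])
                · have : b' = b := Sum.inr_injective h5
                  exact ht (by rw [this])
              simp only [hz, Finset.mem_insert]
              simp only [h4, false_or]
        rw [e]
        exact h3
  have h3 := key Finset.univ
  simpa using h3

/-! ### Linear independence -/

theorem li_scale {ι W : Type} [AddCommGroup W] [Module K W] {f g : ι → W} {c : K} (hc : c ≠ 0)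
    (h : ∀ i, g i = c • f i) : LinearIndependent K g ↔ LinearIndependent K f := by
  have e : g = fun i => (Units.mk0 c hc) • f i := by
    funext i
    rw [h i]
    rfl
  rw [e]
  exact LinearIndependent.units_smul_iff (v := f) (w := fun _ => Units.mk0 c hc)

theorem li_two {ι W : Type} [Fintype ι] [AddCommGroup W] [Module K W] {f g f' g' : ι → W}
    {α β γ δ : K} (hD : α * δ - β * γ ≠ 0) (h1 : ∀ i, f' i = δ • f i - γ • g i)
    (h2 : ∀ i, g' i = -(β • f i) + α • g i) (h : LinearIndependent K (Sum.elim f g)) :
    LinearIndependent K (Sum.elim f' g') := by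
  rw [Fintype.linearIndependent_iff] at h ⊢
  intro s hs
  rw [Fintype.sum_sum_type] at hs
  simp only [Sum.elim_inl, Sum.elim_inr] at hs
  have h3 := h (Sum.elim (fun i => δ * s (Sum.inl i) - β * s (Sum.inr i))
    fun i => α * s (Sum.inr i) - γ * s (Sum.inl i)) (by
      rw [Fintype.sum_sum_type]
      simp only [Sum.elim_inl, Sum.elim_inr]
      rw [← hs, ← Finset.sum_add_distrib, ← Finset.sum_add_distrib]
      refine Finset.sum_congr rfl fun i _ => ?_
      rw [h1, h2]
      module)
  have h4 : ∀ i, s (Sum.inl i) = 0 ∧ s (Sum.inr i) = 0 := by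
    intro i
    have e1 : δ * s (Sum.inl i) - β * s (Sum.inr i) = 0 := h3 (Sum.inl i)
    have e2 : α * s (Sum.inr i) - γ * s (Sum.inl i) = 0 := h3 (Sum.inr i)
    constructor
    · have : (α * δ - β * γ) * s (Sum.inl i) = 0 := by linear_combination α * e1 + β * e2
      exact (mul_eq_zero.1 this).resolve_left hD
    · have : (α * δ - β * γ) * s (Sum.inr i) = 0 := by linear_combination γ * e1 + δ * e2
      exact (mul_eq_zero.1 this).resolve_left hD
  rintro (i | i)
  · exact (h4 i).1
  · exact (h4 i).2

/-! ### The derivatives after a change of frames -/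

theorem der_line (T : Fin k → Ten (dm N M) K) {t v : A ⊕ (B ⊕ B)} (h : v ≠ t)
    (x : Tup (dm N M) K) (c : K) (i : Fin k) :
    der T v (update x t (c • x t)) i = c • der T v x i := by
  funext l
  show ev (T i) (update (update x t (c • x t)) v (Pi.single l 1)) = c * ev (T i) (update x v _)
  rw [update_comm h.symm]
  have := ev_smul1 (T i) t (update x v (Pi.single l 1)) c (x t)
  rw [this]
  congr 2
  rw [← update_comm h.symm, update_eq_self]

theorem der_plane [CharZero K] {T : Fin k → Ten (dm N M) K} (hT : ∀ i, As (T i)) {b : B}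
    {v : A ⊕ (B ⊕ B)} (h1 : v ≠ yi b) (h2 : v ≠ zi b) (x : Tup (dm N M) K) (α β γ δ : K)
    (i : Fin k) :
    der T v (st b x (α • (x (yi b) : Fin (M b) → K) + β • (x (zi b) : Fin (M b) → K))
      (γ • (x (yi b) : Fin (M b) → K) + δ • (x (zi b) : Fin (M b) → K))) i =
      (α * δ - β * γ) • der T v x i := by
  have e : ∀ (l : Fin (dm N M v)) (y z : Fin (M b) → K), update (st b x y z) v (Pi.single l 1) =
      st b (update x v (Pi.single l 1)) y z := by
    intro l y z
    unfold st
    rw [update_comm h2.symm, update_comm h1.symm]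
  funext l
  show ev (T i) (update (st b x _ _) v (Pi.single l 1)) = (α * δ - β * γ) * ev (T i) (update x v _)
  rw [e, ev_det (hT i), ← e, st_self]

theorem ev_swap [CharZero K] {t : Ten (dm N M) K} (ht : As t) (b : B) (x : Tup (dm N M) K)
    (y z : Fin (M b) → K) : ev t (st b x z y) = -ev t (st b x y z) := by
  have h := ev_det ht b x y z 0 1 1 0
  rw [zero_smul, one_smul, zero_add, one_smul, zero_smul, add_zero] at h
  rw [h]
  ring

theorem der_yi [CharZero K] {T : Fin k → Ten (dm N M) K} (hT : ∀ i, As (T i)) (b : B)
    (x : Tup (dm N M) K) (y' : Fin (M b) → K) (γ δ : K) (i : Fin k) :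
    der T (yi b) (st b x y' (γ • (x (yi b) : Fin (M b) → K) + δ • (x (zi b) : Fin (M b) → K))) i =
      δ • (der T (yi b) x i : Fin (M b) → K) - γ • (der T (zi b) x i : Fin (M b) → K) := by
  funext l
  show ev (T i) (update (st b x y' _) (yi b) (Pi.single l 1)) =
    δ * ev (T i) (update x (yi b) (Pi.single l 1)) -
    γ * ev (T i) (update x (zi b) (Pi.single l 1))
  have e1 : ∀ z' : Fin (M b) → K, update (st b x y' z') (yi b) (Pi.single l 1) =
      st b x (Pi.single l 1) z' := by
    intro z'
    unfold st
    rw [update_comm (yz b).symm, update_idem]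
  have e2 : update x (yi b) (Pi.single l 1) = st b x (Pi.single l 1) (x (zi b)) := by
    unfold st
    rw [update_comm (yz b), update_eq_self]
  have e3 : update x (zi b) (Pi.single l 1) = st b x (x (yi b)) (Pi.single l 1) := by
    unfold st
    rw [update_eq_self]
  rw [e1, ev_st2, e2, e3, ev_swap (hT i) b x (x (yi b)) (Pi.single l 1)]
  ring

theorem der_zi [CharZero K] {T : Fin k → Ten (dm N M) K} (hT : ∀ i, As (T i)) (b : B)
    (x : Tup (dm N M) K) (z' : Fin (M b) → K) (α β : K) (i : Fin k) :
    der T (zi b) (st b x (α • (x (yi b) : Fin (M b) → K) + β • (x (zi b) : Fin (M b) → K)) z') i =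
      -(β • (der T (yi b) x i : Fin (M b) → K)) + α • (der T (zi b) x i : Fin (M b) → K) := by
  funext l
  show ev (T i) (update (st b x _ z') (zi b) (Pi.single l 1)) =
    -(β * ev (T i) (update x (yi b) (Pi.single l 1))) +
    α * ev (T i) (update x (zi b) (Pi.single l 1))
  have e1 : ∀ y' : Fin (M b) → K, update (st b x y' z') (zi b) (Pi.single l 1) =
      st b x y' (Pi.single l 1) := by
    intro z'
    unfold st
    rw [update_idem]
  have e2 : update x (yi b) (Pi.single l 1) = st b x (Pi.single l 1) (x (zi b)) := by
    unfold st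
    rw [update_comm (yz b), update_eq_self]
  have e3 : update x (zi b) (Pi.single l 1) = st b x (x (yi b)) (Pi.single l 1) := by
    unfold st
    rw [update_eq_self]
  rw [e1, ev_st1, e2, e3, ev_swap (hT i) b x (Pi.single l 1) (x (zi b))]
  ring

/-! ### The open set -/

/-- The open set. -/
def GG (T : Fin k → Ten (dm N M) K) (x : Tup (dm N M) K) : Prop :=
  (∀ a, LinearIndependent K fun i => (der T (Sum.inl a) x i : Fin (N a) → K)) ∧
  ∀ b, LinearIndependent K (Sum.elim (fun i => (der T (yi b) x i : Fin (M b) → K))
    fun i => (der T (zi b) x i : Fin (M b) → K))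

theorem Inc_frame [CharZero K] {T : Fin k → Ten (dm N M) K} (hT : ∀ i, As (T i))
    {x x' : Tup (dm N M) K} (h : Eqf x x') (hx : Inc T x) : Inc T x' := by
  refine frame_ind (Q := fun x => Inc T x) ?_ ?_ h hx
  · intro a x c _ hx i
    rw [ev_smul1, update_eq_self, hx i, mul_zero]
  · intro b x α β γ δ _ hx i
    rw [ev_det (hT i), st_self, hx i, mul_zero]

theorem GG_frame [CharZero K] {T : Fin k → Ten (dm N M) K} (hT : ∀ i, As (T i))
    {x x' : Tup (dm N M) K} (h : Eqf x x') (hx : GG T x) : GG T x' := by
  refine frame_ind (Q := fun x => GG T x) ?_ ?_ h hx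
  · rintro a x c hc ⟨h1, h2⟩
    constructor
    · intro a'
      by_cases ha : a' = a
      · subst ha
        rw [der_update]
        exact h1 a'
      · have hne : (Sum.inl a' : A ⊕ (B ⊕ B)) ≠ Sum.inl a := fun h => ha (Sum.inl_injective h)
        exact (li_scale hc fun i => der_line T hne x c i).2 (h1 a')
    · intro b
      have hne1 : (yi b : A ⊕ (B ⊕ B)) ≠ Sum.inl a := by simp
      have hne2 : (zi b : A ⊕ (B ⊕ B)) ≠ Sum.inl a := by simp
      refine (li_scale hc ?_).2 (h2 b)
      rintro (i | i)
      · exact der_line T hne1 x c i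
      · exact der_line T hne2 x c i
  · rintro b x α β γ δ hD ⟨h1, h2⟩
    constructor
    · intro a
      have hne1 : (Sum.inl a : A ⊕ (B ⊕ B)) ≠ yi b := by simp
      have hne2 : (Sum.inl a : A ⊕ (B ⊕ B)) ≠ zi b := by simp
      exact (li_scale hD fun i => der_plane hT hne1 hne2 x α β γ δ i).2 (h1 a)
    · intro b'
      by_cases hb : b' = b
      · subst hb
        exact li_two hD (fun i => der_yi hT b' x _ γ δ i) (fun i => der_zi hT b' x _ α β i) (h2 b')
      · have hne1 : (yi b' : A ⊕ (B ⊕ B)) ≠ yi b := by simp [hb]
        have hne2 : (yi b' : A ⊕ (B ⊕ B)) ≠ zi b := by simp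
        have hne3 : (zi b' : A ⊕ (B ⊕ B)) ≠ yi b := by simp
        have hne4 : (zi b' : A ⊕ (B ⊕ B)) ≠ zi b := by simp [hb]
        refine (li_scale hD ?_).2 (h2 b')
        rintro (i | i)
        · exact der_plane hT hne1 hne2 x α β γ δ i
        · exact der_plane hT hne3 hne4 x α β γ δ i

end gen

end Pool.Agent.L5helper6.BF
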