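import Pool.Agent.L5helper6.BF.Frm
import Pool.Agent.N852.GR.Lld
import Pool.Agent.N852.GR.Exu

/-!
The existence of a rational point in the open set.
-/

namespace Pool.Agent.L5helper6.BF

open scoped Classical
open NumberField Module Function
open Pool.Agent Pool.Agent.N852.GR

set_option linter.unusedSectionVars false

section op

variable {K : Type} [Field K]

/-- A perturbation of an independent family is independent for all but finitely many
parameters. -/
theorem lld_fin {W : Type} [AddCommGroup W] [Module K W] {ι : Type} [Finite ι] (x y : ι → W)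
    (hx : LinearIndependent K x) :
    {t : K | ¬ LinearIndependent K (fun i => x i + t • y i)}.Finite := by
  have : Fintype ι := Fintype.ofFinite ι
  obtain ⟨g, hg⟩ := LinearMap.exists_leftInverse_of_injective (Fintype.linearCombination K x)
    (LinearMap.ker_eq_bot.mpr hx.fintypeLinearCombination_injective)
  have hgx : ∀ i, g (x i) = Pi.single i 1 := by
    intro i
    have h1 := LinearMap.congr_fun hg (Pi.single i 1)
    simpa [Fintype.linearCombination_apply_single] using h1
  obtain ⟨P, hPd⟩ : ∃ P : Matrix ι ι (Polynomial K), P = Matrix.of (fun i j =>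
    Polynomial.C ((1 : Matrix ι ι K) i j) + Polynomial.X * Polynomial.C (g (y i) j)) := ⟨_, rfl⟩
  have hP : ∀ t : K, Polynomial.eval t P.det =
      (Matrix.of (fun i j => (1 : Matrix ι ι K) i j + t * g (y i) j)).det := by
    intro t
    have h1 : Polynomial.eval t P.det = Polynomial.evalRingHom t P.det := rfl
    have h2 : (Polynomial.evalRingHom t).mapMatrix P =
        Matrix.of (fun i j => (1 : Matrix ι ι K) i j + t * g (y i) j) := by
      ext i j
      rw [RingHom.mapMatrix_apply, Matrix.map_apply, Matrix.of_apply, hPd, Matrix.of_apply]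
      simp only [map_add, map_mul, Polynomial.coe_evalRingHom, Polynomial.eval_C,
        Polynomial.eval_X]
    rw [h1, RingHom.map_det, h2]
  have hne : P.det ≠ 0 := by
    intro h0
    have h1 := hP 0
    rw [h0] at h1
    have h2 : (Matrix.of (fun i j => (1 : Matrix ι ι K) i j + 0 * g (y i) j)) = 1 := by
      ext i j
      simp
    rw [h2, Matrix.det_one] at h1
    simp at h1
  refine (Polynomial.finite_setOf_isRoot hne).subset ?_
  intro t ht
  show Polynomial.eval t P.det = 0
  by_contra hdet
  apply ht
  rw [hP t] at hdet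
  rw [Fintype.linearIndependent_iff]
  intro c hc
  have h1 : Matrix.vecMul c (Matrix.of (fun i j => (1 : Matrix ι ι K) i j + t * g (y i) j)) = 0 := by
    have h2 := congrArg g hc
    rw [map_sum, map_zero] at h2
    funext j
    have h3 := congrFun h2 j
    simp only [Finset.sum_apply, map_smul, map_add, Pi.smul_apply, Pi.add_apply, smul_eq_mul,
      hgx, Pi.zero_apply] at h3
    simp only [Matrix.vecMul, dotProduct, Matrix.of_apply, Pi.zero_apply]
    rw [← h3]
    apply Finset.sum_congr rfl
    intro i _
    congr 2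
    rw [Matrix.one_apply, Pi.single_apply]
    by_cases hij : i = j
    · simp [hij]
    · simp [hij, Ne.symm hij]
  have h2 := Matrix.eq_zero_of_vecMul_eq_zero hdet h1
  intro i
  exact congrFun h2 i

/-- Conditions which are open on lines. -/
def Op {W : Type} [AddCommGroup W] [Module K W] (P : W → Prop) : Prop :=
  ∀ z z' : W, P z → {t : K | ¬ P (z + t • (z' - z))}.Finite

theorem Op_and {W : Type} [AddCommGroup W] [Module K W] {P Q : W → Prop} (hP : Op (K := K) P)
    (hQ : Op (K := K) Q) : Op (K := K) fun z => P z ∧ Q z := by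
  intro z z' h
  refine ((hP z z' h.1).union (hQ z z' h.2)).subset ?_
  intro t ht
  by_contra hcon
  rw [Set.mem_union, not_or] at hcon
  exact ht ⟨not_not.1 hcon.1, not_not.1 hcon.2⟩

theorem Op_forall {W J : Type} [AddCommGroup W] [Module K W] [Finite J] {P : J → W → Prop}
    (hP : ∀ j, Op (K := K) (P j)) : Op (K := K) fun z => ∀ j, P j z := by
  intro z z' h
  refine (Set.finite_iUnion fun j => hP j z z' (h j)).subset ?_
  intro t ht
  by_contra hcon
  rw [Set.mem_iUnion, not_exists] at hcon
  exact ht fun j => not_not.1 (hcon j)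

theorem Op_imp {W : Type} [AddCommGroup W] [Module K W] {p : Prop} {P : W → Prop}
    (hP : Op (K := K) P) : Op (K := K) fun z => p → P z := by
  by_cases hp : p
  · intro z z' h
    refine (hP z z' (h hp)).subset ?_
    intro t ht ht'
    exact ht fun _ => ht'
  · intro z z' _
    have e : {t : K | ¬ (p → P (z + t • (z' - z)))} = ∅ := by
      ext t
      simp [hp]
    rw [e]
    exact Set.finite_empty

theorem Op_ex [Infinite K] {W : Type} [AddCommGroup W] [Module K W] {P Q : W → Prop}
    (hP : Op (K := K) P) (hQ : Op (K := K) Q) (h1 : ∃ z, P z) (h2 : ∃ z, Q z) :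
    ∃ z, P z ∧ Q z := by
  obtain ⟨z₁, h1⟩ := h1
  obtain ⟨z₂, h2⟩ := h2
  have f1 := hP z₁ z₂ h1
  have f2 := (hQ z₂ z₁ h2).image fun t => 1 - t
  obtain ⟨t, ht⟩ := ((f1.union f2).infinite_compl).nonempty
  rw [Set.mem_compl_iff, Set.mem_union, not_or] at ht
  refine ⟨z₁ + t • (z₂ - z₁), not_not.1 ht.1, ?_⟩
  by_contra hcon
  apply ht.2
  refine ⟨1 - t, ?_, by ring⟩
  show ¬ Q (z₂ + (1 - t) • (z₁ - z₂))
  have e : z₂ + (1 - t) • (z₁ - z₂) = z₁ + t • (z₂ - z₁) := by module
  rw [e]
  exact hcon

theorem Op_ex_all [Infinite K] {W J : Type} [AddCommGroup W] [Module K W] [Finite J]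
    {P : J → W → Prop} (hP : ∀ j, Op (K := K) (P j)) (h : ∀ j, ∃ z, P j z) :
    ∃ z, ∀ j, P j z := by
  have : Fintype J := Fintype.ofFinite J
  have key : ∀ s : Finset J, ∃ z, ∀ j ∈ s, P j z := by
    intro s
    induction s using Finset.induction_on with
    | empty => exact ⟨0, fun j hj => absurd hj (Finset.notMem_empty j)⟩
    | insert j s _ ih =>
      obtain ⟨z, h1, h2⟩ := Op_ex (Op_forall (K := K) (J := s) (P := fun j => P j.1)
        fun j => hP j.1) (hP j) (by
          obtain ⟨z, hz⟩ := ih
          exact ⟨z, fun j => hz j.1 j.2⟩) (h j)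
      refine ⟨z, fun i hi => ?_⟩
      rw [Finset.mem_insert] at hi
      rcases hi with rfl | hi
      · exact h2
      · exact h1 ⟨i, hi⟩
  obtain ⟨z, hz⟩ := key Finset.univ
  exact ⟨z, fun j => hz j (Finset.mem_univ j)⟩

theorem Op_li {W U ι : Type} [AddCommGroup W] [Module K W] [AddCommGroup U] [Module K U]
    [Finite ι] (φ : W → ι → U)
    (h : ∀ z z' (t : K) i, φ (z + t • (z' - z)) i = φ z i + t • (φ z' i - φ z i)) :
    Op (K := K) fun z => LinearIndependent K (φ z) := by
  intro z z' hz
  refine (lld_fin (φ z) (fun i => φ z' i - φ z i) hz).subset ?_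
  intro t ht ht'
  apply ht
  have e : φ (z + t • (z' - z)) = fun i => φ z i + t • (φ z' i - φ z i) := by
    funext i
    exact h z z' t i
  show LinearIndependent K (φ (z + t • (z' - z)))
  rw [e]
  exact ht'

theorem Op_sub {W : Type} [AddCommGroup W] [Module K W] {P : W → Prop} (hP : Op (K := K) P)
    (S : Submodule K W) : Op (K := K) fun z : S => P z := by
  intro z z' h
  exact hP (z : W) (z' : W) h

end op

/-! ### Ranks -/

theorem rank_map_le' {K L : Type} [Field K] [Field L] (σ : K →+* L) {m n : ℕ}
    (M : Matrix (Fin m) (Fin n) K) : (M.map σ).rank ≤ M.rank := by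
  rw [Matrix.rank_eq_finrank_span_cols M, Matrix.rank_eq_finrank_span_cols (M.map σ)]
  set V := Submodule.span K (Set.range M.col) with hV
  set b := Module.finBasis K V with hb
  let w : Fin (finrank K V) → Fin m → L := fun i x => σ ((b i : Fin m → K) x)
  have h1 : Submodule.span L (Set.range (M.map σ).col) ≤ Submodule.span L (Set.range w) := by
    rw [Submodule.span_le]
    rintro _ ⟨j, rfl⟩
    have h2 : M.col j ∈ V := Submodule.subset_span ⟨j, rfl⟩
    have h3 : M.col j = ∑ i, (b.repr ⟨_, h2⟩ i) • (b i : Fin m → K) := by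
      calc M.col j = V.subtype ⟨M.col j, h2⟩ := rfl
        _ = V.subtype (∑ i, b.repr ⟨M.col j, h2⟩ i • b i) := by rw [b.sum_repr]
        _ = ∑ i, (b.repr ⟨_, h2⟩ i) • (b i : Fin m → K) := by
            rw [map_sum]
            rfl
    have h4 : (M.map σ).col j = ∑ i, σ (b.repr ⟨_, h2⟩ i) • w i := by
      funext x
      have h5 : M x j = ∑ i, (b.repr ⟨_, h2⟩ i) * (b i : Fin m → K) x := by
        have h6 := congrFun h3 x
        rw [Finset.sum_apply] at h6
        exact h6
      show σ (M x j) = _
      rw [h5, map_sum, Finset.sum_apply]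
      refine Finset.sum_congr rfl fun i _ => ?_
      rw [map_mul]
      rfl
    rw [h4]
    exact Submodule.sum_mem _ fun i _ => Submodule.smul_mem _ _ (Submodule.subset_span ⟨i, rfl⟩)
  refine (Submodule.finrank_mono h1).trans ?_
  have h2 := finrank_range_le_card (R := L) w
  rw [Fintype.card_fin] at h2
  exact h2

section ex

variable {V : Type} [Fintype V] [DecidableEq V] {n : V → ℕ} {k : ℕ} {K : Type} [Field K]

/-- The rank condition at a family. -/
def RkF (T : Fin k → Ten n K) (u v : V) (R : ℕ) (x : Tup n K) : Prop :=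
  ∀ s : Fin k → K, s ≠ 0 →
    R ≤ (∑ i, s i • Matrix.of fun (l : Fin (n u)) (l' : Fin (n v)) => mt T u v x i l l').rank

/-- The linear map `x v ↦ der T u x i`. -/
noncomputable def bl (T : Fin k → Ten n K) (u v : V) (x : Tup n K) (i : Fin k) :
    (Fin (n v) → K) →ₗ[K] (Fin (n u) → K) :=
  (Matrix.of fun (l : Fin (n u)) (l' : Fin (n v)) => mt T u v x i l l').mulVecLin

theorem bl_apply (T : Fin k → Ten n K) {u v : V} (huv : u ≠ v) (x : Tup n K) (i : Fin k)
    (z : Fin (n v) → K) : bl T u v x i z = der T u (update x v z) i := by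
  funext l
  rw [der_mt T huv]
  rfl

theorem bl_rank {T : Fin k → Ten n K} {u v : V} {R : ℕ} {x : Tup n K} (h : RkF T u v R x)
    {s : Fin k → K} (hs : s ≠ 0) :
    R ≤ finrank K (LinearMap.range (∑ i, s i • bl T u v x i)) := by
  have h1 := h s hs
  have h2 : (∑ i, s i • bl T u v x i) = (∑ i, s i • Matrix.of fun (l : Fin (n u))
      (l' : Fin (n v)) => mt T u v x i l l').mulVecLin := by
    apply LinearMap.ext
    intro z
    simp only [LinearMap.sum_apply, LinearMap.smul_apply, bl, Matrix.mulVecLin_apply,
      Matrix.sum_mulVec, Matrix.smul_mulVec]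
  rw [h2]
  exact h1

/-- A vector of a large subspace for which the derivatives are independent. -/
theorem ex_one [Infinite K] (T : Fin k → Ten n K) {u v : V} (huv : u ≠ v) {R : ℕ} {x : Tup n K}
    (h : RkF T u v R x) (hk : 1 ≤ k) (hR : 2 * k ≤ R) (W : Submodule K (Fin (n v) → K))
    (hW : n v ≤ finrank K W + k) : ∃ z : W, LinearIndependent K (der T u (update x v z)) := by
  obtain ⟨z, hz⟩ := lldP K W (Fin (n u) → K) k (fun i => bl T u v x i ∘ₗ W.subtype) hk (by
    intro s hs
    have h1 : (∑ i, s i • (bl T u v x i ∘ₗ W.subtype)) =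
        (∑ i, s i • bl T u v x i) ∘ₗ W.subtype := by
      ext z
      simp [LinearMap.sum_apply]
    rw [h1, LinearMap.range_comp, Submodule.range_subtype]
    have h2 := finrank_le_map_add_ker (∑ i, s i • bl T u v x i) W
    have h4 := LinearMap.finrank_range_add_finrank_ker (∑ i, s i • bl T u v x i)
    rw [finrank_fin_fun] at h4
    have h5 := bl_rank h hs
    omega)
  refine ⟨z, ?_⟩
  have e : der T u (update x v z) = fun i => (bl T u v x i ∘ₗ W.subtype) z := by
    funext i
    exact (bl_apply T huv x i z).symm
  rw [e]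
  exact hz

/-- The same modulo the derivatives with respect to the vector itself. -/
theorem ex_two [Infinite K] (T : Fin k → Ten n K) {u v : V} (huv : u ≠ v) {R : ℕ} {x : Tup n K}
    (h : RkF T u v R x) (hk : 1 ≤ k) (hR : 3 * k ≤ R) (W : Submodule K (Fin (n v) → K))
    (hW : n v ≤ finrank K W + k) (g : Fin k → Fin (n u) → K) (hg : LinearIndependent K g) :
    ∃ z : W, LinearIndependent K (Sum.elim g (der T u (update x v z))) := by
  set S := Submodule.span K (Set.range g) with hS
  have hSd : finrank K S ≤ k := by
    have := finrank_range_le_card (R := K) g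
    rwa [Fintype.card_fin] at this
  obtain ⟨z, hz⟩ := lldP K W ((Fin (n u) → K) ⧸ S) k
    (fun i => S.mkQ ∘ₗ bl T u v x i ∘ₗ W.subtype) hk (by
    intro s hs
    have h1 : (∑ i, s i • (S.mkQ ∘ₗ bl T u v x i ∘ₗ W.subtype)) =
        S.mkQ ∘ₗ (∑ i, s i • bl T u v x i) ∘ₗ W.subtype := by
      ext z
      simp [LinearMap.sum_apply, map_sum]
    rw [h1, LinearMap.range_comp, LinearMap.range_comp, Submodule.range_subtype]
    have h2 := finrank_le_map_add_ker (∑ i, s i • bl T u v x i) W
    have h3 := finrank_le_map_add_ker S.mkQ (W.map (∑ i, s i • bl T u v x i))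
    rw [Submodule.ker_mkQ] at h3
    have h4 := LinearMap.finrank_range_add_finrank_ker (∑ i, s i • bl T u v x i)
    rw [finrank_fin_fun] at h4
    have h5 := bl_rank h hs
    omega)
  refine ⟨z, ?_⟩
  let f : Fin k → S := fun i => ⟨g i, Submodule.subset_span ⟨i, rfl⟩⟩
  have hf : LinearIndependent K f := LinearIndependent.of_comp S.subtype hg
  have e : der T u (update x v z) = fun i => bl T u v x i z := by
    funext i
    exact (bl_apply T huv x i z).symm
  rw [e]
  exact hf.sumElim_of_quotient (fun i => bl T u v x i z) hz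

/-- The kernel of the derivatives. -/
noncomputable def kr (T : Fin k → Ten n K) (v : V) (x : Tup n K) : Submodule K (Fin (n v) → K) :=
  LinearMap.ker (Matrix.of fun (i : Fin k) (l : Fin (n v)) => der T v x i l).mulVecLin

theorem mem_kr (T : Fin k → Ten n K) (v : V) (x : Tup n K) (z : Fin (n v) → K) :
    z ∈ kr T v x ↔ Inc T (update x v z) := by
  unfold kr Inc
  rw [LinearMap.mem_ker]
  constructor
  · intro h i
    rw [ev_update]
    exact congrFun h i
  · intro h
    funext i
    have := h i
    rw [ev_update] at this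
    exact this

theorem kr_dim (T : Fin k → Ten n K) (v : V) (x : Tup n K) : n v ≤ finrank K (kr T v x) + k := by
  have h1 := LinearMap.finrank_range_add_finrank_ker
    (Matrix.of fun (i : Fin k) (l : Fin (n v)) => der T v x i l).mulVecLin
  have h2 : finrank K (LinearMap.range
      (Matrix.of fun (i : Fin k) (l : Fin (n v)) => der T v x i l).mulVecLin) ≤ k := by
    have := Submodule.finrank_le (LinearMap.range
      (Matrix.of fun (i : Fin k) (l : Fin (n v)) => der T v x i l).mulVecLin)
    rwa [finrank_fin_fun] at this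
  rw [finrank_fin_fun] at h1
  unfold kr
  omega

/-- The derivatives are affine in each vector. -/
theorem der_affine (T : Fin k → Ten n K) (u v : V) (x : Tup n K) (z z' : Fin (n v) → K) (t : K)
    (i : Fin k) : der T u (update x v (z + t • (z' - z))) i =
      der T u (update x v z) i + t • (der T u (update x v z') i - der T u (update x v z) i) := by
  by_cases huv : u = v
  · subst huv
    rw [der_update, der_update, der_update, sub_self, smul_zero, add_zero]
  · rw [← bl_apply T huv, ← bl_apply T huv, ← bl_apply T huv, map_add, map_smul, map_sub]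

theorem Op_der (T : Fin k → Ten n K) (u v : V) (x : Tup n K) :
    Op (K := K) fun z => LinearIndependent K (der T u (update x v z)) :=
  Op_li (fun z => der T u (update x v z)) fun z z' t i => der_affine T u v x z z' t i

end ex

end Pool.Agent.L5helper6.BF
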