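import Pool.Agent.L5helper6.BF.Pts
import Pool.Agent.L5helper6.BF.Exi

/-!
The main theorem.
-/

namespace Pool.Agent.L5helper6.BF

open scoped Classical
open NumberField Module Function
open Pool.Agent Pool.Agent.N852.GR

set_option linter.unusedSectionVars false

variable {F : Type} [Field F] [NumberField F]
variable {A B : Type} [Fintype A] [Fintype B] [DecidableEq A] [DecidableEq B] {N : A → ℕ}
  {M : B → ℕ} {k : ℕ}

/-- The rank condition for forms over `F`. -/
def RCF (T : Fin k → Ten (dm N M) F) (R : ℕ) : Prop :=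
  ∀ σ : F →+* ℂ, ∀ u v : A ⊕ (B ⊕ B), u ≠ v → ∀ x : Tup (dm N M) ℂ, Ad u v x →
    RkAt (fun i j => σ (T i j)) u v R x

section scale

variable {V : Type} [Fintype V] [DecidableEq V] {n : V → ℕ} {K : Type} [Field K]

theorem ev_const (c : K) (t : Ten n K) (x : Tup n K) : ev (fun j => c * t j) x = c * ev t x := by
  unfold ev
  rw [Finset.mul_sum]
  exact Finset.sum_congr rfl fun j _ => by ring

theorem RkAt_scale {c : ℂ} (hc : c ≠ 0) {T : Fin k → Ten n ℂ} {u v : V} {R : ℕ} {x : Tup n ℂ}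
    (h : RkAt T u v R x) : RkAt (fun i j => c * T i j) u v R x := by
  intro s hs
  have h1 := h (fun i => s i * c) (by
    intro h0
    apply hs
    funext i
    have h2 : s i * c = 0 := congrFun h0 i
    exact (mul_eq_zero.1 h2).resolve_right hc)
  refine h1.trans (le_of_eq ?_)
  congr 1
  refine Finset.sum_congr rfl fun i _ => ?_
  ext l l'
  show s i * c * ev (T i) _ = s i * ev (fun j => c * T i j) _
  rw [ev_const]
  ring

end scale

theorem RCF_scale {c : F} (hc : c ≠ 0) {T : Fin k → Ten (dm N M) F} {R : ℕ} (h : RCF T R) :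
    RCF (fun i j => c * T i j) R := by
  intro σ u v huv x hx
  have h1 := RkAt_scale (c := σ c) (by simpa using hc) (h σ u v huv x hx)
  have e : (fun i j => σ (c * T i j)) = fun i j => σ c * σ (T i j) := by
    funext i j
    exact map_mul _ _ _
  rw [e]
  exact h1

theorem exists_minor {m : ℕ} {y z : Fin m → F} (h : LinearIndependent F ![y, z]) :
    ∃ i j, y i * z j - y j * z i ≠ 0 := by
  by_contra hcon
  push Not at hcon
  have hy : y ≠ 0 := h.ne_zero 0
  obtain ⟨i, hi⟩ := Function.ne_iff.1 hy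
  have hi' : y i ≠ 0 := hi
  rw [LinearIndependent.pair_iff] at h
  have h1 := h (z i) (-y i) (by
    funext j
    show z i * y j + -y i * z j = 0
    linear_combination -(hcon i j))
  exact hi' (neg_eq_zero.1 h1.2)

theorem Ad_map (σ : F →+* ℂ) {u v : A ⊕ (B ⊕ B)} {x : Tup (dm N M) F} (h : Ad u v x) :
    Ad u v (fun t m => σ (x t m) : Tup (dm N M) ℂ) := by
  constructor
  · intro t h1 h2 h3
    apply h.1 t h1 h2
    funext m
    have h4 : σ (x t m) = 0 := congrFun h3 m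
    simpa using h4
  · intro b h1 h2 h3 h4
    obtain ⟨i, j, hij⟩ := exists_minor (h.2 b h1 h2 h3 h4)
    refine li_of_minor (i := i) (j := j) ?_
    show σ (x (yi b) i) * σ (x (zi b) j) - σ (x (yi b) j) * σ (x (zi b) i) ≠ 0
    rw [← map_mul, ← map_mul, ← map_sub]
    exact (map_ne_zero σ).2 hij

theorem RkF_of {T : Fin k → Ten (dm N M) F} {R : ℕ} (h : RCF T R) {u v : A ⊕ (B ⊕ B)}
    (huv : u ≠ v) {x : Tup (dm N M) F} (hx : Ad u v x) : RkF T u v R x := by
  obtain ⟨σ⟩ : Nonempty (F →+* ℂ) := inferInstance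
  intro s hs
  have h1 := h σ u v huv _ (Ad_map σ hx) (fun i => σ (s i)) (by
    intro h0
    apply hs
    funext i
    have := congrFun h0 i
    simpa using this)
  refine (h1.trans (le_of_eq ?_)).trans (rank_map_le' σ _)
  congr 1
  ext l l'
  rw [Matrix.map_apply, Matrix.sum_apply, Matrix.sum_apply, map_sum]
  refine Finset.sum_congr rfl fun i _ => ?_
  rw [Matrix.smul_apply, Matrix.smul_apply, Matrix.of_apply, Matrix.of_apply, smul_eq_mul,
    smul_eq_mul, map_mul]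
  congr 1
  exact mt_map σ T u v x i l l'

/-- The first family. -/
theorem exists_ad (hN : ∀ a, 1 ≤ N a) (hM : ∀ b, 2 ≤ M b) (u v : A ⊕ (B ⊕ B)) :
    ∃ x : Tup (dm N M) ℂ, Ad u v x := by
  let x₀ : Tup (dm N M) ℂ := fun t => match t with
    | Sum.inl a => Pi.single (⟨0, hN a⟩ : Fin (N a)) 1
    | Sum.inr (Sum.inl b) => Pi.single (⟨0, by have := hM b; omega⟩ : Fin (M b)) 1
    | Sum.inr (Sum.inr b) => Pi.single (⟨1, by have := hM b; omega⟩ : Fin (M b)) 1
  have hx₀ : ∀ t, x₀ t ≠ 0 := by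
    rintro (a | b | b) h0
    · have := congrFun h0 (⟨0, hN a⟩ : Fin (N a))
      simp [x₀] at this
    · have := congrFun h0 (⟨0, by have := hM b; omega⟩ : Fin (M b))
      simp [x₀] at this
    · have := congrFun h0 (⟨1, by have := hM b; omega⟩ : Fin (M b))
      simp [x₀] at this
  have hx₀' : ∀ b, LinearIndependent ℂ ![(x₀ (yi b) : Fin (M b) → ℂ), x₀ (zi b)] := by
    intro b
    rw [LinearIndependent.pair_iff]
    intro s t hst
    have h1 := congrFun hst (⟨0, by have := hM b; omega⟩ : Fin (M b))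
    have h2 := congrFun hst (⟨1, by have := hM b; omega⟩ : Fin (M b))
    simp [x₀, Pi.single_apply] at h1 h2
    exact ⟨h1, h2⟩
  exact ⟨x₀, fun t _ _ => hx₀ t, fun b _ _ _ _ => hx₀' b⟩

theorem dims [Nontrivial (A ⊕ B)] (hk : 1 ≤ k) (hN : ∀ a, 1 ≤ N a) (hM : ∀ b, 2 ≤ M b)
    {T : Fin k → Ten (dm N M) F} {R : ℕ} (h : RCF T R) (v : A ⊕ (B ⊕ B)) : R ≤ dm N M v := by
  obtain ⟨σ⟩ : Nonempty (F →+* ℂ) := inferInstance
  obtain ⟨u, hu⟩ := exists_other v
  obtain ⟨x, hx⟩ := exists_ad (N := N) (M := M) hN hM u v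
  have h1 := h σ u v (fun h0 => hu (by rw [h0])) x hx (fun _ => 1) (by
    intro h0
    have := congrFun h0 ⟨0, hk⟩
    exact one_ne_zero this)
  exact h1.trans (Matrix.rank_le_width _)

theorem exists_int (T : Fin k → Ten (dm N M) F) : ∃ (c : F) (T' : Fin k → Ten (dm N M) (𝓞 F)),
    c ≠ 0 ∧ tF T' = fun i j => c * T i j := by
  obtain ⟨b, hb⟩ := IsLocalization.exist_integer_multiples_of_finite (nonZeroDivisors (𝓞 F))
    (fun p : Fin k × (∀ v, Fin (dm N M v)) => T p.1 p.2)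
  choose g hg using hb
  refine ⟨((b : 𝓞 F) : F), fun i j => g (i, j), ?_, ?_⟩
  · have h1 : (b : 𝓞 F) ≠ 0 := nonZeroDivisors.coe_ne_zero b
    intro h0
    apply h1
    exact_mod_cast h0
  · funext i j
    show algebraMap (𝓞 F) F (g (i, j)) = _
    rw [hg (i, j)]
    exact Algebra.smul_def _ _

theorem Inc_scale {K : Type} [Field K] {c : K} (hc : c ≠ 0) {T : Fin k → Ten (dm N M) K}
    {x : Tup (dm N M) K} : Inc (fun i j => c * T i j) x ↔ Inc T x := by
  unfold Inc
  refine forall_congr' fun i => ?_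
  rw [ev_const, mul_eq_zero]
  constructor
  · intro h
    exact h.resolve_left hc
  · intro h
    exact Or.inr h

theorem GG_scale {K : Type} [Field K] {c : K} (hc : c ≠ 0) {T : Fin k → Ten (dm N M) K}
    {x : Tup (dm N M) K} : GG (fun i j => c * T i j) x ↔ GG T x := by
  have e : ∀ v i, der (fun i j => c * T i j) v x i = c • der T v x i := by
    intro v i
    funext l
    exact ev_const c (T i) _
  unfold GG
  refine and_congr (forall_congr' fun a => ?_) (forall_congr' fun b => ?_)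
  · exact li_scale hc fun i => e (Sum.inl a) i
  · refine li_scale hc ?_
    rintro (i | i)
    · exact e (yi b) i
    · exact e (zi b) i

/-- **The main theorem.** -/
theorem main [Nontrivial (A ⊕ B)] (hk : 1 ≤ k) (hN : ∀ a, 1 ≤ N a) (hM : ∀ b, 2 ≤ M b)
    (T : Fin k → Ten (dm N M) F) (hT : ∀ i, As (T i))
    (hR : RCF T (k * Fintype.card (A ⊕ (B ⊕ B)) + 1)) :
    (∃ x : Tup (dm N M) F, Inc T x ∧ GG T x ∧ (∀ t, x t ≠ 0) ∧
      ∀ b : B, LinearIndependent F ![(x (yi b) : Fin (M b) → F), x (zi b)]) ∧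
    ∀ (l : A ⊕ B → ℝ), (∀ j, 0 < l j) → ∀ α : ℝ, 0 ≤ α →
      (∀ v : A ⊕ (B ⊕ B), ((dm N M v - k : ℕ) : ℝ) ≤ α * wl l v) → ∀ ε : ℝ, 0 < ε →
      ∃ C : ℝ, 1 ≤ C ∧ ∀ Y : ℝ, 1 ≤ Y → ∀ {ι : Type} (S : Set ι) (φ : ι → Tup (dm N M) F),
        (∀ P ∈ S, (∀ a, φ P (Sum.inl a) ≠ 0) ∧
          (∀ b, LinearIndependent F ![(φ P (yi b) : Fin (M b) → F), φ P (zi b)]) ∧
          Inc T (φ P) ∧ GG T (φ P) ∧ htf l (φ P) ≤ Y) →
        (∀ P ∈ S, ∀ P' ∈ S, ∀ x, Eqf (φ P) x → Eqf (φ P') x → P = P') →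
        S.Finite ∧ (S.ncard : ℝ) ≤ C * Y ^ (α + ε) := by
  have hcard : 2 ≤ Fintype.card (A ⊕ (B ⊕ B)) := by
    obtain ⟨j⟩ : Nonempty (A ⊕ B) := inferInstance
    obtain ⟨u, hu⟩ := exists_other (slot j : A ⊕ (B ⊕ B))
    have : Nontrivial (A ⊕ (B ⊕ B)) := ⟨u, slot j, fun h => hu (by rw [h])⟩
    exact Fintype.one_lt_card
  have h2k : 2 * k ≤ k * Fintype.card (A ⊕ (B ⊕ B)) + 1 := by
    have := Nat.mul_le_mul_left k hcard
    omega
  constructor
  · refine exists_x hT hk hN hM h2k (fun b => ?_) fun u v huv x hx => RkF_of hR huv hx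
    have h3 : 3 ≤ Fintype.card (A ⊕ (B ⊕ B)) := by
      have h4 : 1 < Fintype.card (A ⊕ B) := Fintype.one_lt_card
      have h5 : 0 < Fintype.card B := Fintype.card_pos_iff.2 ⟨b⟩
      rw [Fintype.card_sum] at h4
      rw [Fintype.card_sum, Fintype.card_sum]
      omega
    have := Nat.mul_le_mul_left k h3
    omega
  · intro l hl α hα0 hα ε hε
    obtain ⟨c, T', hc, hT'⟩ := exists_int T
    have hAs : ∀ i, As (T' i) := by
      intro i b j
      have h1 : ((T' i (sw b j) : 𝓞 F) : F) = -((T' i j : 𝓞 F) : F) := by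
        have e1 : ((T' i (sw b j) : 𝓞 F) : F) = c * T i (sw b j) := congrFun (congrFun hT' i) _
        have e2 : ((T' i j : 𝓞 F) : F) = c * T i j := congrFun (congrFun hT' i) _
        rw [e1, e2, hT i b j]
        ring
      have h2 : ((T' i (sw b j) : 𝓞 F) : F) = ((-T' i j : 𝓞 F) : F) := by
        rw [h1]
        exact (map_neg (algebraMap (𝓞 F) F) _).symm
      exact_mod_cast h2
    have hRC : RC T' (k * Fintype.card (A ⊕ (B ⊕ B)) + 1) := by
      have h1 := RCF_scale hc hR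
      rw [← hT'] at h1
      exact h1
    have hdm : ∀ v, k * Fintype.card (A ⊕ (B ⊕ B)) + 1 ≤ dm N M v := dims hk hN hM hR
    have hbb := bb T' hAs hk _ hRC hdm
    obtain ⟨D, e, C₀, hIt⟩ := eng T' hcard hdm hbb
    obtain ⟨C, hC, h⟩ := count_pts T' hAs (fun ε hε => up_eps hIt hε) l hl hα0 hα hε
    refine ⟨C, hC, fun Y hY ι S φ hS hinj => h Y hY S φ (fun P hP => ?_) hinj⟩
    obtain ⟨h1, h2, h3, h4, h5⟩ := hS P hP
    rw [hT']
    exact ⟨h1, h2, (Inc_scale hc).2 h3, (GG_scale hc).2 h4, h5⟩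

end Pool.Agent.L5helper6.BF
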