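import Pool.Agent.L5helper6.BF.Bal

/-!
Families of vectors and of pairs of vectors (bases of planes): the bound for the bad families.
-/

namespace Pool.Agent.L5helper6.BF

open scoped Classical
open NumberField Module Function
open Pool.Agent Pool.Agent.N852.GR

set_option linter.unusedSectionVars false

/-- The dimensions: one vector for every element of `A`, two for every element of `B`. -/
@[reducible] def dm {A B : Type} (N : A → ℕ) (M : B → ℕ) : A ⊕ (B ⊕ B) → ℕ
  | Sum.inl a => N a
  | Sum.inr (Sum.inl b) => M b
  | Sum.inr (Sum.inr b) => M b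

/-- The first vector of the plane `b`. -/
abbrev yi {A B : Type} (b : B) : A ⊕ (B ⊕ B) := Sum.inr (Sum.inl b)

/-- The second vector of the plane `b`. -/
abbrev zi {A B : Type} (b : B) : A ⊕ (B ⊕ B) := Sum.inr (Sum.inr b)

theorem yz {A B : Type} (b : B) : (yi b : A ⊕ (B ⊕ B)) ≠ zi b := by
  intro h
  simp at h

variable {A B : Type} [Fintype A] [Fintype B] [DecidableEq A] [DecidableEq B] {N : A → ℕ}
  {M : B → ℕ} {k : ℕ}

/-- Exchange of the two indices of the plane `b`. -/
noncomputable def sw (b : B) (j : ∀ v, Fin (dm N M v)) : ∀ v, Fin (dm N M v) :=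
  update (update j (yi b) (j (zi b))) (zi b) (j (yi b))

/-- The coefficients change sign if the two indices of a plane are exchanged. -/
def As {R : Type*} [Ring R] (t : Ten (dm N M) R) : Prop := ∀ b j, t (sw b j) = -t j

theorem prod_split {V R : Type*} [Fintype V] [DecidableEq V] [CommMonoid R] {u v : V} (huv : u ≠ v) (f : V → R) :
    ∏ t, f t = f u * (f v * ∏ t ∈ (Finset.univ.erase u).erase v, f t) := by
  rw [← Finset.mul_prod_erase Finset.univ f (Finset.mem_univ u),
    ← Finset.mul_prod_erase (Finset.univ.erase u) f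
      (Finset.mem_erase.2 ⟨huv.symm, Finset.mem_univ v⟩)]

theorem sw_sw (b : B) (j : ∀ v, Fin (dm N M v)) : sw b (sw b j) = j := by
  funext t
  unfold sw
  by_cases h1 : t = zi b
  · subst h1
    rw [update_self, update_of_ne (yz b), update_self]
  · rw [update_of_ne h1]
    by_cases h2 : t = yi b
    · subst h2
      rw [update_self, update_self]
    · rw [update_of_ne h2, update_of_ne h1, update_of_ne h2]

theorem alt_zero {K : Type*} [Field K] [CharZero K] {t : Ten (dm N M) K} (ht : As t) (b : B)
    (x : Tup (dm N M) K) (hx : x (zi b) = x (yi b)) : ev t x = 0 := by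
  have h1 : ev t x = -ev t x := by
    conv_lhs => unfold ev
    rw [← Equiv.sum_comp (Function.Involutive.toPerm (sw b) (sw_sw b))]
    unfold ev
    rw [← Finset.sum_neg_distrib]
    refine Finset.sum_congr rfl fun j _ => ?_
    show t (sw b j) * ∏ v, x v (sw b j v) = _
    rw [ht b j, neg_mul]
    congr 2
    rw [prod_split (yz b) fun v => x v (sw b j v), prod_split (yz b) fun v => x v (j v)]
    have e1 : sw b j (yi b) = j (zi b) := by
      unfold sw
      rw [update_of_ne (yz b), update_self]
    have e2 : sw b j (zi b) = j (yi b) := by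
      unfold sw
      rw [update_self]
    have e3 : x (yi b) (sw b j (yi b)) = x (zi b) (j (zi b)) := by
      rw [e1, hx]
    have e4 : x (zi b) (sw b j (zi b)) = x (yi b) (j (yi b)) := by
      rw [e2, hx]
    rw [e3, e4, ← mul_assoc, ← mul_assoc, mul_comm (x (zi b) (j (zi b)))]
    congr 1
    refine Finset.prod_congr rfl fun v hv => ?_
    rw [Finset.mem_erase, Finset.mem_erase] at hv
    congr 1
    unfold sw
    rw [update_of_ne hv.1, update_of_ne hv.2.1]
  have h2 : (2 : K) * ev t x = 0 := by linear_combination h1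
  exact (mul_eq_zero.1 h2).resolve_left two_ne_zero

section lin

variable {V : Type} [Fintype V] [DecidableEq V] {n : V → ℕ}

theorem ev_lin {R : Type*} [CommRing R] (t : Ten n R) (v : V) (x : Tup n R) (c d : R)
    (y z : Fin (n v) → R) : ev t (update x v (c • y + d • z)) =
      c * ev t (update x v y) + d * ev t (update x v z) := by
  rw [ev_update, ev_update t v x y, ev_update t v x z, Finset.mul_sum, Finset.mul_sum,
    ← Finset.sum_add_distrib]
  refine Finset.sum_congr rfl fun l _ => ?_
  simp only [Pi.add_apply, Pi.smul_apply, smul_eq_mul]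
  ring

theorem ev_smul1 {R : Type*} [CommRing R] (t : Ten n R) (v : V) (x : Tup n R) (c : R)
    (y : Fin (n v) → R) : ev t (update x v (c • y)) = c * ev t (update x v y) := by
  have := ev_lin t v x c 0 y 0
  rwa [zero_smul, add_zero, zero_mul, add_zero] at this

theorem ev_zero {R : Type*} [CommRing R] (t : Ten n R) (v : V) (x : Tup n R) (h : x v = 0) :
    ev t x = 0 := by
  rw [ev_eq t v x, h]
  simp

theorem mt_congr {R : Type*} [CommRing R] (T : Fin k → Ten n R) {u v : V} {x x' : Tup n R}
    (h : ∀ t, t ≠ u → t ≠ v → x t = x' t) : mt T u v x = mt T u v x' := by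
  funext i l l'
  unfold mt
  congr 1
  funext t
  by_cases h1 : t = u
  · subst h1
    rw [update_self, update_self]
  · rw [update_of_ne h1, update_of_ne h1]
    by_cases h2 : t = v
    · subst h2
      rw [update_self, update_self]
    · rw [update_of_ne h2, update_of_ne h2, h t h1 h2]

theorem mt_line {R : Type*} [CommRing R] (T : Fin k → Ten n R) {u v t : V} (hu : t ≠ u)
    (hv : t ≠ v) (x : Tup n R) (c : R) (z : Fin (n t) → R) (i : Fin k) (l : Fin (n u))
    (l' : Fin (n v)) :
    mt T u v (update x t (c • z)) i l l' = c * mt T u v (update x t z) i l l' := by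
  unfold mt
  rw [update_comm hv, update_comm hu, ev_smul1, ← update_comm hu, ← update_comm hv]

end lin

/-- The family with the plane `b` replaced. -/
def st {K : Type*} (b : B) (x : Tup (dm N M) K) (y z : Fin (M b) → K) : Tup (dm N M) K :=
  update (update x (yi b) y) (zi b) z

theorem st_yi {K : Type*} (b : B) (x : Tup (dm N M) K) (y z : Fin (M b) → K) :
    st b x y z (yi b) = y := by
  unfold st
  rw [update_of_ne (yz b), update_self]

theorem st_zi {K : Type*} (b : B) (x : Tup (dm N M) K) (y z : Fin (M b) → K) :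
    st b x y z (zi b) = z := by
  unfold st
  rw [update_self]

theorem st_ne {K : Type*} (b : B) (x : Tup (dm N M) K) (y z : Fin (M b) → K)
    {t : A ⊕ (B ⊕ B)} (h1 : t ≠ yi b) (h2 : t ≠ zi b) : st b x y z t = x t := by
  unfold st
  rw [update_of_ne h2, update_of_ne h1]

theorem st_self {K : Type*} (b : B) (x : Tup (dm N M) K) : st b x (x (yi b)) (x (zi b)) = x := by
  unfold st
  rw [update_eq_self, update_eq_self]

theorem st_comm {K : Type*} (b : B) (x : Tup (dm N M) K) (y z : Fin (M b) → K) :
    st b x y z = update (update x (zi b) z) (yi b) y := update_comm (yz b) _ _ _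

theorem ev_st1 {K : Type*} [Field K] (t : Ten (dm N M) K) (b : B) (x : Tup (dm N M) K)
    (y z w : Fin (M b) → K) (c d : K) : ev t (st b x (c • y + d • z) w) =
      c * ev t (st b x y w) + d * ev t (st b x z w) := by
  rw [st_comm, st_comm, st_comm]
  exact ev_lin t (yi b) (update x (zi b) w) c d y z

theorem ev_st2 {K : Type*} [Field K] (t : Ten (dm N M) K) (b : B) (x : Tup (dm N M) K)
    (w y z : Fin (M b) → K) (c d : K) : ev t (st b x w (c • y + d • z)) =
      c * ev t (st b x w y) + d * ev t (st b x w z) :=
  ev_lin t (zi b) (update x (yi b) w) c d y z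

theorem ev_det {K : Type*} [Field K] [CharZero K] {t : Ten (dm N M) K} (ht : As t) (b : B)
    (x : Tup (dm N M) K) (y z : Fin (M b) → K) (α β γ δ : K) :
    ev t (st b x (α • y + β • z) (γ • y + δ • z)) = (α * δ - β * γ) * ev t (st b x y z) := by
  have h0 : ∀ y : Fin (M b) → K, ev t (st b x y y) = 0 := by
    intro y
    refine alt_zero ht b _ ?_
    rw [st_zi]
    exact (st_yi b x y y).symm
  have h1 := h0 ((1 : K) • y + (1 : K) • z)
  rw [ev_st2, ev_st1, ev_st1, h0, h0] at h1
  rw [ev_st2, ev_st1, ev_st1, h0, h0]
  linear_combination (β * γ) * h1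

theorem mt_plane {K : Type*} [Field K] [CharZero K] {T : Fin k → Ten (dm N M) K}
    (hT : ∀ i, As (T i)) {u v : A ⊕ (B ⊕ B)} {b : B} (h1 : yi b ≠ u) (h2 : yi b ≠ v)
    (h3 : zi b ≠ u) (h4 : zi b ≠ v) (x : Tup (dm N M) K) (y z : Fin (M b) → K) (α β γ δ : K)
    (i : Fin k) (l : Fin (dm N M u)) (l' : Fin (dm N M v)) :
    mt T u v (st b x (α • y + β • z) (γ • y + δ • z)) i l l' =
      (α * δ - β * γ) * mt T u v (st b x y z) i l l' := by
  have e : ∀ y z : Fin (M b) → K, update (update (st b x y z) v
      (Pi.single l' 1)) u (Pi.single l 1) = st b (update (update x v (Pi.single l' 1)) u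
        (Pi.single l 1)) y z := by
    intro y z
    unfold st
    rw [update_comm h4, update_comm h3, update_comm h2, update_comm h1]
  unfold mt
  rw [e, e, ev_det (hT i)]

end Pool.Agent.L5helper6.BF
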