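import Pool.Agent.L5helper6.BF.Eng

/-!
The sum over the dyadic boxes.
-/

namespace Pool.Agent.L5helper6.BF

open scoped Classical
open NumberField Module Function
open Pool.Agent Pool.Agent.N852.GR

set_option linter.unusedSectionVars false

variable {F : Type} [Field F] [NumberField F]
variable {V : Type} [Fintype V] [DecidableEq V] {n : V → ℕ} {k : ℕ}

/-- The good solutions of bounded weighted size. -/
def WS (T : Fin k → Ten n (𝓞 F)) (w : V → ℝ) (Y : ℝ) : Set (Tup n (𝓞 F)) :=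
  {x | (∀ v, x v ≠ 0) ∧ Inc T x ∧ (∀ v, Gd T v x) ∧
    ∏ v, ‖(io (x v) : Fin (n v) → EE F)‖ ^ w v ≤ Y}

theorem ws_le (T : Fin k → Ten n (𝓞 F)) (a : V → ℕ)
    (h : ∀ ε : ℝ, 0 < ε → ∃ C : ℝ, 1 ≤ C ∧ ∀ (M : ℝ) (X : V → ℝ), 1 ≤ M → (∀ u, 1 ≤ X u) →
      (∀ u, X u ≤ M) → ((US T X).ncard : ℝ) ≤ C * Nm a X * M ^ ε)
    (w : V → ℝ) {w₀ : ℝ} (hw₀ : 0 < w₀) (hw : ∀ v, w₀ ≤ w v) {α : ℝ}
    (hα : ∀ v, (a v : ℝ) ≤ α * w v) (hα0 : 0 ≤ α) {ε : ℝ} (hε : 0 < ε) :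
    ∃ C : ℝ, 1 ≤ C ∧ ∀ Y : ℝ, 1 ≤ Y → (WS T w Y).Finite ∧
      ((WS T w Y).ncard : ℝ) ≤ C * Y ^ (α + ε) := by
  set m := Fintype.card V with hm
  set δ : ℝ := ε * w₀ / (m + 1) with hδ
  have hm0 : (0 : ℝ) < (m : ℝ) + 1 := by positivity
  have hδ0 : 0 < δ := by positivity
  obtain ⟨C, hC, hE⟩ := h δ hδ0
  have hlog2 : 0 < Real.log 2 := Real.log_pos one_lt_two
  set C2 : ℝ := 1 / (δ * Real.log 2) + 1 with hC2
  have hC20 : 0 < C2 := by positivity
  refine ⟨max 1 (C2 ^ m * (C * 2 ^ (∑ v, a v) * 2 ^ δ)), le_max_left _ _, fun Y hY => ?_⟩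
  have hY0 : 0 < Y := by linarith
  set Q : ℝ := Y ^ (1 / w₀) with hQ
  have hQ1 : 1 ≤ Q := Real.one_le_rpow hY (by positivity)
  have hQ0 : 0 < Q := by linarith
  have hQw : Q ^ w₀ = Y := by
    rw [hQ, ← Real.rpow_mul hY0.le, one_div, inv_mul_cancel₀ hw₀.ne', Real.rpow_one]
  set N : ℕ := ⌊Q ^ δ / (δ * Real.log 2)⌋₊ + 1 with hN
  have hNle : (N : ℝ) ≤ C2 * Q ^ δ := by
    have h1 : 1 ≤ Q ^ δ := Real.one_le_rpow hQ1 hδ0.le
    have h2 : ((⌊Q ^ δ / (δ * Real.log 2)⌋₊ : ℕ) : ℝ) ≤ Q ^ δ / (δ * Real.log 2) :=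
      Nat.floor_le (by positivity)
    rw [hN, hC2]
    push_cast
    have h3 : (1 / (δ * Real.log 2) + 1) * Q ^ δ = Q ^ δ / (δ * Real.log 2) + Q ^ δ := by
      field_simp
    rw [h3]
    linarith
  set E : Finset (V → ℕ) := (Fintype.piFinset fun _ => Finset.range N).filter fun e =>
    (∀ v, (2 : ℝ) ^ e v ≤ Q) ∧ ∏ v, ((2 : ℝ) ^ e v) ^ w v ≤ Y with hEd
  set U : Set (Tup n (𝓞 F)) := ⋃ e ∈ E, US T (fun v => (2 : ℝ) ^ (e v + 1)) with hU
  have hUfin : U.Finite := E.finite_toSet.biUnion fun e _ => US_finite T _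
  have hbd : ∀ e ∈ E, ((US T (fun v => (2 : ℝ) ^ (e v + 1))).ncard : ℝ) ≤
      C * 2 ^ (∑ v, a v) * Y ^ α * (2 * Q) ^ δ := by
    intro e he
    rw [hEd, Finset.mem_filter] at he
    obtain ⟨-, he1, he2⟩ := he
    have h1 := hE (2 * Q) (fun v => (2 : ℝ) ^ (e v + 1)) (by linarith)
      (fun u => one_le_pow₀ (by norm_num)) (fun u => by
        show (2 : ℝ) ^ (e u + 1) ≤ _
        rw [pow_succ]
        linarith [he1 u])
    refine h1.trans ?_
    refine mul_le_mul_of_nonneg_right ?_ (by positivity)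
    rw [mul_assoc]
    refine mul_le_mul_of_nonneg_left ?_ (by linarith)
    unfold Nm
    have h2 : ∀ v, ((2 : ℝ) ^ (e v + 1)) ^ a v ≤ 2 ^ a v * (((2 : ℝ) ^ e v) ^ w v) ^ α := by
      intro v
      rw [pow_succ, mul_pow, mul_comm]
      refine mul_le_mul_of_nonneg_left ?_ (by positivity)
      rw [← Real.rpow_natCast ((2 : ℝ) ^ e v) (a v), ← Real.rpow_mul (by positivity)]
      apply Real.rpow_le_rpow_of_exponent_le (one_le_pow₀ (by norm_num))
      rw [mul_comm (w v)]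
      exact hα v
    calc ∏ v, ((2 : ℝ) ^ (e v + 1)) ^ a v ≤ ∏ v, 2 ^ a v * (((2 : ℝ) ^ e v) ^ w v) ^ α :=
          Finset.prod_le_prod (fun v _ => by positivity) fun v _ => h2 v
      _ = 2 ^ (∑ v, a v) * (∏ v, ((2 : ℝ) ^ e v) ^ w v) ^ α := by
          rw [Finset.prod_mul_distrib, Finset.prod_pow_eq_pow_sum,
            Real.finsetProd_rpow _ _ fun v _ => by positivity]
      _ ≤ 2 ^ (∑ v, a v) * Y ^ α := by
          refine mul_le_mul_of_nonneg_left ?_ (by positivity)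
          exact Real.rpow_le_rpow (Finset.prod_nonneg fun v _ => by positivity) he2 hα0
  have hsub : WS T w Y ⊆ U := by
    rintro x ⟨hx0, hx1, hx2, hx3⟩
    have hx4 : ∀ v, 1 ≤ ‖(io (x v) : Fin (n v) → EE F)‖ := fun v => (latP F (n v)).1 _ (hx0 v)
    choose e he1 he2 using fun v => exists_nat_pow_near (hx4 v) one_lt_two
    have hwv : ∀ v, 0 < w v := fun v => hw₀.trans_le (hw v)
    have h1 : ∏ v, ((2 : ℝ) ^ e v) ^ w v ≤ Y := by
      refine le_trans ?_ hx3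
      exact Finset.prod_le_prod (fun v _ => by positivity) fun v _ =>
        Real.rpow_le_rpow (by positivity) (he1 v) (hwv v).le
    have h2 : ∀ v, (2 : ℝ) ^ e v ≤ Q := by
      intro v
      have h3 : ((2 : ℝ) ^ e v) ^ w₀ ≤ Q ^ w₀ := by
        rw [hQw]
        refine le_trans ?_ h1
        calc ((2 : ℝ) ^ e v) ^ w₀ ≤ ((2 : ℝ) ^ e v) ^ w v :=
              Real.rpow_le_rpow_of_exponent_le (one_le_pow₀ (by norm_num)) (hw v)
          _ ≤ ∏ v, ((2 : ℝ) ^ e v) ^ w v := by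
              rw [← Finset.mul_prod_erase Finset.univ _ (Finset.mem_univ v)]
              refine le_mul_of_one_le_right (by positivity) ?_
              apply Finset.prod_induction _ (fun x : ℝ => 1 ≤ x)
                (fun x y hx hy => by nlinarith) le_rfl
              intro u _
              exact Real.one_le_rpow (one_le_pow₀ (by norm_num)) (hwv u).le
      exact (Real.rpow_le_rpow_iff (by positivity) hQ0.le hw₀).1 h3
    rw [hU, Set.mem_iUnion₂]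
    refine ⟨e, ?_, fun v => (he2 v).le, hx1, hx2⟩
    rw [hEd, Finset.mem_filter, Fintype.mem_piFinset]
    refine ⟨fun v => ?_, h2, h1⟩
    rw [Finset.mem_range, hN, Nat.lt_succ_iff]
    apply Nat.le_floor
    have h4 : (e v : ℝ) * Real.log 2 ≤ Real.log Q := by
      rw [← Real.log_pow]
      exact Real.log_le_log (by positivity) (h2 v)
    have h5 := Real.log_le_rpow_div hQ0.le hδ0
    rw [le_div_iff₀ (by positivity)]
    rw [le_div_iff₀ hδ0] at h5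
    nlinarith
  refine ⟨hUfin.subset hsub, ?_⟩
  have h1 : ((WS T w Y).ncard : ℝ) ≤ U.ncard := by
    exact_mod_cast Set.ncard_le_ncard hsub hUfin
  have h2 : (U.ncard : ℝ) ≤ ∑ e ∈ E, C * 2 ^ (∑ v, a v) * Y ^ α * (2 * Q) ^ δ := by
    have h3 : U.ncard ≤ ∑ e ∈ E, (US T (fun v => (2 : ℝ) ^ (e v + 1))).ncard := by
      rw [hU]
      exact Finset.set_ncard_biUnion_le _ _
    have h4 : (U.ncard : ℝ) ≤ ∑ e ∈ E, ((US T (fun v => (2 : ℝ) ^ (e v + 1))).ncard : ℝ) := by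
      exact_mod_cast h3
    exact h4.trans (Finset.sum_le_sum hbd)
  rw [Finset.sum_const, nsmul_eq_mul] at h2
  have h3 : (E.card : ℝ) ≤ (C2 * Q ^ δ) ^ m := by
    have h4 : E.card ≤ N ^ m := by
      refine (Finset.card_filter_le _ _).trans ?_
      rw [Fintype.card_piFinset]
      simp [hm]
    calc (E.card : ℝ) ≤ ((N ^ m : ℕ) : ℝ) := by exact_mod_cast h4
      _ = (N : ℝ) ^ m := by push_cast; rfl
      _ ≤ _ := pow_le_pow_left₀ (Nat.cast_nonneg _) hNle _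
  have h5 : ((WS T w Y).ncard : ℝ) ≤
      (C2 * Q ^ δ) ^ m * (C * 2 ^ (∑ v, a v) * Y ^ α * (2 * Q) ^ δ) :=
    (h1.trans h2).trans (mul_le_mul_of_nonneg_right h3 (by positivity))
  refine h5.trans ?_
  have e1 : (2 * Q) ^ δ = 2 ^ δ * Q ^ δ := Real.mul_rpow (by norm_num) hQ0.le
  have e2 : (Q ^ δ) ^ m * Q ^ δ = Y ^ ε := by
    rw [← pow_succ, ← Real.rpow_natCast, ← Real.rpow_mul hQ0.le, hQ, ← Real.rpow_mul hY0.le]
    congr 1
    rw [hδ]
    push_cast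
    field_simp
  rw [e1, mul_pow]
  calc C2 ^ m * (Q ^ δ) ^ m * (C * 2 ^ (∑ v, a v) * Y ^ α * (2 ^ δ * Q ^ δ))
      = C2 ^ m * (C * 2 ^ (∑ v, a v) * 2 ^ δ) * (Y ^ α * ((Q ^ δ) ^ m * Q ^ δ)) := by ring
    _ = C2 ^ m * (C * 2 ^ (∑ v, a v) * 2 ^ δ) * Y ^ (α + ε) := by
        rw [e2, ← Real.rpow_add hY0]
    _ ≤ _ := mul_le_mul_of_nonneg_right (le_max_right _ _) (by positivity)

end Pool.Agent.L5helper6.BF
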