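import Pool.Agent.L5helper6.BF.Frm
import Pool.Agent.L5helper6.BF.Sum

/-!
From families of vectors to points.
-/

namespace Pool.Agent.L5helper6.BF

open scoped Classical
open NumberField Module Function
open Pool.Agent Pool.Agent.N852.GR

set_option linter.unusedSectionVars false

variable {F : Type} [Field F] [NumberField F]
variable {A B : Type} [Fintype A] [Fintype B] [DecidableEq A] [DecidableEq B] {N : A → ℕ}
  {M : B → ℕ} {k : ℕ}

/-- The height of a frame. -/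
noncomputable def htf (l : A ⊕ B → ℝ) (x : Tup (dm N M) F) : ℝ :=
  (∏ a, Height.mulHeight (x (Sum.inl a) : Fin (N a) → F) ^ l (Sum.inl a)) *
  ∏ b, Height.mulHeight (pl (x (yi b) : Fin (M b) → F) (x (zi b))) ^ l (Sum.inr b)

theorem htf_frame (l : A ⊕ B → ℝ) {x x' : Tup (dm N M) F} (h : Eqf x x') :
    htf l x' = htf l x := by
  unfold htf
  congr 1
  · refine Finset.prod_congr rfl fun a _ => ?_
    obtain ⟨c, hc, h1⟩ := h.1 a
    rw [h1, Height.mulHeight_smul_eq_mulHeight _ hc]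
  · refine Finset.prod_congr rfl fun b _ => ?_
    obtain ⟨α, β, γ, δ, hD, h1, h2⟩ := h.2 b
    have e : pl (x' (yi b) : Fin (M b) → F) (x' (zi b)) =
        (α * δ - β * γ) • pl (x (yi b) : Fin (M b) → F) (x (zi b)) := by
      funext p
      rw [h1, h2]
      show (α * x (yi b) p.1 + β * x (zi b) p.1) * (γ * x (yi b) p.2 + δ * x (zi b) p.2) -
        (α * x (yi b) p.2 + β * x (zi b) p.2) * (γ * x (yi b) p.1 + δ * x (zi b) p.1) =
        (α * δ - β * γ) * (x (yi b) p.1 * x (zi b) p.2 - x (yi b) p.2 * x (zi b) p.1)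
      ring
    rw [e, Height.mulHeight_smul_eq_mulHeight _ hD]

/-- A minimal integral frame. -/
theorem exists_min (x : Tup (dm N M) F) (h1 : ∀ a, x (Sum.inl a) ≠ 0)
    (h2 : ∀ b, LinearIndependent F ![(x (yi b) : Fin (M b) → F), x (zi b)]) :
    ∃ m : Tup (dm N M) (𝓞 F), Eqf x (cF m) ∧ (∀ a, Ml (m (Sum.inl a) : Fin (N a) → 𝓞 F)) ∧
      ∀ b, ∃ P : Submodule F (Fin (M b) → F), finrank F P = 2 ∧
        Mn P (m (yi b) : Fin (M b) → 𝓞 F) (m (zi b)) := by
  choose ma hma ca hca1 hca2 using fun a => exists_ml (x (Sum.inl a) : Fin (N a) → F) (h1 a)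
  choose my mz hm1 hm2 hm3 α β γ δ hm4 hm5 hm6 using
    fun b => exists_mp (x (yi b) : Fin (M b) → F) (x (zi b)) (h2 b)
  refine ⟨fun t => match t with
    | Sum.inl a => ma a
    | Sum.inr (Sum.inl b) => my b
    | Sum.inr (Sum.inr b) => mz b, ⟨fun a => ⟨ca a, hca1 a, hca2 a⟩, fun b =>
      ⟨α b, β b, γ b, δ b, hm6 b, hm4 b, hm5 b⟩⟩, hma, fun b => ⟨_, hm2 b, hm1 b⟩⟩

/-- The weights of the vectors. -/
def wl (l : A ⊕ B → ℝ) (v : A ⊕ (B ⊕ B)) : ℝ := l (gr v)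

theorem li_of_GG {K : Type} [Field K] {T : Fin k → Ten (dm N M) K} {x : Tup (dm N M) K}
    (h : GG T x) : ∀ v : A ⊕ (B ⊕ B), LinearIndependent K (der T v x)
  | Sum.inl a => h.1 a
  | Sum.inr (Sum.inl b) => (h.2 b).comp Sum.inl Sum.inl_injective
  | Sum.inr (Sum.inr b) => (h.2 b).comp Sum.inr Sum.inr_injective

theorem Gd_of_GG {T : Fin k → Ten (dm N M) (𝓞 F)} {m : Tup (dm N M) (𝓞 F)}
    (h : GG (tF T) (cF m)) (v : A ⊕ (B ⊕ B)) : Gd T v m := by
  have e : (fun i => co (der T v m i)) = der (tF T) v (cF m) := by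
    funext i l
    exact (der_map (algebraMap (𝓞 F) F) T v m i l).symm
  have h1 := li_of_GG h v
  rw [← e] at h1
  exact h1

theorem Inc_of {T : Fin k → Ten (dm N M) (𝓞 F)} {m : Tup (dm N M) (𝓞 F)}
    (h : Inc (tF T) (cF m)) : Inc T m := by
  intro i
  have h1 := ev_cF (T i) m
  have h2 : ((ev (T i) m : 𝓞 F) : F) = 0 := h1.symm.trans (h i)
  exact_mod_cast h2

theorem count_pts [Nonempty (A ⊕ B)] (T : Fin k → Ten (dm N M) (𝓞 F)) (hT : ∀ i, As (T i))
    (hE : ∀ ε : ℝ, 0 < ε → ∃ C : ℝ, 1 ≤ C ∧ ∀ (Z : ℝ) (X : A ⊕ (B ⊕ B) → ℝ), 1 ≤ Z →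
      (∀ u, 1 ≤ X u) → (∀ u, X u ≤ Z) → ((US T X).ncard : ℝ) ≤
        C * Nm (fun v => finrank ℚ F * (dm N M v - k)) X * Z ^ ε)
    (l : A ⊕ B → ℝ) (hl : ∀ j, 0 < l j) {α : ℝ} (hα0 : 0 ≤ α)
    (hα : ∀ v : A ⊕ (B ⊕ B), ((dm N M v - k : ℕ) : ℝ) ≤ α * wl l v) {ε : ℝ} (hε : 0 < ε) :
    ∃ C : ℝ, 1 ≤ C ∧ ∀ Y : ℝ, 1 ≤ Y → ∀ {ι : Type} (S : Set ι) (φ : ι → Tup (dm N M) F),
      (∀ P ∈ S, (∀ a, φ P (Sum.inl a) ≠ 0) ∧
        (∀ b, LinearIndependent F ![(φ P (yi b) : Fin (M b) → F), φ P (zi b)]) ∧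
        Inc (tF T) (φ P) ∧ GG (tF T) (φ P) ∧ htf l (φ P) ≤ Y) →
      (∀ P ∈ S, ∀ P' ∈ S, ∀ x, Eqf (φ P) x → Eqf (φ P') x → P = P') →
      S.Finite ∧ (S.ncard : ℝ) ≤ C * Y ^ (α + ε) := by
  have hd : 0 < finrank ℚ F := finrank_pos
  set d := finrank ℚ F with hddef
  have hdR : (0 : ℝ) < d := by exact_mod_cast hd
  obtain ⟨C1, hC1, hH1⟩ := ml_hgt F
  obtain ⟨C2, hC2, hH2⟩ := hgtP F (arcP F (pig1P F)) (cttP F (pig2P F))
  have hne : Nonempty (A ⊕ (B ⊕ B)) := by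
    obtain ⟨a | b⟩ := (inferInstance : Nonempty (A ⊕ B))
    · exact ⟨Sum.inl a⟩
    · exact ⟨yi b⟩
  set w : A ⊕ (B ⊕ B) → ℝ := fun v => d * wl l v with hw
  have hwpos : ∀ v, 0 < w v := fun v => mul_pos hdR (hl _)
  obtain ⟨v₀, hv₀⟩ := Finite.exists_min w
  obtain ⟨C, hC, hWS⟩ := ws_le T (fun v => d * (dm N M v - k)) hE w (hwpos v₀) hv₀
    (α := α) (fun v => by
      rw [hw]
      push_cast
      have := hα v
      calc (d : ℝ) * ((dm N M v - k : ℕ) : ℝ) ≤ d * (α * wl l v) :=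
            mul_le_mul_of_nonneg_left this hdR.le
        _ = α * (d * wl l v) := by ring) hα0 hε
  set C3 : ℝ := (∏ a : A, C1 ^ l (Sum.inl a)) * ∏ b : B, C2 ^ l (Sum.inr b) with hC3
  have hone : ∀ {ι : Type} [Fintype ι] (f : ι → ℝ), (∀ i, 1 ≤ f i) → 1 ≤ ∏ i, f i := by
    intro ι _ f hf
    exact Finset.prod_induction _ (fun x : ℝ => 1 ≤ x) (fun x y hx hy => by nlinarith) le_rfl
      fun i _ => hf i
  have hC31 : 1 ≤ C3 := by
    have h1 : 1 ≤ ∏ a : A, C1 ^ l (Sum.inl a) := hone _ fun a => Real.one_le_rpow hC1 (hl _).le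
    have h2 : 1 ≤ ∏ b : B, C2 ^ l (Sum.inr b) := hone _ fun b => Real.one_le_rpow hC2 (hl _).le
    nlinarith
  refine ⟨C * C3 ^ (α + ε), ?_, fun Y hY ι S φ hS hinj => ?_⟩
  · have : 1 ≤ C3 ^ (α + ε) := Real.one_le_rpow hC31 (by linarith)
    nlinarith
  have hex : ∀ P : ι, ∃ m : Tup (dm N M) (𝓞 F), P ∈ S → Eqf (φ P) (cF m) ∧
      (∀ a, Ml (m (Sum.inl a) : Fin (N a) → 𝓞 F)) ∧
      ∀ b, ∃ P : Submodule F (Fin (M b) → F), finrank F P = 2 ∧
        Mn P (m (yi b) : Fin (M b) → 𝓞 F) (m (zi b)) := by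
    intro P
    by_cases hP : P ∈ S
    · obtain ⟨m, hm⟩ := exists_min (φ P) (hS P hP).1 (hS P hP).2.1
      exact ⟨m, fun _ => hm⟩
    · exact ⟨fun _ _ => 0, fun h => absurd h hP⟩
  choose m hm using hex
  obtain ⟨hfin, hcard⟩ := hWS (C3 * Y) (by nlinarith)
  have hmaps : ∀ P ∈ S, m P ∈ WS T w (C3 * Y) := by
    intro P hP
    obtain ⟨hE1, hml, hmn⟩ := hm P hP
    obtain ⟨h1, h2, h3, h4, h5⟩ := hS P hP
    have h6 : Inc (tF T) (cF (m P)) := Inc_frame (As_tF hT) hE1 h3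
    have h7 : GG (tF T) (cF (m P)) := GG_frame (As_tF hT) hE1 h4
    have h8 : htf l (cF (m P)) ≤ Y := by
      rw [htf_frame l hE1]
      exact h5
    refine ⟨?_, Inc_of h6, Gd_of_GG h7, ?_⟩
    · rintro (a | b | b)
      · exact (hml a).1
      · obtain ⟨P', -, hP'⟩ := hmn b
        exact hP'.2.2.1
      · obtain ⟨P', -, hP'⟩ := hmn b
        intro h0
        apply hP'.2.2.2.1
        have h9 : co (m P (zi b) : Fin (M b) → 𝓞 F) = 0 := by
          have e : (m P (zi b) : Fin (M b) → 𝓞 F) = 0 := h0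
          rw [e, co_zero']
        rw [h9]
        exact Submodule.zero_mem _
    · refine le_trans ?_ (mul_le_mul_of_nonneg_left h8 (by linarith))
      rw [Fintype.prod_sum_type, Fintype.prod_sum_type, ← Finset.prod_mul_distrib]
      have e1 : ∀ a : A, ‖(io (m P (Sum.inl a)) : Fin (N a) → EE F)‖ ^ w (Sum.inl a) ≤
          C1 ^ l (Sum.inl a) *
            Height.mulHeight (cF (m P) (Sum.inl a) : Fin (N a) → F) ^ l (Sum.inl a) := by
        intro a
        have h9 := hH1 (N a) (m P (Sum.inl a)) (hml a)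
        have h10 : ‖(io (m P (Sum.inl a)) : Fin (N a) → EE F)‖ ^ w (Sum.inl a) =
            (‖(io (m P (Sum.inl a)) : Fin (N a) → EE F)‖ ^ d) ^ l (Sum.inl a) := by
          rw [← Real.rpow_natCast, ← Real.rpow_mul (norm_nonneg _)]
          rfl
        rw [h10, ← Real.mul_rpow (by linarith) (Height.mulHeight_pos _).le]
        exact Real.rpow_le_rpow (by positivity) h9 (hl _).le
      have e2 : ∀ b : B, ‖(io (m P (yi b)) : Fin (M b) → EE F)‖ ^ w (yi b) *
          ‖(io (m P (zi b)) : Fin (M b) → EE F)‖ ^ w (zi b) ≤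
          C2 ^ l (Sum.inr b) * Height.mulHeight (pl (cF (m P) (yi b) : Fin (M b) → F)
            (cF (m P) (zi b))) ^ l (Sum.inr b) := by
        intro b
        obtain ⟨P', hP1, hP2⟩ := hmn b
        have h9 := hH2 (M b) P' _ _ hP1 hP2
        have h10 : ‖(io (m P (yi b)) : Fin (M b) → EE F)‖ ^ w (yi b) *
            ‖(io (m P (zi b)) : Fin (M b) → EE F)‖ ^ w (zi b) =
            ((‖(io (m P (yi b)) : Fin (M b) → EE F)‖ *
              ‖(io (m P (zi b)) : Fin (M b) → EE F)‖) ^ d) ^ l (Sum.inr b) := by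
          rw [← Real.rpow_natCast, ← Real.rpow_mul (by positivity),
            Real.mul_rpow (norm_nonneg _) (norm_nonneg _)]
          rfl
        rw [h10, ← Real.mul_rpow (by linarith) (Height.mulHeight_pos _).le]
        exact Real.rpow_le_rpow (by positivity) h9 (hl _).le
      calc (∏ a : A, ‖(io (m P (Sum.inl a)) : Fin (N a) → EE F)‖ ^ w (Sum.inl a)) *
            ∏ b : B, ‖(io (m P (yi b)) : Fin (M b) → EE F)‖ ^ w (yi b) *
              ‖(io (m P (zi b)) : Fin (M b) → EE F)‖ ^ w (zi b)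
          ≤ (∏ a : A, C1 ^ l (Sum.inl a) *
              Height.mulHeight (cF (m P) (Sum.inl a) : Fin (N a) → F) ^ l (Sum.inl a)) *
            ∏ b : B, C2 ^ l (Sum.inr b) * Height.mulHeight (pl (cF (m P) (yi b) : Fin (M b) → F)
              (cF (m P) (zi b))) ^ l (Sum.inr b) := by
            refine mul_le_mul (Finset.prod_le_prod (fun a _ => by positivity) fun a _ => e1 a)
              (Finset.prod_le_prod (fun b _ => by positivity) fun b _ => e2 b)
              (Finset.prod_nonneg fun b _ => by positivity)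
              (Finset.prod_nonneg fun a _ => ?_)
            have := (Height.mulHeight_pos (cF (m P) (Sum.inl a) : Fin (N a) → F)).le
            positivity
        _ = C3 * htf l (cF (m P)) := by
            rw [Finset.prod_mul_distrib, Finset.prod_mul_distrib, hC3]
            unfold htf
            ring
  have hinj' : Set.InjOn m S := by
    intro P hP P' hP' h
    refine hinj P hP P' hP' (cF (m P)) (hm P hP).1 ?_
    rw [h]
    exact (hm P' hP').1
  refine ⟨Set.Finite.of_injOn hmaps hinj' hfin, ?_⟩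
  have h1 : (S.ncard : ℝ) ≤ ((WS T w (C3 * Y)).ncard : ℝ) := by
    exact_mod_cast Set.ncard_le_ncard_of_injOn m hmaps hinj' hfin
  refine (h1.trans hcard).trans (le_of_eq ?_)
  rw [Real.mul_rpow (by linarith) (by linarith)]
  ring

end Pool.Agent.L5helper6.BF
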