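import Pool.Agent.L5helper6.BF.Mix

/-!
Reduction of the families to minimal representatives, and the bound for the bad families.
-/

namespace Pool.Agent.L5helper6.BF

open scoped Classical
open NumberField Module Function
open Pool.Agent Pool.Agent.N852.GR

set_option linter.unusedSectionVars false

section gen

variable {F : Type} [Field F] [NumberField F]
variable {V : Type} [Fintype V] [DecidableEq V] {n : V → ℕ} {k : ℕ}

/-- The coefficients in `F`. -/
def tF (T : Fin k → Ten n (𝓞 F)) : Fin k → Ten n F := fun i j => (T i j : F)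

/-- The family in `F`. -/
def cF (x : Tup n (𝓞 F)) : Tup n F := fun t => co (x t)

theorem cF_update (x : Tup n (𝓞 F)) (t : V) (z : Fin (n t) → 𝓞 F) :
    cF (update x t z) = update (cF x) t (co z) := by
  funext u
  unfold cF
  by_cases h : u = t
  · subst h
    rw [update_self, update_self]
  · rw [update_of_ne h, update_of_ne h]

theorem ev_cF (t : Ten n (𝓞 F)) (x : Tup n (𝓞 F)) :
    ev (fun j => (t j : F)) (cF x) = ((ev t x : 𝓞 F) : F) := ev_map (algebraMap (𝓞 F) F) t x

theorem mt_cF (T : Fin k → Ten n (𝓞 F)) (u v : V) (x : Tup n (𝓞 F)) (i : Fin k)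
    (l : Fin (n u)) (l' : Fin (n v)) :
    mt (tF T) u v (cF x) i l l' = ((mt T u v x i l l' : 𝓞 F) : F) :=
  mt_map (algebraMap (𝓞 F) F) T u v x i l l'

theorem gd_ne {T : Fin k → Ten n (𝓞 F)} {v : V} {x : Tup n (𝓞 F)} (h : Gd T v x) (i : Fin k) :
    ∃ l, ev (T i) (update x v (Pi.single l 1)) ≠ 0 := by
  by_contra hcon
  push Not at hcon
  apply h.ne_zero i
  funext l
  show ((der T v x i l : 𝓞 F) : F) = 0
  have : der T v x i l = 0 := hcon l
  rw [this]
  simp

theorem line_step (T : Fin k → Ten n (𝓞 F)) {u v t : V} (hu : t ≠ u) (hv : t ≠ v)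
    (y : Tup n (𝓞 F)) (hy : y t ≠ 0) : ∃ x' : Fin (n t) → 𝓞 F, Ml x' ∧ ∃ c : F, c ≠ 0 ∧
      ∀ i l l', mt (tF T) u v (cF (update y t x')) i l l' = c * mt (tF T) u v (cF y) i l l' := by
  obtain ⟨x', h1, c, hc, h2⟩ := exists_ml (co (y t)) (Ctt.co_ne hy)
  refine ⟨x', h1, c, hc, fun i l l' => ?_⟩
  rw [cF_update, h2, mt_line (tF T) hu hv]
  congr 2
  have : co (y t) = cF y t := rfl
  rw [this, update_eq_self]

end gen

variable {F : Type} [Field F] [NumberField F]
variable {A B : Type} [Fintype A] [Fintype B] [DecidableEq A] [DecidableEq B] {N : A → ℕ}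
  {M : B → ℕ} {k : ℕ}

theorem As_tF {T : Fin k → Ten (dm N M) (𝓞 F)} (hT : ∀ i, As (T i)) (i : Fin k) :
    As (tF T i) := by
  intro b j
  show ((T i (sw b j) : 𝓞 F) : F) = -(T i j : F)
  rw [hT i b j]
  exact map_neg (algebraMap (𝓞 F) F) _

/-- The admissible families outside two vectors. -/
def Ad {K : Type*} [Field K] (u v : A ⊕ (B ⊕ B)) (x : Tup (dm N M) K) : Prop :=
  (∀ t, t ≠ u → t ≠ v → x t ≠ 0) ∧
  ∀ b : B, yi b ≠ u → yi b ≠ v → zi b ≠ u → zi b ≠ v →
    LinearIndependent K ![(x (yi b) : Fin (M b) → K), x (zi b)]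

theorem ev_dep {K : Type*} [Field K] [CharZero K] {t : Ten (dm N M) K} (ht : As t) (b : B)
    (x : Tup (dm N M) K) (h : ¬ LinearIndependent K ![(x (yi b) : Fin (M b) → K), x (zi b)]) :
    ev t x = 0 := by
  rw [LinearIndependent.pair_iff] at h
  push Not at h
  obtain ⟨s, c, h1, h2⟩ := h
  by_cases hc : c = 0
  · have hs : s ≠ 0 := fun hs => h2 hs hc
    rw [hc, zero_smul, add_zero] at h1
    exact ev_zero t (yi b) x ((smul_eq_zero.1 h1).resolve_left hs)
  · have h3 : (x (zi b) : Fin (M b) → K) = (-(s / c)) • (x (yi b) : Fin (M b) → K) +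
        (0 : K) • (0 : Fin (M b) → K) := by
      rw [smul_zero, add_zero, neg_smul]
      have h4 : (x (zi b) : Fin (M b) → K) = c⁻¹ • (c • (x (zi b) : Fin (M b) → K)) := by
        rw [smul_smul, inv_mul_cancel₀ hc, one_smul]
      have h5 : c • (x (zi b) : Fin (M b) → K) = -(s • (x (yi b) : Fin (M b) → K)) :=
        (eq_neg_of_add_eq_zero_right h1)
      rw [h4, h5, smul_neg, smul_smul, div_eq_inv_mul]
    have h6 : (x (yi b) : Fin (M b) → K) = (1 : K) • (x (yi b) : Fin (M b) → K) +
        (0 : K) • (0 : Fin (M b) → K) := by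
      rw [one_smul, smul_zero, add_zero]
    have h7 := ev_det ht b x (x (yi b)) 0 1 0 (-(s / c)) 0
    rw [← h3, ← h6, st_self] at h7
    rw [h7]
    ring

theorem ad_of_gd {T : Fin k → Ten (dm N M) (𝓞 F)} (hT : ∀ i, As (T i)) (hk : 1 ≤ k)
    {u v : A ⊕ (B ⊕ B)} {y : Tup (dm N M) (𝓞 F)} {w : Fin (dm N M u) → 𝓞 F}
    (h : Gd T v (update y u w)) : Ad u v (cF y) := by
  obtain ⟨l, hl⟩ := gd_ne h ⟨0, hk⟩
  have hl' : ev (tF T ⟨0, hk⟩) (cF (update (update y u w) v (Pi.single l 1))) ≠ 0 := by
    have e := ev_cF (T ⟨0, hk⟩) (update (update y u w) v (Pi.single l 1))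
    intro h0
    apply hl
    have h1 : ((ev (T ⟨0, hk⟩) (update (update y u w) v (Pi.single l 1)) : 𝓞 F) : F) = 0 :=
      e.symm.trans h0
    exact_mod_cast h1
  have hx : ∀ t, t ≠ u → t ≠ v → cF (update (update y u w) v (Pi.single l 1)) t = cF y t := by
    intro t h1 h2
    rw [cF_update, cF_update, update_of_ne h2, update_of_ne h1]
  constructor
  · intro t h1 h2 h3
    exact hl' (ev_zero _ t _ ((hx t h1 h2).trans h3))
  · intro b h1 h2 h3 h4
    by_contra hcon
    apply hl'
    refine ev_dep (As_tF hT _) b _ ?_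
    rw [hx _ h1 h2, hx _ h3 h4]
    exact hcon

/-- The vectors of a factor. -/
def Sl : A ⊕ B → A ⊕ (B ⊕ B) → Prop
  | Sum.inl a, t => t = Sum.inl a
  | Sum.inr b, t => t = yi b ∨ t = zi b

/-- The factor is reduced. -/
def Rdc (u v : A ⊕ (B ⊕ B)) (x : Tup (dm N M) (𝓞 F)) : A ⊕ B → Prop
  | Sum.inl a => Sum.inl a ≠ u → Sum.inl a ≠ v → Ml (x (Sum.inl a))
  | Sum.inr b => (yi b ≠ u → yi b ≠ v → zi b ≠ u → zi b ≠ v →
      ∃ P, Mn P (x (yi b) : Fin (M b) → 𝓞 F) (x (zi b))) ∧
      (yi b ≠ u → yi b ≠ v → (zi b = u ∨ zi b = v) → Ml (x (yi b))) ∧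
      (zi b ≠ u → zi b ≠ v → (yi b = u ∨ yi b = v) → Ml (x (zi b)))

theorem Rdc_congr {u v : A ⊕ (B ⊕ B)} {x x' : Tup (dm N M) (𝓞 F)} {j : A ⊕ B}
    (h : ∀ t, Sl j t → x' t = x t) (hx : Rdc u v x j) : Rdc u v x' j := by
  rcases j with a | b
  · have e : x' (Sum.inl a) = x (Sum.inl a) := h _ rfl
    intro h1 h2
    rw [e]
    exact hx h1 h2
  · have e1 : x' (yi b) = x (yi b) := h _ (Or.inl rfl)
    have e2 : x' (zi b) = x (zi b) := h _ (Or.inr rfl)
    obtain ⟨h1, h2, h3⟩ := hx
    refine ⟨fun q1 q2 q3 q4 => ?_, fun q1 q2 q3 => ?_, fun q1 q2 q3 => ?_⟩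
    · obtain ⟨P, hP⟩ := h1 q1 q2 q3 q4
      refine ⟨P, ?_⟩
      rw [e1, e2]
      exact hP
    · rw [e1]
      exact h2 q1 q2 q3
    · rw [e2]
      exact h3 q1 q2 q3

theorem Sl_disj {j j' : A ⊕ B} (h : j ≠ j') {t : A ⊕ (B ⊕ B)} (h1 : Sl j t) : ¬ Sl j' t := by
  rcases j with a | b <;> rcases j' with a' | b'
  · intro h2
    have h1' : t = Sum.inl a := h1
    have h2' : t = Sum.inl a' := h2
    apply h
    rw [h1'] at h2'
    have := Sum.inl_injective h2'
    rw [this]
  · intro h2
    have h1' : t = Sum.inl a := h1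
    rcases h2 with h2 | h2 <;> · rw [h1'] at h2; exact absurd h2 (by simp [yi, zi])
  · intro h2
    have h2' : t = Sum.inl a' := h2
    rcases h1 with h1 | h1 <;> · rw [h2'] at h1; exact absurd h1 (by simp [yi, zi])
  · intro h2
    apply h
    rcases h1 with h1 | h1 <;> rcases h2 with h2 | h2 <;> rw [h1] at h2 <;> simp_all [yi, zi]

/-- **The reduction.** -/
theorem reduce {T : Fin k → Ten (dm N M) (𝓞 F)} (hT : ∀ i, As (T i)) {u v : A ⊕ (B ⊕ B)}
    {y : Tup (dm N M) (𝓞 F)} (hy : Ad u v (cF y)) : ∃ (y' : Tup (dm N M) (𝓞 F)) (c : F), c ≠ 0 ∧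
      (∀ i l l', mt (tF T) u v (cF y') i l l' = c * mt (tF T) u v (cF y) i l l') ∧
      ∀ j, Rdc u v y' j := by
  have key : ∀ s : Finset (A ⊕ B), ∃ (y' : Tup (dm N M) (𝓞 F)) (c : F), c ≠ 0 ∧
      (∀ i l l', mt (tF T) u v (cF y') i l l' = c * mt (tF T) u v (cF y) i l l') ∧
      (∀ j ∈ s, Rdc u v y' j) ∧ ∀ t, (∀ j ∈ s, ¬ Sl j t) → y' t = y t := by
    intro s
    induction s using Finset.induction_on with
    | empty =>
      exact ⟨y, 1, one_ne_zero, fun i l l' => (one_mul _).symm,
        fun j hj => absurd hj (Finset.notMem_empty j), fun t _ => rfl⟩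
    | insert j s hj ih =>
      obtain ⟨y', c, hc, h1, h2, h3⟩ := ih
      -- it is enough to change the vectors of the factor
      have step : ∀ (y'' : Tup (dm N M) (𝓞 F)) (c' : F), c' ≠ 0 →
          (∀ i l l', mt (tF T) u v (cF y'') i l l' = c' * mt (tF T) u v (cF y') i l l') →
          Rdc u v y'' j → (∀ t, ¬ Sl j t → y'' t = y' t) →
          ∃ (y' : Tup (dm N M) (𝓞 F)) (c : F), c ≠ 0 ∧
            (∀ i l l', mt (tF T) u v (cF y') i l l' = c * mt (tF T) u v (cF y) i l l') ∧
            (∀ j' ∈ insert j s, Rdc u v y' j') ∧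
            ∀ t, (∀ j' ∈ insert j s, ¬ Sl j' t) → y' t = y t := by
        intro y'' c' hc' q1 q2 q3
        refine ⟨y'', c' * c, mul_ne_zero hc' hc, fun i l l' => by rw [q1, h1, mul_assoc], ?_, ?_⟩
        · intro j' hj'
          rw [Finset.mem_insert] at hj'
          rcases hj' with rfl | hj'
          · exact q2
          · have hne : j' ≠ j := by
              rintro rfl
              exact hj hj'
            exact Rdc_congr (fun t ht => q3 t (Sl_disj hne ht)) (h2 j' hj')
        · intro t ht
          rw [q3 t (ht j (Finset.mem_insert_self _ _))]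
          exact h3 t fun j' hj' => ht j' (Finset.mem_insert_of_mem hj')
      have hsame : ∀ t, Sl j t → y' t = y t := by
        intro t ht
        refine h3 t fun j' hj' => ?_
        have hne : j ≠ j' := by
          rintro rfl
          exact hj hj'
        exact Sl_disj hne ht
      have hne0 : ∀ t, Sl j t → t ≠ u → t ≠ v → y' t ≠ 0 := by
        intro t ht q1 q2 q3
        rw [hsame t ht] at q3
        apply hy.1 t q1 q2
        show co (y t) = 0
        rw [q3, co_zero']
      rcases j with a | b
      · by_cases hau : Sum.inl a = u ∨ Sum.inl a = v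
        · refine step y' 1 one_ne_zero (fun i l l' => (one_mul _).symm) ?_ fun t _ => rfl
          intro q1 q2
          rcases hau with h | h
          · exact absurd h q1
          · exact absurd h q2
        · push Not at hau
          obtain ⟨x', q1, c', hc', q2⟩ := line_step T hau.1 hau.2 y' (hne0 _ rfl hau.1 hau.2)
          refine step (update y' (Sum.inl a) x') c' hc' q2 ?_ ?_
          · intro _ _
            rw [update_self]
            exact q1
          · intro t ht
            exact update_of_ne (fun h => ht h) _ _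
      · by_cases hyu : yi b = u ∨ yi b = v <;> by_cases hzu : zi b = u ∨ zi b = v
        · refine step y' 1 one_ne_zero (fun i l l' => (one_mul _).symm) ?_ fun t _ => rfl
          refine ⟨fun q1 q2 _ _ => ?_, fun q1 q2 _ => ?_, fun q1 q2 _ => ?_⟩
          · rcases hyu with h | h
            · exact absurd h q1
            · exact absurd h q2
          · rcases hyu with h | h
            · exact absurd h q1
            · exact absurd h q2
          · rcases hzu with h | h
            · exact absurd h q1
            · exact absurd h q2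
        · have hzu' := hzu
          push Not at hzu'
          obtain ⟨x', q1, c', hc', q2⟩ := line_step T hzu'.1 hzu'.2 y'
            (hne0 _ (Or.inr rfl) hzu'.1 hzu'.2)
          refine step (update y' (zi b) x') c' hc' q2 ?_ ?_
          · refine ⟨fun q1 q2 _ _ => ?_, fun q1 q2 _ => ?_, fun _ _ _ => ?_⟩
            · rcases hyu with h | h
              · exact absurd h q1
              · exact absurd h q2
            · rcases hyu with h | h
              · exact absurd h q1
              · exact absurd h q2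
            · rw [update_self]
              exact q1
          · intro t ht
            exact update_of_ne (fun h => ht (Or.inr h)) _ _
        · have hyu' := hyu
          push Not at hyu'
          obtain ⟨x', q1, c', hc', q2⟩ := line_step T hyu'.1 hyu'.2 y'
            (hne0 _ (Or.inl rfl) hyu'.1 hyu'.2)
          refine step (update y' (yi b) x') c' hc' q2 ?_ ?_
          · refine ⟨fun _ _ q1 q2 => ?_, fun _ _ _ => ?_, fun q1 q2 _ => ?_⟩
            · rcases hzu with h | h
              · exact absurd h q1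
              · exact absurd h q2
            · rw [update_self]
              exact q1
            · rcases hzu with h | h
              · exact absurd h q1
              · exact absurd h q2
          · intro t ht
            exact update_of_ne (fun h => ht (Or.inl h)) _ _
        · push Not at hyu hzu
          have hli : LinearIndependent F ![co (y' (yi b) : Fin (M b) → 𝓞 F), co (y' (zi b))] := by
            have h := hy.2 b hyu.1 hyu.2 hzu.1 hzu.2
            rw [hsame _ (Or.inl rfl), hsame _ (Or.inr rfl)]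
            exact h
          obtain ⟨a', b', q1, -, -, α, β, γ, δ, q2, q3, q4⟩ := exists_mp _ _ hli
          have hcst : cF (st b y' a' b') = st b (cF y') (co a') (co b') := by
            unfold st
            rw [cF_update, cF_update]
          refine step (st b y' a' b') (α * δ - β * γ) q4 ?_ ?_ ?_
          · intro i l l'
            rw [hcst, q2, q3, mt_plane (As_tF hT) hyu.1 hyu.2 hzu.1 hzu.2]
            congr 2
            exact st_self b (cF y')
          · refine ⟨fun _ _ _ _ => ⟨Submodule.span F {co (y' (yi b) : Fin (M b) → 𝓞 F),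
              co (y' (zi b) : Fin (M b) → 𝓞 F)}, ?_⟩, fun _ _ q => ?_, fun _ _ q => ?_⟩
            · rw [st_yi, st_zi]
              exact q1
            · rcases q with h | h
              · exact absurd h hzu.1
              · exact absurd h hzu.2
            · rcases q with h | h
              · exact absurd h hyu.1
              · exact absurd h hyu.2
          · intro t ht
            exact st_ne b _ _ _ (fun h => ht (Or.inl h)) fun h => ht (Or.inr h)
  obtain ⟨y', c, hc, h1, h2, -⟩ := key Finset.univ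
  exact ⟨y', c, hc, h1, fun j => h2 j (Finset.mem_univ j)⟩

end Pool.Agent.L5helper6.BF
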