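import Pool.Agent.N852.GR.Rnk

/-!
Linear combinations of rectangular matrices over `F ⊗ ℝ`: a uniform lower bound on large subspaces
(after `Pool.Agent.N852.GR.Rnk`, where the matrices are square and integral).
-/

namespace Pool.Agent.L5helper6.BF

open scoped Classical
open NumberField Module Matrix Filter Topology
open Pool.Agent.N852.GR

variable {F : Type} [Field F] [NumberField F] {p n k : ℕ}

/-- The map `z ↦ ∑ s_i M_i z`. -/
noncomputable def Se (M : Fin k → Fin p → Fin n → EE F) (s : Fin k → EE F) :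
    (Fin n → EE F) →ₗ[ℝ] (Fin p → EE F) where
  toFun z := fun j => ∑ i, s i * ∑ l, M i j l * z l
  map_add' := by
    intro x y
    funext j
    simp only [Pi.add_apply, mul_add, Finset.sum_add_distrib]
  map_smul' := by
    intro c x
    funext j
    simp only [Pi.smul_apply, RingHom.id_apply, mul_smul_comm, ← Finset.smul_sum]

/-- The matrices at a real place. -/
noncomputable def mr (w : {w : InfinitePlace F // w.IsReal}) (M : Fin k → Fin p → Fin n → EE F)
    (l : Fin k → ℂ) : Matrix (Fin p) (Fin n) ℂ := ∑ i, l i • Matrix.of fun j m => (((M i j m).1 w : ℝ) : ℂ)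

/-- The matrices at a complex place. -/
noncomputable def mc (w : {w : InfinitePlace F // w.IsComplex})
    (M : Fin k → Fin p → Fin n → EE F) (l : Fin k → ℂ) : Matrix (Fin p) (Fin n) ℂ :=
  ∑ i, l i • Matrix.of fun j m => (M i j m).2 w

/-- At every place every nonzero complex combination has rank at least `R`. -/
def RCe (M : Fin k → Fin p → Fin n → EE F) (R : ℕ) : Prop :=
  (∀ (w : {w : InfinitePlace F // w.IsReal}) (l : Fin k → ℂ), l ≠ 0 → R ≤ (mr w M l).rank) ∧
  ∀ (w : {w : InfinitePlace F // w.IsComplex}) (l : Fin k → ℂ), l ≠ 0 → R ≤ (mc w M l).rank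

theorem mr_mulVec (M : Fin k → Fin p → Fin n → EE F)
    (w : {w : InfinitePlace F // w.IsReal}) (l : Fin k → ℂ) (v : Fin n → ℂ) (j : Fin p) :
    (mr w M l).mulVec v j = ∑ i, l i * ∑ m, (((M i j m).1 w : ℝ) : ℂ) * v m := by
  unfold mr Matrix.mulVec dotProduct
  simp only [Matrix.sum_apply, Matrix.smul_apply, Matrix.of_apply, smul_eq_mul,
    Finset.sum_mul, Finset.mul_sum]
  rw [Finset.sum_comm]
  refine Finset.sum_congr rfl fun i _ => Finset.sum_congr rfl fun m _ => ?_
  rw [mul_assoc]

theorem mc_mulVec (M : Fin k → Fin p → Fin n → EE F)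
    (w : {w : InfinitePlace F // w.IsComplex}) (l : Fin k → ℂ) (v : Fin n → ℂ) (j : Fin p) :
    (mc w M l).mulVec v j = ∑ i, l i * ∑ m, (M i j m).2 w * v m := by
  unfold mc Matrix.mulVec dotProduct
  simp only [Matrix.sum_apply, Matrix.smul_apply, Matrix.of_apply, smul_eq_mul,
    Finset.sum_mul, Finset.mul_sum]
  rw [Finset.sum_comm]
  refine Finset.sum_congr rfl fun i _ => Finset.sum_congr rfl fun m _ => ?_
  rw [mul_assoc]

theorem ker_of_rank {N : Matrix (Fin p) (Fin n) ℂ} {R : ℕ} (h : R ≤ N.rank) :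
    finrank ℂ (LinearMap.ker N.mulVecLin) ≤ n - R ∧ R ≤ n := by
  have h1 := LinearMap.finrank_range_add_finrank_ker N.mulVecLin
  have h2 : R ≤ finrank ℂ (LinearMap.range N.mulVecLin) := h
  rw [finrank_fin_fun] at h1
  omega

theorem ker_real (M : Fin k → Fin p → Fin n → EE F) (s : Fin k → EE F)
    {z : Fin n → EE F} (hz : Se M s z = 0) (w : {w : InfinitePlace F // w.IsReal}) :
    (fun i => (((z i).1 w : ℝ) : ℂ)) ∈
      LinearMap.ker (mr w M (fun i => (((s i).1 w : ℝ) : ℂ))).mulVecLin := by
  rw [LinearMap.mem_ker, Matrix.mulVecLin_apply]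
  funext j
  rw [mr_mulVec, Pi.zero_apply]
  have h1 := congrArg (fun x : EE F => ((x.1 w : ℝ) : ℂ)) (congrFun hz j)
  simp only [Se, LinearMap.coe_mk, AddHom.coe_mk, Prod.fst_sum, Finset.sum_apply, Prod.fst_mul,
    Pi.mul_apply, Pi.zero_apply, Prod.fst_zero, Complex.ofReal_zero, Complex.ofReal_sum,
    Complex.ofReal_mul] at h1
  rw [← h1]

theorem ker_complex (M : Fin k → Fin p → Fin n → EE F) (s : Fin k → EE F)
    {z : Fin n → EE F} (hz : Se M s z = 0) (w : {w : InfinitePlace F // w.IsComplex}) :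
    (fun i => (z i).2 w) ∈ LinearMap.ker (mc w M (fun i => (s i).2 w)).mulVecLin := by
  rw [LinearMap.mem_ker, Matrix.mulVecLin_apply]
  funext j
  rw [mc_mulVec, Pi.zero_apply]
  have h1 := congrArg (fun x : EE F => x.2 w) (congrFun hz j)
  simp only [Se, LinearMap.coe_mk, AddHom.coe_mk, Prod.snd_sum, Finset.sum_apply, Prod.snd_mul,
    Pi.mul_apply, Pi.zero_apply, Prod.snd_zero] at h1
  rw [← h1]

/-- the components of an element of the kernel -/
noncomputable def kerPhi (M : Fin k → Fin p → Fin n → EE F) (s : Fin k → EE F) :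
    LinearMap.ker (Se M s) →ₗ[ℝ]
      ((w : {w : InfinitePlace F // w.IsReal}) →
        rnkR (LinearMap.ker (mr w M (fun i => (((s i).1 w : ℝ) : ℂ))).mulVecLin)) ×
      ((w : {w : InfinitePlace F // w.IsComplex}) →
        LinearMap.ker (mc w M (fun i => (s i).2 w)).mulVecLin) where
  toFun z := (fun w => ⟨fun i => (z.1 i).1 w, ker_real M s z.2 w⟩,
    fun w => ⟨fun i => (z.1 i).2 w, ker_complex M s z.2 w⟩)
  map_add' _ _ := rfl
  map_smul' _ _ := rfl

theorem range_Se {M : Fin k → Fin p → Fin n → EE F} {R : ℕ} (hM : RCe M R)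
    {s : Fin k → EE F} (hs : ∀ w : InfinitePlace F, ∃ i, 1 ≤ mixedEmbedding.normAtPlace w (s i)) :
    finrank ℚ F * R ≤ finrank ℝ (LinearMap.range (Se M s)) := by
  have hinj : Function.Injective (kerPhi M s) := by
    intro z z' h
    apply Subtype.ext
    funext i
    have h1 := congrArg Prod.fst h
    have h2 := congrArg Prod.snd h
    apply Prod.ext
    · funext w
      exact congrFun (congrArg Subtype.val (congrFun h1 w)) i
    · funext w
      exact congrFun (congrArg Subtype.val (congrFun h2 w)) i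
  have hlr : ∀ w : {w : InfinitePlace F // w.IsReal},
      (fun i => (((s i).1 w : ℝ) : ℂ)) ≠ 0 := by
    intro w h
    obtain ⟨i, hi⟩ := hs w.1
    have h1 : (s i).1 w = 0 := by
      have h3 : (((s i).1 w : ℝ) : ℂ) = 0 := congrFun h i
      exact_mod_cast h3
    rw [mixedEmbedding.normAtPlace_apply_of_isReal w.2] at hi
    rw [show (s i).1 ⟨w.1, w.2⟩ = 0 from h1, norm_zero] at hi
    exact absurd hi (by norm_num)
  have hlc : ∀ w : {w : InfinitePlace F // w.IsComplex}, (fun i => (s i).2 w) ≠ 0 := by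
    intro w h
    obtain ⟨i, hi⟩ := hs w.1
    have h1 : (s i).2 w = 0 := congrFun h i
    rw [mixedEmbedding.normAtPlace_apply_of_isComplex w.2] at hi
    rw [show (s i).2 ⟨w.1, w.2⟩ = 0 from h1, norm_zero] at hi
    exact absurd hi (by norm_num)
  have hRn : R ≤ n := by
    obtain ⟨w⟩ : Nonempty (InfinitePlace F) := inferInstance
    rcases w.isReal_or_isComplex with hw | hw
    · exact (ker_of_rank (hM.1 ⟨w, hw⟩ _ (hlr ⟨w, hw⟩))).2
    · exact (ker_of_rank (hM.2 ⟨w, hw⟩ _ (hlc ⟨w, hw⟩))).2
  have h1 := LinearMap.finrank_le_finrank_of_injective hinj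
  rw [finrank_prod, finrank_pi_fintype, finrank_pi_fintype] at h1
  have h2 : ∑ w : {w : InfinitePlace F // w.IsReal},
      finrank ℝ (rnkR (LinearMap.ker (mr w M (fun i => (((s i).1 w : ℝ) : ℂ))).mulVecLin)) ≤
        Fintype.card {w : InfinitePlace F // w.IsReal} * (n - R) := by
    rw [← smul_eq_mul, ← Finset.card_univ, ← Finset.sum_const]
    exact Finset.sum_le_sum fun w _ => (rnk_re _).trans (ker_of_rank (hM.1 w _ (hlr w))).1
  have h3 : ∑ w : {w : InfinitePlace F // w.IsComplex},
      finrank ℝ (LinearMap.ker (mc w M (fun i => (s i).2 w)).mulVecLin) ≤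
        Fintype.card {w : InfinitePlace F // w.IsComplex} * (2 * (n - R)) := by
    rw [← smul_eq_mul, ← Finset.card_univ, ← Finset.sum_const]
    refine Finset.sum_le_sum fun w _ => ?_
    rw [finrank_real_of_complex]
    have := (ker_of_rank (hM.2 w _ (hlc w))).1
    omega
  have h4 := InfinitePlace.card_add_two_mul_card_eq_rank F
  have h5 : Fintype.card {w : InfinitePlace F // w.IsReal} = InfinitePlace.nrRealPlaces F := rfl
  have h6 : Fintype.card {w : InfinitePlace F // w.IsComplex} = InfinitePlace.nrComplexPlaces F :=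
    rfl
  have h7 := LinearMap.finrank_range_add_finrank_ker (Se M s)
  rw [finrank_pi_fintype, Finset.sum_const, Finset.card_univ, Fintype.card_fin, smul_eq_mul,
    mixedEmbedding.finrank] at h7
  rw [h5] at h2
  rw [h6] at h3
  have h8 : finrank ℝ (LinearMap.ker (Se M s)) ≤ finrank ℚ F * (n - R) := by
    calc _ ≤ InfinitePlace.nrRealPlaces F * (n - R) +
          InfinitePlace.nrComplexPlaces F * (2 * (n - R)) := h1.trans (add_le_add h2 h3)
      _ = (InfinitePlace.nrRealPlaces F + 2 * InfinitePlace.nrComplexPlaces F) * (n - R) := by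
          ring
      _ = _ := by rw [h4]
  have h9 : n * finrank ℚ F = finrank ℚ F * (n - R) + finrank ℚ F * R := by
    rw [← mul_add, Nat.sub_add_cancel hRn, mul_comm]
  omega

/-- the maps are bilinear in the matrices and in `s` -/
noncomputable def Lse : (Fin k → Fin p → Fin n → EE F) →ₗ[ℝ] (Fin k → EE F) →ₗ[ℝ]
    ((Fin n → EE F) →ₗ[ℝ] (Fin p → EE F)) :=
  LinearMap.mk₂ ℝ Se
    (by
      intro M M' s
      apply LinearMap.ext
      intro z
      funext j
      simp only [Se, LinearMap.coe_mk, AddHom.coe_mk, Pi.add_apply, LinearMap.add_apply,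
        add_mul, Finset.sum_add_distrib, mul_add])
    (by
      intro c M s
      apply LinearMap.ext
      intro z
      funext j
      simp only [Se, LinearMap.coe_mk, AddHom.coe_mk, Pi.smul_apply, LinearMap.smul_apply,
        smul_mul_assoc, ← Finset.smul_sum, mul_smul_comm])
    (by
      intro M s t
      apply LinearMap.ext
      intro z
      funext j
      simp only [Se, LinearMap.coe_mk, AddHom.coe_mk, Pi.add_apply, LinearMap.add_apply, add_mul,
        Finset.sum_add_distrib])
    (by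
      intro c M s
      apply LinearMap.ext
      intro z
      funext j
      simp only [Se, LinearMap.coe_mk, AddHom.coe_mk, Pi.smul_apply, LinearMap.smul_apply,
        smul_mul_assoc, Finset.smul_sum])

theorem cont_Se {X : Type*} [TopologicalSpace X]
    {M : X → Fin k → Fin p → Fin n → EE F} (hM : Continuous M)
    {s : X → Fin k → EE F} (hs : Continuous s) :
    Continuous fun x => LinearMap.toContinuousLinearMap (Se (M x) (s x)) := by
  let g : (Fin k → Fin p → Fin n → EE F) →ₗ[ℝ] (Fin k → EE F) →ₗ[ℝ]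
      ((Fin n → EE F) →L[ℝ] (Fin p → EE F)) :=
    Lse.compr₂ (LinearMap.toContinuousLinearMap : ((Fin n → EE F) →ₗ[ℝ] (Fin p → EE F)) ≃ₗ[ℝ]
      ((Fin n → EE F) →L[ℝ] (Fin p → EE F))).toLinearMap
  have h1 : Continuous fun q : (Fin k → Fin p → Fin n → EE F) × (Fin k → EE F) => g q.1 q.2 := by
    have h2 := (LinearMap.toContinuousBilinearMap g).continuous₂
    exact h2
  exact h1.comp (hM.prodMk hs)

/-- The uniform lower bound: matrices which depend continuously on a parameter in a compact set. -/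
theorem rnkc {X : Type*} [TopologicalSpace X] {K : Set X} (hK : IsCompact K)
    {M : X → Fin k → Fin p → Fin n → EE F} (hM : Continuous M) {R : ℕ}
    (hR : ∀ x ∈ K, RCe (M x) R) :
    ∃ c : ℝ, 0 < c ∧ ∀ x ∈ K, ∀ s : Fin k → EE F, ‖s‖ ≤ 5 →
      (∀ w : InfinitePlace F, ∃ i, 1 ≤ mixedEmbedding.normAtPlace w (s i)) →
      ∃ P : Submodule ℝ (Fin n → EE F), finrank ℝ P = finrank ℚ F * R ∧
        ∀ q ∈ P, c * ‖q‖ ≤ ‖Se (M x) s q‖ := by
  have hc : IsCompact ({s : Fin k → EE F | ‖s‖ ≤ 5} ∩
      {s | ∀ w : InfinitePlace F, ∃ i, 1 ≤ mixedEmbedding.normAtPlace w (s i)}) := by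
    have h1 : IsCompact {s : Fin k → EE F | ‖s‖ ≤ 5} := by
      have h2 : {s : Fin k → EE F | ‖s‖ ≤ 5} = Metric.closedBall 0 5 := by
        ext s
        simp
      rw [h2]
      exact isCompact_closedBall _ _
    apply h1.inter_right
    rw [Set.ofPred_forall]
    apply isClosed_iInter
    intro w
    rw [Set.ofPred_exists]
    apply isClosed_iUnion_of_finite
    intro i
    exact isClosed_le continuous_const
      ((mixedEmbedding.continuous_normAtPlace w).comp (continuous_apply i))
  obtain ⟨c, hc0, h⟩ := rnk_cpt (R := finrank ℚ F * R) (hK.prod hc)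
    (cont_Se (hM.comp continuous_fst) continuous_snd)
    (fun q hq => range_Se (hR q.1 hq.1) hq.2.2)
  exact ⟨c, hc0, fun x hx s hs1 hs2 => h (x, s) ⟨hx, hs1, hs2⟩⟩

end Pool.Agent.L5helper6.BF
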