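import Mathlib

/-!
Smooth complete intersections of divisors of type `(1,1)`: the rank condition.
-/

namespace Pool.Agent.L5helper6.BF

open Module Matrix

/-- The case where the second space is large. -/
theorem smooth_rank_aux {n₁ n₂ k : ℕ} (Q : Fin k → Matrix (Fin n₁) (Fin n₂) ℂ)
    (hsm : ∀ (a : Fin n₁ → ℂ) (b : Fin n₂ → ℂ), a ≠ 0 → b ≠ 0 → (∀ i, a ⬝ᵥ Q i *ᵥ b = 0) →
      ∀ s : Fin k → ℂ, s ≠ 0 → ¬ ((∑ i, s i • Q i) *ᵥ b = 0 ∧ a ᵥ* (∑ i, s i • Q i) = 0))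
    (h1 : 2 * k + 1 ≤ n₁) (h2 : 2 * k + 1 ≤ n₂) (h3 : 3 * k ≤ n₂) (s : Fin k → ℂ) (hs : s ≠ 0) :
    2 * k + 1 ≤ (∑ i, s i • Q i).rank := by
  by_contra hcon
  push Not at hcon
  set P := ∑ i, s i • Q i with hP
  -- a vector in the left kernel
  obtain ⟨a, ha, ha'⟩ : ∃ a : Fin n₁ → ℂ, a ≠ 0 ∧ a ᵥ* P = 0 := by
    have h4 := LinearMap.finrank_range_add_finrank_ker Pᵀ.mulVecLin
    have h5 : finrank ℂ (LinearMap.range Pᵀ.mulVecLin) = P.rank := by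
      rw [← Matrix.rank_transpose P]
      rfl
    rw [h5, finrank_fin_fun] at h4
    have h6 : 0 < finrank ℂ (LinearMap.ker Pᵀ.mulVecLin) := by omega
    have : Nontrivial (LinearMap.ker Pᵀ.mulVecLin) := finrank_pos_iff.1 h6
    obtain ⟨a, ha⟩ := exists_ne (0 : LinearMap.ker Pᵀ.mulVecLin)
    refine ⟨a, fun h => ha (Subtype.ext h), ?_⟩
    have h7 : Pᵀ *ᵥ (a : Fin n₁ → ℂ) = 0 := a.2
    rw [← Matrix.mulVec_transpose]
    exact h7
  -- a vector in the right kernel on which all forms vanish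
  obtain ⟨b, hb, hb', hb''⟩ : ∃ b : Fin n₂ → ℂ, b ≠ 0 ∧ P *ᵥ b = 0 ∧ ∀ i, a ⬝ᵥ Q i *ᵥ b = 0 := by
    set W := LinearMap.ker P.mulVecLin with hW
    have h4 := LinearMap.finrank_range_add_finrank_ker P.mulVecLin
    have h5 : finrank ℂ (LinearMap.range P.mulVecLin) = P.rank := rfl
    rw [h5, finrank_fin_fun, ← hW] at h4
    have h6 : k ≤ finrank ℂ W := by omega
    let φ : (Fin n₂ → ℂ) →ₗ[ℂ] (Fin k → ℂ) :=
      LinearMap.pi fun i => (dotProductBilin ℂ ℂ a).comp (Q i).mulVecLin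
    have hφ : ∀ z i, φ z i = a ⬝ᵥ Q i *ᵥ z := fun z i => rfl
    let ψ : (Fin k → ℂ) →ₗ[ℂ] ℂ := dotProductBilin ℂ ℂ s
    have hψ : ∀ c, ψ c = s ⬝ᵥ c := fun c => rfl
    have h7 : LinearMap.range (φ ∘ₗ W.subtype) ≤ LinearMap.ker ψ := by
      rintro _ ⟨z, rfl⟩
      rw [LinearMap.mem_ker, hψ]
      have h8 : s ⬝ᵥ (φ ∘ₗ W.subtype) z = a ⬝ᵥ P *ᵥ (z : Fin n₂ → ℂ) := by
        rw [hP, Matrix.sum_mulVec, dotProduct_sum]
        refine Finset.sum_congr rfl fun i _ => ?_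
        rw [Matrix.smul_mulVec, dotProduct_smul]
        rfl
      rw [h8]
      have h9 : P *ᵥ (z : Fin n₂ → ℂ) = 0 := z.2
      rw [h9, dotProduct_zero]
    have h8 : finrank ℂ (LinearMap.ker ψ) + 1 ≤ k := by
      have h9 := LinearMap.finrank_range_add_finrank_ker ψ
      rw [finrank_fin_fun] at h9
      have h10 : 0 < finrank ℂ (LinearMap.range ψ) := by
        rw [Module.finrank_pos_iff]
        obtain ⟨i, hi⟩ := Function.ne_iff.1 hs
        refine ⟨⟨ψ (Pi.single i 1), ⟨_, rfl⟩⟩, 0, fun h => hi ?_⟩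
        have h11 := congrArg Subtype.val h
        have h12 : s ⬝ᵥ Pi.single i 1 = 0 := h11
        rw [dotProduct_single_one] at h12
        exact h12
      omega
    have h9 := LinearMap.finrank_range_add_finrank_ker (φ ∘ₗ W.subtype)
    have h10 := Submodule.finrank_mono h7
    have h11 : 0 < finrank ℂ (LinearMap.ker (φ ∘ₗ W.subtype)) := by omega
    have : Nontrivial (LinearMap.ker (φ ∘ₗ W.subtype)) := finrank_pos_iff.1 h11
    obtain ⟨b, hb⟩ := exists_ne (0 : LinearMap.ker (φ ∘ₗ W.subtype))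
    refine ⟨((b : W) : Fin n₂ → ℂ), fun h => hb (Subtype.ext (Subtype.ext h)), (b : W).2,
      fun i => ?_⟩
    have h12 : (φ ∘ₗ W.subtype) (b : W) = 0 := b.2
    exact congrFun h12 i
  exact hsm a b ha hb hb'' s hs ⟨hb', ha'⟩

/-- Smooth complete intersections satisfy the rank condition. -/
theorem smooth_rank {n₁ n₂ k : ℕ} (Q : Fin k → Matrix (Fin n₁) (Fin n₂) ℂ)
    (hsm : ∀ (a : Fin n₁ → ℂ) (b : Fin n₂ → ℂ), a ≠ 0 → b ≠ 0 → (∀ i, a ⬝ᵥ Q i *ᵥ b = 0) →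
      ∀ s : Fin k → ℂ, s ≠ 0 → ¬ ((∑ i, s i • Q i) *ᵥ b = 0 ∧ a ᵥ* (∑ i, s i • Q i) = 0))
    (h1 : 2 * k + 1 ≤ n₁) (h2 : 2 * k + 1 ≤ n₂) (h3 : 3 * k ≤ n₁ ∨ 3 * k ≤ n₂) (s : Fin k → ℂ)
    (hs : s ≠ 0) : 2 * k + 1 ≤ (∑ i, s i • Q i).rank := by
  rcases h3 with h3 | h3
  · have key := smooth_rank_aux (fun i => (Q i)ᵀ) (fun b a hb ha h s hs => ?_) h2 h1 h3 s hs
    · have e : ∑ i, s i • (Q i)ᵀ = (∑ i, s i • Q i)ᵀ := by
        rw [Matrix.transpose_sum]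
        refine Finset.sum_congr rfl fun i _ => ?_
        rw [Matrix.transpose_smul]
      rw [e, Matrix.rank_transpose] at key
      exact key
    · have e : ∑ i, s i • (Q i)ᵀ = (∑ i, s i • Q i)ᵀ := by
        rw [Matrix.transpose_sum]
        refine Finset.sum_congr rfl fun i _ => ?_
        rw [Matrix.transpose_smul]
      rw [e, Matrix.mulVec_transpose, Matrix.vecMul_transpose]
      rintro ⟨h4, h5⟩
      refine hsm a b ha hb (fun i => ?_) s hs ⟨h5, h4⟩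
      have h6 := h i
      rw [Matrix.mulVec_transpose, dotProduct_comm, ← Matrix.dotProduct_mulVec] at h6
      exact h6
  · exact smooth_rank_aux Q hsm h1 h2 h3 s hs

end Pool.Agent.L5helper6.BF
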